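import Pool.Agent.W679.B13

set_option autoImplicit false

/-!
The quadratic weight on the centred simplex (helper563).
-/

open MeasureTheory Set Filter
open scoped ENNReal Topology Matrix

namespace Pool.Agent.N563.UL

open Pool.Agent.H131R5.LM Pool.Agent.H131R5.LC Pool.Agent.W679.B
open H801NS H801NS.TENS

variable {n m : ℕ} {p : ℝ}

/-- the invariant quadratic form -/
def qs (x : Fin n → ℝ) : ℝ := ∑ i, lam x i ^ 2

lemma qs_nonneg (x : Fin n → ℝ) : 0 ≤ qs x := Finset.sum_nonneg fun i _ => sq_nonneg _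

lemma qs_cont : Continuous (qs (n := n)) := by
  unfold qs
  exact continuous_finsetSum _ fun i _ => (cont_lam i).pow 2

lemma qs_Sy : Sy (qs (n := n)) := by
  intro σ x
  unfold qs
  rw [lam_R]
  exact Equiv.sum_comp σ fun i => lam x i ^ 2

lemma qs_smul (a : ℝ) (x : Fin n → ℝ) : qs (a • x) = a ^ 2 * qs x := by
  unfold qs
  rw [lam_smul, Finset.mul_sum]
  refine Finset.sum_congr rfl fun i _ => ?_
  rw [Pi.smul_apply, smul_eq_mul, mul_pow]

lemma qs_pos {x : Fin n → ℝ} (hx : x ≠ 0) : 0 < qs x := by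
  refine lt_of_le_of_ne (qs_nonneg x) fun h => hx ?_
  have h1 := (Finset.sum_eq_zero_iff_of_nonneg fun i _ => sq_nonneg (lam x i)).1 h.symm
  apply lam_inj
  rw [lam_zero]
  funext i
  exact pow_eq_zero_iff (two_ne_zero) |>.1 (h1 i (Finset.mem_univ i))

lemma qs_convex (s : Set (Fin n → ℝ)) (hs : Convex ℝ s) : ConvexOn ℝ s (qs (n := n)) := by
  refine ⟨hs, fun x _ y _ a b ha hb hab => ?_⟩
  unfold qs
  simp only [smul_eq_mul]
  rw [lam_add, lam_smul, lam_smul, Finset.mul_sum, Finset.mul_sum, ← Finset.sum_add_distrib]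
  refine Finset.sum_le_sum fun i _ => ?_
  simp only [Pi.add_apply, Pi.smul_apply, smul_eq_mul]
  have h : a * lam x i ^ 2 + b * lam y i ^ 2 - (a * lam x i + b * lam y i) ^ 2 =
      a * b * (lam x i - lam y i) ^ 2 := by
    have hb' : b = 1 - a := by linarith
    rw [hb']; ring
  have h2 : 0 ≤ a * b * (lam x i - lam y i) ^ 2 := by positivity
  linarith

lemma qs_jj (q : Fin m → ℝ) :
    qs (jj q) = qs q + (cc (m + 1) ^ 2 + ((m : ℝ) + 1) * (cc m - cc (m + 1)) ^ 2) := by
  unfold qs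
  rw [Fin.sum_univ_succ, lam_jj_zero]
  simp only [lam_jj_succ]
  have h : ∀ i : Fin (m + 1), (lam q i + (cc m - cc (m + 1))) ^ 2 =
      lam q i ^ 2 + (2 * (cc m - cc (m + 1)) * lam q i + (cc m - cc (m + 1)) ^ 2) := by
    intro i; ring
  simp_rw [h]
  rw [Finset.sum_add_distrib, Finset.sum_add_distrib, ← Finset.mul_sum, lam_sum, Finset.sum_const,
    Finset.card_univ, Fintype.card_fin, nsmul_eq_mul]
  push_cast
  ring

lemma qs_ray {x : Fin m → ℝ} (hx0 : x ≠ 0) {a b : ℝ} (ha : 0 < a) (hab : a < b) :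
    qs (jj (a • x)) < qs (jj (b • x)) := by
  rw [qs_jj, qs_jj, qs_smul, qs_smul]
  have h := qs_pos hx0
  have h1 : a ^ 2 < b ^ 2 := by nlinarith
  nlinarith

/-- integral over the simplex -/
noncomputable def Iq (n : ℕ) : ℝ := ∫ x in Sn n, qs x

/-- integral over the facet -/
noncomputable def If (m : ℕ) : ℝ := ∫ q in Sn m, qs (jj q)

lemma Iq_rec (m : ℕ) : ((m : ℝ) + 3) * Iq (m + 1) = If m := by
  have h := rec_int (m := m) (f := qs) (L := 1)
    (by rw [SL_one]; exact qs_cont.continuousOn.integrableOn_compact NB_Sn.comp) qs_Sy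
  rw [SL_one] at h
  have h2 : ∀ ρ : ℝ, ρ ^ m * ∫ q in Sn m, qs (ρ • jj q) = ρ ^ (m + 2) * If m := by
    intro ρ
    unfold If
    simp_rw [qs_smul]
    rw [integral_const_mul]
    ring
  simp_rw [h2] at h
  rw [integral_mul_const] at h
  have h3 : ∫ ρ in Ioc (0 : ℝ) 1, ρ ^ (m + 2) = 1 / ((m : ℝ) + 3) := by
    rw [← intervalIntegral.integral_of_le zero_le_one, integral_pow]
    push_cast
    norm_num
    ring
  rw [h3] at h
  unfold Iq
  rw [h]
  field_simp

lemma VS_rec (m : ℕ) : VS (m + 1) * ((m : ℝ) + 1) = VS m := by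
  have h1 := vol_rec m
  rw [VS_eq, VS_eq] at h1
  have h2 : ∫ ρ in Ioc (0 : ℝ) 1, ρ ^ m = 1 / ((m : ℝ) + 1) := by
    rw [← intervalIntegral.integral_of_le zero_le_one, integral_pow]
    simp
  rw [h1, h2]
  field_simp

lemma Iq_pos (m : ℕ) : 0 < Iq (m + 1) := by
  unfold Iq
  rw [setIntegral_pos_iff_support_of_nonneg_ae (Filter.Eventually.of_forall fun x => qs_nonneg x)
    (qs_cont.continuousOn.integrableOn_compact NB_Sn.comp)]
  have hopen : IsOpen (interior (Sn (m + 1)) ∩ {x | 0 < qs x}) :=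
    isOpen_interior.inter (isOpen_lt continuous_const qs_cont)
  have hne : (interior (Sn (m + 1)) ∩ {x : Fin (m + 1) → ℝ | 0 < qs x}).Nonempty := by
    obtain ⟨d, hd, hball⟩ := Metric.mem_nhds_iff.1
      (mem_interior_iff_mem_nhds.1 (NB_Sn (n := m + 1)).zero)
    have hb : Metric.ball (0 : Fin (m + 1) → ℝ) d ⊆ interior (Sn (m + 1)) :=
      interior_maximal hball Metric.isOpen_ball
    refine ⟨fun _ => d / 2, hb ?_, qs_pos ?_⟩
    · rw [mem_ball_zero_iff, pi_norm_lt_iff hd]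
      intro i
      rw [Real.norm_eq_abs, abs_of_pos (by positivity)]
      linarith
    · intro h
      have := congrFun h 0
      simp only [Pi.zero_apply] at this
      linarith
  refine (hopen.measure_pos volume hne).trans_le (measure_mono ?_)
  rintro x ⟨h1, h2⟩
  exact ⟨h2.ne', interior_subset h1⟩

/-- the mean over the facet minus the mean over the simplex -/
noncomputable def gapq (m : ℕ) : ℝ := If m / VS m - Iq (m + 1) / VS (m + 1)

lemma gapq_pos (m : ℕ) : 0 < gapq m := by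
  unfold gapq
  have h1 := Iq_rec m
  have h2 := VS_rec m
  have h3 := Iq_pos m
  have h4 := VS_pos (m + 1)
  rw [← h1, ← h2, sub_pos, div_lt_div_iff₀ h4 (by positivity)]
  have h5 : 0 < Iq (m + 1) * VS (m + 1) := by positivity
  nlinarith

/-- **the first order inequality for the quadratic weight** -/
theorem first_q (m : ℕ) : ∃ ε η : ℝ, 0 < ε ∧ 0 < η ∧ ∀ K : Set (Fin (m + 2) → ℝ), NB K →
    K ⊆ Sn (m + 2) → (∀ x ∈ Sn (m + 2), gauge K x ≤ 1 + ε) →
      (∀ i : Fin (m + 3), R (Equiv.swap 0 i) (jj 0) ∈ K) →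
      (If (m + 1) / VS (m + 1) + η) * (volume (Sn (m + 2) \ K)).toReal ≤
        ∫ x in Sn (m + 2) \ K, qs x := by
  refine first_order qs one_pos (qs_convex _ (SL_convex _)) qs_cont.continuousOn qs_Sy
    (fun x _ hx0 a b ha hab _ => qs_ray hx0 ha hab) ?_
  rw [VS_eq]
  have := VS_pos (m + 1)
  rw [div_mul_cancel₀ _ this.ne']
  exact le_rfl

end Pool.Agent.N563.UL
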