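import Pool.Agent.N563.UL.U9

set_option autoImplicit false

/-!
Uniform local minimality for all `p ∈ (0, ∞)`, the set of good exponents (helper563).
-/

open MeasureTheory Set Filter
open scoped ENNReal Topology Matrix Pointwise

namespace Pool.Agent.N563.UL

open Pool.Agent.H131R5.LM Pool.Agent.H131R5.LC Pool.Agent.W679.B
open H801NS H801NS.TENS
open Pool.Agent.N563.SE (Body cen cov lin vr lap ff AK Mv LK LK_pos LK_sh sh body_sh infall
  part_lim vol_sh)

variable {n m : ℕ} {p q : ℝ} {K L : Set (Fin n → ℝ)}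

/-- **uniform local minimality of the simplex** -/
theorem local_all (m : ℕ) : ∃ δ : ℝ, 0 < δ ∧ ∀ p : ℝ, 0 < p →
    ∀ K : Set (Fin (m + 2) → ℝ), Body K → Near δ K →
      Mp p (Sn (m + 2)) ≤ Mp p K ∧ (Mp p K = Mp p (Sn (m + 2)) → Hull K) := by
  obtain ⟨p0, hp0, hlarge⟩ := Pool.Agent.TH649.LOC.all_final (m + 2) (by omega)
  obtain ⟨δ, η, hδ, hη, hgain⟩ := local_gain m hp0
  refine ⟨δ, hδ, fun p hp K hK hN => ?_⟩
  obtain ⟨Q, hQ, hKQ, hvol⟩ := hN
  rcases le_total p0 p with hpp | hpp
  · have h := hlarge p hpp K hK.cpt hK.conv hK.int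
    refine ⟨h.1, fun he => ?_⟩
    by_contra hcon
    exact absurd he (h.2 fun Q hQ hKQ => hcon ⟨Q, hQ, hKQ⟩).ne'
  · obtain ⟨T, hT, hKT, hfull, hMp, -⟩ := hgain K hK.cpt hK.conv hK.int Q hQ hKQ hvol
    have h1 := hMp p hp hpp
    set C := convexHull ℝ (T : Set (Fin (m + 2) → ℝ)) with hC
    have hCt : volume C ≠ ⊤ :=
      ((T.finite_toSet.isCompact_convexHull (𝕜 := ℝ)).measure_lt_top).ne
    have hvKC : (volume K).toReal ≤ (volume C).toReal :=
      ENNReal.toReal_mono hCt (measure_mono hKT)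
    have hW := Pool.Agent.N563.SE.Wp hK
    have hC0 : 0 < (volume C).toReal := hW.trans_le hvKC
    have h3 : 0 ≤ 1 - (volume K).toReal / (volume C).toReal := by
      rw [sub_nonneg, div_le_one hC0]
      exact hvKC
    have h4 : Mp p (Sn (m + 2)) ≤ ENNReal.ofReal (1 + η * (1 - (volume K).toReal /
        (volume C).toReal)) * Mp p (Sn (m + 2)) := by
      calc Mp p (Sn (m + 2)) = ENNReal.ofReal 1 * Mp p (Sn (m + 2)) := by
            rw [ENNReal.ofReal_one, one_mul]
        _ ≤ _ := by
            gcongr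
            have : 0 ≤ η * (1 - (volume K).toReal / (volume C).toReal) := by positivity
            linarith
    refine ⟨h4.trans h1, fun he => ⟨T, hT, hfull ?_⟩⟩
    by_contra hne
    have h5 : (volume K).toReal < (volume C).toReal := lt_of_le_of_ne hvKC hne
    have h6 : 0 < η * (1 - (volume K).toReal / (volume C).toReal) := by
      apply mul_pos hη
      rw [sub_pos, div_lt_one hC0]
      exact h5
    rw [he] at h1
    have h7 : Mp p (Sn (m + 2)) < ENNReal.ofReal (1 + η * (1 - (volume K).toReal /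
        (volume C).toReal)) * Mp p (Sn (m + 2)) := by
      nth_rewrite 1 [← one_mul (Mp p (Sn (m + 2)))]
      rw [← ENNReal.ofReal_one]
      refine (ENNReal.mul_lt_mul_iff_left (MpS_pos hp) (MpS_top hp)).2 ?_
      rw [ENNReal.ofReal_lt_ofReal_iff (by linarith)]
      linarith
    exact absurd h1 (not_le.2 h7)

/-- the inequality of Q1 for the exponent `p` -/
def Weak (n : ℕ) (p : ℝ) : Prop := ∀ K : Set (Fin n → ℝ), Body K → Mp p (Sn n) ≤ Mp p K

lemma Weak.inf (h : Weak n p) (hK : Body K) : Mp p (Sn n) ≤ infall p K :=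
  le_iInf fun z => h _ (body_sh hK z)

lemma Good.weak (h : Good n p) : Weak n p := fun K hK => (h K hK).1

/-- the simplex at two exponents -/
lemma MpS_scale (hq : 0 < q) (hqp : q ≤ p) :
    ENNReal.ofReal ((q / p) ^ n) * Mp q (Sn n) ≤ Mp p (Sn n) := by
  have h := Mp_scale (bodyS n) hq hqp
  rwa [infall_Sn hq] at h

/-- **the set of good exponents is open** -/
theorem good_open (m : ℕ) (hp : 0 < p) (hg : Good (m + 2) p) :
    ∃ ε : ℝ, 0 < ε ∧ ∀ q : ℝ, 0 < q → |q - p| < ε → Good (m + 2) q := by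
  obtain ⟨δ, hδ, hloc⟩ := local_all m
  obtain ⟨κ, hκ, hgap⟩ := gapM (by omega) hp hg hδ
  set n : ℕ := m + 2 with hn
  have h1 : ∀ᶠ q in 𝓝 p, 1 < (p / q) ^ n * (1 + κ) ∧ 1 < (q / p) ^ n * (1 + κ) := by
    have h2 : Tendsto (fun q : ℝ => (p / q) ^ n * (1 + κ)) (𝓝 p) (𝓝 ((p / p) ^ n * (1 + κ))) := by
      have : ContinuousAt (fun q : ℝ => (p / q) ^ n * (1 + κ)) p := by
        have : ContinuousAt (fun q : ℝ => p / q) p := by
          exact continuousAt_const.div continuousAt_id hp.ne'
        exact (this.pow n).mul continuousAt_const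
      exact this.tendsto
    have h3 : Tendsto (fun q : ℝ => (q / p) ^ n * (1 + κ)) (𝓝 p) (𝓝 ((p / p) ^ n * (1 + κ))) := by
      have : Continuous (fun q : ℝ => (q / p) ^ n * (1 + κ)) := by fun_prop
      exact this.tendsto p
    rw [div_self hp.ne', one_pow, one_mul] at h2 h3
    exact (h2.eventually_const_lt (by linarith)).and (h3.eventually_const_lt (by linarith))
  obtain ⟨ε, hε, h2⟩ := Metric.eventually_nhds_iff.1 h1
  refine ⟨ε, hε, fun q hq hqp K hK => ?_⟩
  by_cases hN : Near δ K
  · exact hloc q hq K hK hN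
  · obtain ⟨ha, hb⟩ := h2 (show dist q p < ε by rw [Real.dist_eq]; exact hqp)
    have h3 := hgap K hK hN
    have hCp0 := MpS_pos (n := n) hp
    have hCpt := MpS_top (n := n) hp
    have hCq0 := MpS_pos (n := n) hq
    have hCqt := MpS_top (n := n) hq
    have key : Mp q (Sn n) < Mp q K := by
      rcases le_total p q with hpq | hqp'
      · -- `p ≤ q`
        have h4 := Mp_scale hK hp hpq
        have h5 := Mp_anti (bodyS n) hp hpq
        calc Mp q (Sn n) = ENNReal.ofReal 1 * Mp q (Sn n) := by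
              rw [ENNReal.ofReal_one, one_mul]
          _ < ENNReal.ofReal ((p / q) ^ n * (1 + κ)) * Mp q (Sn n) := by
              refine (ENNReal.mul_lt_mul_iff_left hCq0 hCqt).2 ?_
              rw [ENNReal.ofReal_lt_ofReal_iff (by positivity)]
              exact ha
          _ ≤ ENNReal.ofReal ((p / q) ^ n * (1 + κ)) * Mp p (Sn n) := by gcongr
          _ = ENNReal.ofReal ((p / q) ^ n) * (ENNReal.ofReal (1 + κ) * Mp p (Sn n)) := by
              rw [ENNReal.ofReal_mul (by positivity), mul_assoc]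
          _ ≤ ENNReal.ofReal ((p / q) ^ n) * infall p K := by gcongr
          _ ≤ Mp q K := h4
      · -- `q ≤ p`
        have h4 := MpS_scale (n := n) hq hqp'
        have h5 := Mp_anti hK hq hqp'
        calc Mp q (Sn n) = ENNReal.ofReal 1 * Mp q (Sn n) := by
              rw [ENNReal.ofReal_one, one_mul]
          _ < ENNReal.ofReal ((q / p) ^ n * (1 + κ)) * Mp q (Sn n) := by
              refine (ENNReal.mul_lt_mul_iff_left hCq0 hCqt).2 ?_
              rw [ENNReal.ofReal_lt_ofReal_iff (by positivity)]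
              exact hb
          _ = ENNReal.ofReal (1 + κ) * (ENNReal.ofReal ((q / p) ^ n) * Mp q (Sn n)) := by
              rw [mul_comm ((q / p) ^ n), ENNReal.ofReal_mul (by positivity), mul_assoc]
          _ ≤ ENNReal.ofReal (1 + κ) * Mp p (Sn n) := by gcongr
          _ ≤ infall p K := h3
          _ ≤ Mp p K := infall_le p K
          _ ≤ Mp q K := h5
    exact ⟨key.le, fun he => absurd he key.ne'⟩

/-- the inequality passes to limits of exponents -/
theorem weak_closed (hp : 0 < p) (h : ∀ ε : ℝ, 0 < ε → ∃ q : ℝ, 0 < q ∧ |q - p| < ε ∧ Weak n q) :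
    Weak n p := by
  intro K hK
  have hMt := MpS_top (n := n) hp
  have key : ∀ a : ℝ, 0 < a → a < 1 → ENNReal.ofReal (a ^ n) * Mp p (Sn n) ≤ Mp p K := by
    intro a ha ha1
    have h1 : ∀ᶠ q in 𝓝 p, a < p / q ∧ a < q / p := by
      have h2 : Tendsto (fun q : ℝ => p / q) (𝓝 p) (𝓝 (p / p)) := by
        have : ContinuousAt (fun q : ℝ => p / q) p :=
          continuousAt_const.div continuousAt_id hp.ne'
        exact this.tendsto
      have h3 : Tendsto (fun q : ℝ => q / p) (𝓝 p) (𝓝 (p / p)) := by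
        have : Continuous (fun q : ℝ => q / p) := by fun_prop
        exact this.tendsto p
      rw [div_self hp.ne'] at h2 h3
      exact (h2.eventually_const_lt ha1).and (h3.eventually_const_lt ha1)
    obtain ⟨ε, hε, h2⟩ := Metric.eventually_nhds_iff.1 h1
    obtain ⟨q, hq, hqp, hW⟩ := h ε hε
    obtain ⟨h3, h4⟩ := h2 (show dist q p < ε by rw [Real.dist_eq]; exact hqp)
    rcases le_total p q with hpq | hpq
    · calc ENNReal.ofReal (a ^ n) * Mp p (Sn n) ≤ ENNReal.ofReal ((p / q) ^ n) * Mp p (Sn n) := by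
            gcongr
        _ ≤ Mp q (Sn n) := MpS_scale hp hpq
        _ ≤ Mp q K := hW K hK
        _ ≤ Mp p K := Mp_anti hK hp hpq
    · calc ENNReal.ofReal (a ^ n) * Mp p (Sn n) ≤ ENNReal.ofReal ((q / p) ^ n) * Mp p (Sn n) := by
            gcongr
        _ ≤ ENNReal.ofReal ((q / p) ^ n) * Mp q (Sn n) := by
            gcongr
            exact Mp_anti (bodyS n) hq hpq
        _ ≤ ENNReal.ofReal ((q / p) ^ n) * infall q K := by
            gcongr
            exact hW.inf hK
        _ ≤ Mp p K := Mp_scale hK hq hpq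
  have h2 : Tendsto (fun a : ℝ => ENNReal.ofReal (a ^ n) * Mp p (Sn n)) (𝓝[<] 1)
      (𝓝 (ENNReal.ofReal (1 ^ n) * Mp p (Sn n))) := by
    refine ENNReal.Tendsto.mul_const ?_ (Or.inr hMt)
    apply ENNReal.tendsto_ofReal
    exact ((continuous_pow n).tendsto 1).mono_left nhdsWithin_le_nhds
  rw [one_pow, ENNReal.ofReal_one, one_mul] at h2
  refine le_of_tendsto h2 ?_
  have h3 : ∀ᶠ a in 𝓝[<] (1 : ℝ), 0 < a := by
    apply eventually_nhdsWithin_of_eventually_nhds
    exact eventually_gt_nhds one_pos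
  filter_upwards [self_mem_nhdsWithin, h3] with a ha ha0
  exact key a ha0 ha

/-- **the continuity method**: rigidity implies the conjecture -/
theorem continuity (m : ℕ)
    (hR : ∀ p : ℝ, 0 < p → (∀ q : ℝ, p < q → Good (m + 2) q) → Weak (m + 2) p → Good (m + 2) p) :
    ∀ p : ℝ, 0 < p → Good (m + 2) p := by
  intro p1 hp1
  by_contra hbad
  obtain ⟨p0, hp0, hlarge⟩ := Pool.Agent.TH649.LOC.all_final (m + 2) (by omega)
  set S : Set ℝ := {p | 0 < p ∧ ∀ q, p ≤ q → Good (m + 2) q} with hS
  have hne : S.Nonempty := by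
    refine ⟨p0, hp0, fun q hq K hK => ?_⟩
    have h := hlarge q hq K hK.cpt hK.conv hK.int
    refine ⟨h.1, fun he => ?_⟩
    by_contra hcon
    exact absurd he (h.2 fun Q hQ hKQ => hcon ⟨Q, hQ, hKQ⟩).ne'
  have hlb : ∀ p ∈ S, p1 ≤ p := by
    intro p hp
    by_contra hcon
    exact hbad (hp.2 p1 (not_le.1 hcon).le)
  have hbdd : BddBelow S := ⟨p1, hlb⟩
  set s := sInf S with hs
  have hs1 : p1 ≤ s := le_csInf hne hlb
  have hs0 : 0 < s := hp1.trans_le hs1
  have hgt : ∀ q : ℝ, s < q → Good (m + 2) q := by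
    intro q hq
    obtain ⟨p, hpS, hpq⟩ := exists_lt_of_csInf_lt hne hq
    exact hpS.2 q hpq.le
  have hW : Weak (m + 2) s := by
    apply weak_closed hs0
    intro ε hε
    refine ⟨s + ε / 2, by positivity, ?_, (hgt _ (by linarith)).weak⟩
    rw [add_sub_cancel_left, abs_of_pos (by positivity)]
    linarith
  have hG := hR s hs0 hgt hW
  obtain ⟨ε, hε, hop⟩ := good_open m hs0 hG
  set r := max (s - ε / 2) (s / 2) with hr
  have hr0 : 0 < r := lt_max_of_lt_right (by positivity)
  have hrs : r < s := max_lt (by linarith) (by linarith)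
  have hrε : s - ε / 2 ≤ r := le_max_left _ _
  have hrS : r ∈ S := by
    refine ⟨hr0, fun q hq => ?_⟩
    rcases lt_or_ge s q with h | h
    · exact hgt q h
    · apply hop q (hr0.trans_le hq)
      rw [abs_lt]
      constructor <;> linarith
  have := csInf_le hbdd hrS
  linarith

end Pool.Agent.N563.UL
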