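import Pool.Agent.N563.UL.U10

set_option autoImplicit false

/-!
The isotropic constant: continuity, gap, and the inequality for all small `p` (helper563).
-/

open MeasureTheory Set Filter
open scoped ENNReal Topology Matrix Pointwise

namespace Pool.Agent.N563.UL

open Pool.Agent.H131R5.LM Pool.Agent.H131R5.LC Pool.Agent.W679.B
open H801NS H801NS.TENS
open Pool.Agent.N563.SE (Body cen cov lin vr lap ff AK Mv LK LK_pos LK_sh sh body_sh infall
  part_lim vol_sh det_pos)

variable {n m : ℕ} {p q : ℝ} {K L : Set (Fin n → ℝ)}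

/-- convergence of bodies (up to dilation by factors close to one) -/
def Conv (L : ℕ → Set (Fin n → ℝ)) (K : Set (Fin n → ℝ)) : Prop :=
  ∀ t : ℝ, 1 < t → ∀ᶠ j in atTop, L j ⊆ t • K ∧ K ⊆ t • L j

lemma int_tendsto (hK : NB K) (L : ℕ → Set (Fin n → ℝ)) (hL : ∀ j, Body (L j)) (h : Conv L K)
    {f : (Fin n → ℝ) → ℝ} (hf : Continuous f) :
    Tendsto (fun j => ∫ x in L j, f x) atTop (𝓝 (∫ x in K, f x)) := by
  have hB := NB_body hK
  have h2K : IsCompact ((2 : ℝ) • K) := hK.comp.smul 2
  simp_rw [← integral_indicator (hL _).meas]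
  rw [← integral_indicator hB.meas]
  apply tendsto_integral_filter_of_dominated_convergence
    (fun x => ((2 : ℝ) • K).indicator (fun x => |f x|) x)
  · filter_upwards with j
    exact (hf.measurable.indicator (hL j).meas).aestronglyMeasurable
  · filter_upwards [h 2 (by norm_num)] with j hj
    filter_upwards with x
    rw [Real.norm_eq_abs]
    by_cases hx : x ∈ L j
    · rw [indicator_of_mem hx, indicator_of_mem (hj.1 hx)]
    · rw [indicator_of_notMem hx, abs_zero]
      exact indicator_nonneg (fun _ _ => abs_nonneg _) _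
  · rw [integrable_indicator_iff h2K.measurableSet]
    exact hf.abs.continuousOn.integrableOn_compact h2K
  · have hfr : volume (frontier K) = 0 := Convex.addHaar_frontier volume hK.conv
    have hae : ∀ᵐ x : Fin n → ℝ, x ∉ frontier K := by
      rw [ae_iff]
      simpa using hfr
    filter_upwards [hae] with x hx
    have hcl : IsClosed K := hK.comp.isClosed
    by_cases hxK : x ∈ K
    · have hxi : x ∈ interior K := by
        by_contra hcon
        exact hx ⟨subset_closure hxK, hcon⟩
      have hcont : Tendsto (fun t : ℝ => t • x) (𝓝[>] 1) (𝓝 ((1 : ℝ) • x)) := by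
        have : Continuous fun t : ℝ => t • x := by fun_prop
        exact (this.tendsto 1).mono_left nhdsWithin_le_nhds
      rw [one_smul] at hcont
      have h1 : ∀ᶠ t in 𝓝[>] (1 : ℝ), t • x ∈ interior K :=
        hcont.eventually (isOpen_interior.mem_nhds hxi)
      have h2 : ∀ᶠ t in 𝓝[>] (1 : ℝ), 1 < t := self_mem_nhdsWithin
      obtain ⟨t, ht1, ht2⟩ := (h1.and h2).exists
      rw [indicator_of_mem hxK]
      refine (tendsto_const_nhds (x := f x)).congr' ?_
      filter_upwards [h t ht2] with j hj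
      have h3 : t • x ∈ t • L j := hj.2 (interior_subset ht1)
      have ht0 : t ≠ 0 := by linarith
      rw [Set.smul_mem_smul_set_iff₀ ht0] at h3
      rw [indicator_of_mem h3]
    · have hcont : Tendsto (fun t : ℝ => t⁻¹ • x) (𝓝[>] 1) (𝓝 ((1 : ℝ)⁻¹ • x)) := by
        have h0 : ContinuousAt (fun t : ℝ => t⁻¹) 1 := continuousAt_inv₀ one_ne_zero
        exact (h0.smul continuousAt_const).tendsto.mono_left nhdsWithin_le_nhds
      rw [inv_one, one_smul] at hcont
      have h1 : ∀ᶠ t in 𝓝[>] (1 : ℝ), t⁻¹ • x ∈ Kᶜ :=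
        hcont.eventually (hcl.isOpen_compl.mem_nhds hxK)
      have h2 : ∀ᶠ t in 𝓝[>] (1 : ℝ), 1 < t := self_mem_nhdsWithin
      obtain ⟨t, ht1, ht2⟩ := (h1.and h2).exists
      rw [indicator_of_notMem hxK]
      refine (tendsto_const_nhds (x := (0 : ℝ))).congr' ?_
      filter_upwards [h t ht2] with j hj
      have ht0 : t ≠ 0 := by linarith
      rw [indicator_of_notMem]
      intro hxL
      have h3 := hj.1 hxL
      rw [Set.mem_smul_set_iff_inv_smul_mem₀ ht0] at h3
      exact ht1 h3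

lemma cov_exp (hK : Body K) (i k : Fin n) :
    cov K i k = (∫ x in K, x i * x k) / (volume K).toReal - cen K i * cen K k := by
  have hW := Pool.Agent.N563.SE.Wp hK
  have h1 : IntegrableOn (fun x : Fin n → ℝ => x i * x k) K := hK.int_on (by fun_prop)
  have h2 : IntegrableOn (fun x : Fin n → ℝ => cen K k * x i) K := hK.int_on (by fun_prop)
  have h3 : IntegrableOn (fun x : Fin n → ℝ => cen K i * x k) K := hK.int_on (by fun_prop)
  have h4 : IntegrableOn (fun _ : Fin n → ℝ => cen K i * cen K k) K :=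
    hK.int_on continuous_const
  have hi : ∫ x in K, x i = (volume K).toReal * cen K i := by
    unfold Pool.Agent.N563.SE.cen
    field_simp
  have hk : ∫ x in K, x k = (volume K).toReal * cen K k := by
    unfold Pool.Agent.N563.SE.cen
    field_simp
  have h5 : ∀ x : Fin n → ℝ, (x i - cen K i) * (x k - cen K k) =
      x i * x k - cen K k * x i - cen K i * x k + cen K i * cen K k := fun x => by ring
  have h6 : ∫ x in K, (x i - cen K i) * (x k - cen K k) =
      (∫ x in K, x i * x k) - (volume K).toReal * (cen K i * cen K k) := by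
    simp_rw [h5]
    have i1 : IntegrableOn (fun x : Fin n → ℝ => x i * x k - cen K k * x i) K := h1.sub h2
    have i2 : IntegrableOn (fun x : Fin n → ℝ => x i * x k - cen K k * x i - cen K i * x k) K :=
      i1.sub h3
    rw [integral_add i2 h4, integral_sub i1 h3, integral_sub h1 h2,
      integral_const_mul, integral_const_mul, hi, hk, setIntegral_const, smul_eq_mul]
    change _ + (volume K).toReal * _ = _
    ring
  unfold Pool.Agent.N563.SE.cov
  rw [Matrix.of_apply, h6]
  field_simp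

lemma LK_tendsto (hn : 1 ≤ n) (hK : NB K) (L : ℕ → Set (Fin n → ℝ)) (hL : ∀ j, Body (L j))
    (h : Conv L K) : Tendsto (fun j => LK (L j)) atTop (𝓝 (LK K)) := by
  have hB := NB_body hK
  have hW := Pool.Agent.N563.SE.Wp hB
  have hv1 : ∀ A : Set (Fin n → ℝ), ∫ _ in A, (1 : ℝ) = (volume A).toReal := by
    intro A
    rw [setIntegral_const, smul_eq_mul, mul_one]
    rfl
  have hvol : Tendsto (fun j => (volume (L j)).toReal) atTop (𝓝 (volume K).toReal) := by
    have := int_tendsto hK L hL h (f := fun _ => (1 : ℝ)) continuous_const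
    simpa only [hv1] using this
  have hcen : ∀ i, Tendsto (fun j => cen (L j) i) atTop (𝓝 (cen K i)) := by
    intro i
    exact (int_tendsto hK L hL h (f := fun x => x i) (by fun_prop)).div hvol hW.ne'
  have hcov : Tendsto (fun j => cov (L j)) atTop (𝓝 (cov K)) := by
    refine tendsto_pi_nhds.2 fun i => tendsto_pi_nhds.2 fun k => ?_
    rw [cov_exp hB]
    simp_rw [cov_exp (hL _)]
    exact ((int_tendsto hK L hL h (f := fun x => x i * x k) (by fun_prop)).div hvol hW.ne').sub
      ((hcen i).mul (hcen k))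
  have hdet : Tendsto (fun j => (cov (L j)).det) atTop (𝓝 (cov K).det) := by
    have hc : Continuous fun A : Matrix (Fin n) (Fin n) ℝ => A.det := continuous_id.matrix_det
    exact (hc.tendsto _).comp hcov
  have hsq : Tendsto (fun j => Real.sqrt (cov (L j)).det / (volume (L j)).toReal) atTop
      (𝓝 (Real.sqrt (cov K).det / (volume K).toReal)) := (hdet.sqrt).div hvol hW.ne'
  have hn0 : (0 : ℝ) < n := by exact_mod_cast hn
  exact hsq.rpow_const (Or.inr (by positivity))

/-- strong slicing with its case of equality -/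
def Slice (n : ℕ) : Prop := ∀ K : Set (Fin n → ℝ), Body K →
  LK K ≤ LK (Sn n) ∧ (LK K = LK (Sn n) → Hull K)

/-- **the gap for the isotropic constant** -/
theorem gapLK (hn : 1 ≤ n) (hs : Slice n) {δ : ℝ} (hδ : 0 < δ) :
    ∃ κ : ℝ, 0 < κ ∧ ∀ K : Set (Fin n → ℝ), Body K → ¬ Near δ K →
      (1 + κ) * LK K ≤ LK (Sn n) := by
  obtain ⟨m, rfl⟩ : ∃ m, n = m + 1 := ⟨n - 1, by omega⟩
  set N : ℕ := m + 1 with hN
  have hNpos : (0 : ℝ) < N := by rw [hN]; positivity
  by_contra hcon
  push Not at hcon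
  have hex : ∀ j : ℕ, ∃ K : Set (Fin N → ℝ), Body K ∧ ¬ Near δ K ∧
      LK (Sn N) < (1 + 1 / ((j : ℝ) + 1)) * LK K := fun j =>
    hcon (1 / ((j : ℝ) + 1)) (by positivity)
  choose K hK hno hlt using hex
  have hD := LK_pos (bodyS N)
  have hpi := Real.pi_pos
  set p : ℝ := 1 / (N : ℝ) ^ 2 with hp
  have hp0 : 0 < p := by positivity
  have hpn : p * (N : ℝ) ^ 2 ≤ N + 2 := by
    rw [hp, one_div, inv_mul_cancel₀ (by positivity)]
    linarith
  have hhalf : ∀ j, LK (Sn N) / 2 ≤ LK (K j) := by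
    intro j
    have h1 : 1 / ((j : ℝ) + 1) ≤ 1 := by
      rw [div_le_one (by positivity)]
      have : (0 : ℝ) ≤ j := Nat.cast_nonneg j
      linarith
    have h2 := LK_pos (hK j)
    have h3 := (hlt j).le
    nlinarith
  have hV : ∀ j, Mp p (sh (cen (K j)) (K j)) ≤ ENNReal.ofReal ((Real.sqrt (2 * Real.pi / p) *
      Real.exp (5 / 8 * Real.sqrt (p * (N + 2))) / (LK (Sn N) / 2)) ^ N) := by
    intro j
    refine (Pool.Agent.N563.SE.upL hn (hK j) hp0 hpn).trans (ENNReal.ofReal_le_ofReal ?_)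
    have := hhalf j
    have h2 := LK_pos (hK j)
    gcongr
  obtain ⟨e, φ, K0, hφ, hK0, hsel⟩ := compact (fun j => sh (cen (K j)) (K j))
    (fun j => body_sh (hK j) (cen (K j))) hp0 hV
  have hB0 := NB_body hK0
  have hBL : ∀ j, Body (e (φ j) '' sh (cen (K (φ j))) (K (φ j))) := fun j =>
    body_img (body_sh (hK (φ j)) _) (e (φ j))
  have hlim := LK_tendsto hn hK0 (fun j => e (φ j) '' sh (cen (K (φ j))) (K (φ j))) hBL hsel
  have hLKe : ∀ j, LK (e (φ j) '' sh (cen (K (φ j))) (K (φ j))) = LK (K (φ j)) := by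
    intro j
    rw [LK_img hn (body_sh (hK (φ j)) _), LK_sh (hK (φ j))]
  simp only [hLKe] at hlim
  have hge : LK (Sn N) ≤ LK K0 := by
    have h3 : Tendsto (fun j => 1 / (((φ j : ℕ) : ℝ) + 1)) atTop (𝓝 0) :=
      tendsto_one_div_add_atTop_nhds_zero_nat.comp hφ.tendsto_atTop
    have h4 : Tendsto (fun j => (1 + 1 / (((φ j : ℕ) : ℝ) + 1)) * LK (K (φ j))) atTop
        (𝓝 ((1 + 0) * LK K0)) := (h3.const_add 1).mul hlim
    rw [add_zero, one_mul] at h4
    exact ge_of_tendsto h4 (Eventually.of_forall fun j => (hlt (φ j)).le)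
  have hH : Hull K0 := (hs K0 hB0).2 (le_antisymm (hs K0 hB0).1 hge)
  obtain ⟨t, ht, htt⟩ := good_t hδ N
  obtain ⟨j, hj1, hj2⟩ := (hsel t ht).exists
  exact hno (φ j) (near_of_limit (e (φ j)) (cen (K (φ j))) hH ht htt hj1 hj2)

/-- **small exponents**: strong slicing with its case of equality implies the inequality of Q1,
with its case of equality, for all small exponents -/
theorem small_good (m : ℕ) (hs : Slice (m + 2)) :
    ∃ p1 : ℝ, 0 < p1 ∧ ∀ p : ℝ, 0 < p → p < p1 → Good (m + 2) p := by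
  obtain ⟨δ, hδ, hloc⟩ := local_all m
  obtain ⟨κ, hκ, hgap⟩ := gapLK (by omega) hs hδ
  obtain ⟨p1, hp1, h1⟩ := Pool.Agent.N563.SE.rho_ev (m + 2) (a := 1 + κ) (by linarith)
  refine ⟨p1, hp1, fun p hp hpp K hK => ?_⟩
  by_cases hN : Near δ K
  · exact hloc p hp K hK hN
  · obtain ⟨h2, h3⟩ := h1 p hp hpp
    have hL := LK_pos hK
    have h4 : Pool.Agent.N563.SE.rho (m + 2) p * LK K < LK (Sn (m + 2)) := by
      refine lt_of_lt_of_le ?_ (hgap K hK hN)
      exact mul_lt_mul_of_pos_right h2 hL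
    have h5 : Mp p (Sn (m + 2)) < Mp p K := by
      have h6 := Pool.Agent.N563.SE.lt2 (by omega) (bodyS (m + 2)) hK hp h3 h4
      refine lt_of_le_of_lt ?_ h6
      exact (le_of_eq (infall_Sn hp).symm).trans (iInf_le _ _)
    exact ⟨h5.le, fun he => absurd he h5.ne'⟩

/-- the isotropic constant near simplices -/
theorem local_LK (m : ℕ) : ∃ δ : ℝ, 0 < δ ∧ ∀ K : Set (Fin (m + 2) → ℝ), Body K → Near δ K →
    LK K ≤ LK (Sn (m + 2)) ∧ (LK K = LK (Sn (m + 2)) → Hull K) := by
  obtain ⟨δ, η, hδ, hη, hgain⟩ := local_gain m one_pos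
  refine ⟨δ, hδ, fun K hK hN => ?_⟩
  obtain ⟨Q, hQ, hKQ, hvol⟩ := hN
  obtain ⟨T, hT, hKT, hfull, -, hI⟩ := hgain K hK.cpt hK.conv hK.int Q hQ hKQ hvol
  set C := convexHull ℝ (T : Set (Fin (m + 2) → ℝ)) with hC
  have hCt : volume C ≠ ⊤ :=
    ((T.finite_toSet.isCompact_convexHull (𝕜 := ℝ)).measure_lt_top).ne
  have hvKC : (volume K).toReal ≤ (volume C).toReal :=
    ENNReal.toReal_mono hCt (measure_mono hKT)
  have hW := Pool.Agent.N563.SE.Wp hK
  have hC0 : 0 < (volume C).toReal := hW.trans_le hvKC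
  have h3 : 0 ≤ 1 - (volume K).toReal / (volume C).toReal := by
    rw [sub_nonneg, div_le_one hC0]
    exact hvKC
  have hL := LK_pos hK
  have hL' := LK_pos (bodyS (m + 2))
  have h4 : 0 ≤ η * (1 - (volume K).toReal / (volume C).toReal) := by positivity
  have hpw : 0 < LK K ^ (m + 2) := by positivity
  have h5 : LK K ^ (m + 2) ≤ LK (Sn (m + 2)) ^ (m + 2) := by
    refine le_trans ?_ hI
    nlinarith
  refine ⟨(pow_le_pow_iff_left₀ hL.le hL'.le (by omega)).1 h5, fun he => ⟨T, hT, hfull ?_⟩⟩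
  by_contra hne
  have h6 : (volume K).toReal < (volume C).toReal := lt_of_le_of_ne hvKC hne
  have h7 : 0 < η * (1 - (volume K).toReal / (volume C).toReal) := by
    apply mul_pos hη
    rw [sub_pos, div_lt_one hC0]
    exact h6
  rw [he] at hI hpw
  nlinarith

end Pool.Agent.N563.UL
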