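import Pool.Agent.N563.UL.U11

set_option autoImplicit false

/-!
The deviation from simplices, linear stability (helper563).
-/

open MeasureTheory Set Filter
open scoped ENNReal Topology Matrix Pointwise

namespace Pool.Agent.N563.UL

open Pool.Agent.H131R5.LM Pool.Agent.H131R5.LC Pool.Agent.W679.B
open H801NS H801NS.TENS
open Pool.Agent.N563.SE (Body cen cov lin vr lap ff AK Mv LK LK_pos LK_sh sh body_sh infall
  part_lim vol_sh det_pos)

variable {n m : ℕ} {p q : ℝ} {K L : Set (Fin n → ℝ)}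

lemma hull_fin (Q : Finset (Fin n → ℝ)) : volume (convexHull ℝ (Q : Set (Fin n → ℝ))) ≠ ⊤ :=
  ((Q.finite_toSet.isCompact_convexHull (𝕜 := ℝ)).measure_lt_top).ne

lemma vol_aff (M : (Fin n → ℝ) ≃ₗ[ℝ] (Fin n → ℝ)) (x0 : Fin n → ℝ) (A : Set (Fin n → ℝ)) :
    volume ((fun c => x0 + M c) '' A) =
      ENNReal.ofReal |LinearMap.det (M : (Fin n → ℝ) →ₗ[ℝ] (Fin n → ℝ))| * volume A := by
  have h1 : (fun c => x0 + M c) '' A = (fun x => x - -x0) '' (M '' A) := by
    rw [image_image]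
    refine image_congr fun x _ => ?_
    rw [sub_neg_eq_add, add_comm]
  rw [h1, vol_sub, Pool.Agent.TH111.LOC_GAP.vol_image]

lemma vol_aff_S (M : (Fin n → ℝ) ≃ₗ[ℝ] (Fin n → ℝ)) (x0 : Fin n → ℝ) :
    (volume ((fun c => x0 + M c) '' Sn n)).toReal =
      |LinearMap.det (M : (Fin n → ℝ) →ₗ[ℝ] (Fin n → ℝ))| * VS n := by
  rw [vol_aff, ENNReal.toReal_mul, ENNReal.toReal_ofReal (abs_nonneg _)]
  rfl

lemma det_symm_mul (M : (Fin n → ℝ) ≃ₗ[ℝ] (Fin n → ℝ)) :
    |LinearMap.det (M : (Fin n → ℝ) →ₗ[ℝ] (Fin n → ℝ))| *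
      |LinearMap.det (M.symm : (Fin n → ℝ) →ₗ[ℝ] (Fin n → ℝ))| = 1 := by
  rw [← abs_mul, LinearEquiv.det_mul_det_symm, abs_one]

lemma det_abs_pos (M : (Fin n → ℝ) ≃ₗ[ℝ] (Fin n → ℝ)) :
    0 < |LinearMap.det (M : (Fin n → ℝ) →ₗ[ℝ] (Fin n → ℝ))| :=
  abs_pos.2 (LinearEquiv.isUnit_det' M).ne_zero

/-- a simplex of smallest volume containing a body -/
theorem min_simplex (hK : Body K) : ∃ T : Finset (Fin n → ℝ), T.card ≤ n + 1 ∧
    K ⊆ convexHull ℝ (T : Set (Fin n → ℝ)) ∧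
    ∀ Q : Finset (Fin n → ℝ), Q.card ≤ n + 1 → K ⊆ convexHull ℝ (Q : Set (Fin n → ℝ)) →
      (volume (convexHull ℝ (T : Set (Fin n → ℝ)))).toReal ≤
        (volume (convexHull ℝ (Q : Set (Fin n → ℝ)))).toReal := by
  obtain ⟨A, b, hA1, hA2⟩ := exists_extremal hK.int
  obtain ⟨ρ, hρ, hball⟩ := Metric.mem_nhds_iff.1
    (mem_interior_iff_mem_nhds.1 (NB_Sn (n := n)).zero)
  obtain ⟨D, hD⟩ := hK.cpt.isBounded.exists_norm_le
  set t : ℝ := ρ / (2 * (|D| + 1)) with ht
  have ht0 : 0 < t := by positivity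
  have hin : ∀ x ∈ K, (t • ContinuousLinearMap.id ℝ (Fin n → ℝ)) x + 0 ∈ Sn n := by
    intro x hx
    apply hball
    rw [add_zero, smul_apply, ContinuousLinearMap.id_apply,
      mem_ball_zero_iff, norm_smul, Real.norm_of_nonneg ht0.le]
    have h1 : ‖x‖ ≤ |D| + 1 := (hD x hx).trans ((le_abs_self D).trans (by linarith))
    calc t * ‖x‖ ≤ t * (|D| + 1) := mul_le_mul_of_nonneg_left h1 ht0.le
      _ = ρ / 2 := by rw [ht]; field_simp
      _ < ρ := by linarith
  have hdet0 : 0 < |A.det| := by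
    have h1 := hA2 _ 0 hin
    have h2 : (t • ContinuousLinearMap.id ℝ (Fin n → ℝ)).det = t ^ n := by
      change LinearMap.det (t • LinearMap.id) = _
      rw [LinearMap.det_smul, LinearMap.det_id, mul_one, Module.finrank_fintype_fun_eq_card,
        Fintype.card_fin]
    rw [h2, abs_of_pos (by positivity)] at h1
    exact lt_of_lt_of_le (by positivity) h1
  set Al : (Fin n → ℝ) →ₗ[ℝ] (Fin n → ℝ) := A.toLinearMap with hAl
  have hAldet : LinearMap.det Al = A.det := rfl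
  have hAne : LinearMap.det Al ≠ 0 := by rw [hAldet]; exact abs_pos.1 hdet0
  set e : (Fin n → ℝ) ≃ₗ[ℝ] (Fin n → ℝ) := LinearMap.equivOfDetNeZero Al hAne with he
  have hecoe : (e : (Fin n → ℝ) →ₗ[ℝ] (Fin n → ℝ)) = Al := by
    ext x : 1
    rfl
  have heapp : ∀ x, e x = A x := fun x => rfl
  obtain ⟨T, hT, hTe⟩ := simplex_hull e.symm (-(e.symm b))
  refine ⟨T, hT, ?_, ?_⟩
  · intro x hx
    rw [← hTe]
    refine ⟨A x + b, hA1 x hx, ?_⟩
    simp only
    rw [map_add, ← heapp, e.symm_apply_apply]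
    abel
  · intro Q hQ hKQ
    have hQi : (interior (convexHull ℝ (Q : Set (Fin n → ℝ)))).Nonempty :=
      hK.int.mono (interior_mono hKQ)
    obtain ⟨M, x0, hM⟩ := simplex_param Q hQ hQi
    rw [← hTe, hM, vol_aff_S, vol_aff_S]
    have hV := VS_pos n
    apply mul_le_mul_of_nonneg_right _ hV.le
    set Ml : (Fin n → ℝ) →L[ℝ] (Fin n → ℝ) :=
      LinearMap.toContinuousLinearMap (M.symm : (Fin n → ℝ) →ₗ[ℝ] (Fin n → ℝ)) with hMl
    have hMin : ∀ x ∈ K, Ml x + -(M.symm x0) ∈ Sn n := by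
      intro x hx
      have h1 := hKQ hx
      rw [hM] at h1
      obtain ⟨c, hc, rfl⟩ := h1
      have h2 : Ml (x0 + M c) + -(M.symm x0) = c := by
        change M.symm (x0 + M c) + -(M.symm x0) = c
        rw [map_add, M.symm_apply_apply]; abel
      simp only
      rw [h2]
      exact hc
    have h1 := hA2 Ml _ hMin
    have h2 : Ml.det = LinearMap.det (M.symm : (Fin n → ℝ) →ₗ[ℝ] (Fin n → ℝ)) := rfl
    rw [h2, ← hAldet, ← hecoe] at h1
    have h3 := det_symm_mul M
    have h4 := det_symm_mul e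
    have h5 := det_abs_pos M
    have h6 := det_abs_pos e.symm
    calc |LinearMap.det (e.symm : (Fin n → ℝ) →ₗ[ℝ] (Fin n → ℝ))|
        = (|LinearMap.det (M : (Fin n → ℝ) →ₗ[ℝ] (Fin n → ℝ))| *
          |LinearMap.det (M.symm : (Fin n → ℝ) →ₗ[ℝ] (Fin n → ℝ))|) *
          |LinearMap.det (e.symm : (Fin n → ℝ) →ₗ[ℝ] (Fin n → ℝ))| := by rw [h3, one_mul]
      _ ≤ (|LinearMap.det (M : (Fin n → ℝ) →ₗ[ℝ] (Fin n → ℝ))| *
          |LinearMap.det (e : (Fin n → ℝ) →ₗ[ℝ] (Fin n → ℝ))|) *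
          |LinearMap.det (e.symm : (Fin n → ℝ) →ₗ[ℝ] (Fin n → ℝ))| := by
          gcongr
      _ = |LinearMap.det (M : (Fin n → ℝ) →ₗ[ℝ] (Fin n → ℝ))| := by
          rw [mul_assoc, h4, mul_one]

/-- a body of full volume in a simplex -/
lemma full_hull (hK : Body K) {T : Finset (Fin n → ℝ)} (hT : T.card ≤ n + 1)
    (hKT : K ⊆ convexHull ℝ (T : Set (Fin n → ℝ)))
    (hv : (volume (convexHull ℝ (T : Set (Fin n → ℝ)))).toReal ≤ (volume K).toReal) :
    K = convexHull ℝ (T : Set (Fin n → ℝ)) := by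
  have hTi : (interior (convexHull ℝ (T : Set (Fin n → ℝ)))).Nonempty :=
    hK.int.mono (interior_mono hKT)
  obtain ⟨M, x0, hM⟩ := simplex_param T hT hTi
  have hW := Pool.Agent.N563.SE.Wp hK
  set K' : Set (Fin n → ℝ) := M.symm '' (sh x0 K) with hK'
  have hB' : Body K' := body_img (body_sh hK x0) M.symm
  have hK'S : K' ⊆ Sn n := by
    rintro _ ⟨_, ⟨x, hx, rfl⟩, rfl⟩
    have h1 := hKT hx
    rw [hM] at h1
    obtain ⟨c, hc, rfl⟩ := h1
    simp only
    rw [add_sub_cancel_left, M.symm_apply_apply]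
    exact hc
  have hvK' : (volume K').toReal =
      |LinearMap.det (M.symm : (Fin n → ℝ) →ₗ[ℝ] (Fin n → ℝ))| * (volume K).toReal := by
    rw [hK', Pool.Agent.TH111.LOC_GAP.vol_image, vol_sh, ENNReal.toReal_mul,
      ENNReal.toReal_ofReal (abs_nonneg _)]
  rw [hM, vol_aff_S] at hv
  have h3 := det_symm_mul M
  have h5 := det_abs_pos M.symm
  have h6 : VS n ≤ (volume K').toReal := by
    rw [hvK']
    calc VS n = |LinearMap.det (M.symm : (Fin n → ℝ) →ₗ[ℝ] (Fin n → ℝ))| *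
          (|LinearMap.det (M : (Fin n → ℝ) →ₗ[ℝ] (Fin n → ℝ))| * VS n) := by
          rw [← mul_assoc, mul_comm |LinearMap.det (M.symm : (Fin n → ℝ) →ₗ[ℝ] (Fin n → ℝ))|, h3,
            one_mul]
      _ ≤ _ := mul_le_mul_of_nonneg_left hv h5.le
  have hdiff : (volume (Sn n \ K')).toReal ≤ 0 := by
    have h1 : (volume (Sn n \ K')).toReal = VS n - (volume K').toReal :=
      measureReal_sdiff (μ := volume) hK'S hB'.meas
        (NB_Sn (n := n)).comp.measure_lt_top.ne
    rw [h1]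
    linarith
  have hfull := full_vol hB'.cpt.isClosed hK'S hdiff
  rw [hM, ← hfull, hK']
  unfold Pool.Agent.N563.SE.sh
  rw [image_image, image_image]
  ext y
  constructor
  · intro hy
    refine ⟨y, hy, ?_⟩
    simp only
    rw [M.apply_symm_apply]
    abel
  · rintro ⟨x, hx, rfl⟩
    simp only
    rw [M.apply_symm_apply]
    have : x0 + (x - x0) = x := by abel
    rw [this]
    exact hx

/-- the smallest volume of a simplex containing `K` -/
noncomputable def sv (K : Set (Fin n → ℝ)) : ℝ :=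
  sInf {v | ∃ Q : Finset (Fin n → ℝ), Q.card ≤ n + 1 ∧ K ⊆ convexHull ℝ (Q : Set (Fin n → ℝ)) ∧
    v = (volume (convexHull ℝ (Q : Set (Fin n → ℝ)))).toReal}

/-- the deviation of `K` from simplices -/
noncomputable def dev (K : Set (Fin n → ℝ)) : ℝ := 1 - (volume K).toReal / sv K

lemma sv_eq (hK : Body K) : ∃ T : Finset (Fin n → ℝ), T.card ≤ n + 1 ∧
    K ⊆ convexHull ℝ (T : Set (Fin n → ℝ)) ∧
    sv K = (volume (convexHull ℝ (T : Set (Fin n → ℝ)))).toReal := by
  obtain ⟨T, hT, hKT, hmin⟩ := min_simplex hK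
  refine ⟨T, hT, hKT, ?_⟩
  apply IsLeast.csInf_eq
  refine ⟨⟨T, hT, hKT, rfl⟩, ?_⟩
  rintro v ⟨Q, hQ, hKQ, rfl⟩
  exact hmin Q hQ hKQ

lemma sv_le {Q : Finset (Fin n → ℝ)} (hQ : Q.card ≤ n + 1)
    (hKQ : K ⊆ convexHull ℝ (Q : Set (Fin n → ℝ))) :
    sv K ≤ (volume (convexHull ℝ (Q : Set (Fin n → ℝ)))).toReal := by
  apply csInf_le
  · refine ⟨0, ?_⟩
    rintro v ⟨Q, _, _, rfl⟩
    exact ENNReal.toReal_nonneg
  · exact ⟨Q, hQ, hKQ, rfl⟩

lemma vol_le_sv (hK : Body K) : (volume K).toReal ≤ sv K := by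
  obtain ⟨T, hT, hKT, he⟩ := sv_eq hK
  rw [he]
  exact ENNReal.toReal_mono (hull_fin T) (measure_mono hKT)

lemma sv_pos (hK : Body K) : 0 < sv K := (Pool.Agent.N563.SE.Wp hK).trans_le (vol_le_sv hK)

lemma dev_nonneg (hK : Body K) : 0 ≤ dev K := by
  unfold dev
  rw [sub_nonneg, div_le_one (sv_pos hK)]
  exact vol_le_sv hK

lemma dev_lt_one (hK : Body K) : dev K < 1 := by
  unfold dev
  have := div_pos (Pool.Agent.N563.SE.Wp hK) (sv_pos hK)
  linarith

lemma dev_le (hK : Body K) {Q : Finset (Fin n → ℝ)} (hQ : Q.card ≤ n + 1)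
    (hKQ : K ⊆ convexHull ℝ (Q : Set (Fin n → ℝ))) :
    dev K ≤ 1 - (volume K).toReal / (volume (convexHull ℝ (Q : Set (Fin n → ℝ)))).toReal := by
  unfold dev
  have := div_le_div_of_nonneg_left (Pool.Agent.N563.SE.Wp hK).le (sv_pos hK) (sv_le hQ hKQ)
  linarith

/-- the deviation vanishes exactly for simplices -/
theorem dev_zero (hK : Body K) : dev K = 0 ↔ Hull K := by
  constructor
  · intro h
    obtain ⟨T, hT, hKT, he⟩ := sv_eq hK
    refine ⟨T, hT, full_hull hK hT hKT ?_⟩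
    rw [← he]
    unfold dev at h
    have h1 : (volume K).toReal / sv K = 1 := by linarith
    rw [div_eq_one_iff_eq (sv_pos hK).ne'] at h1
    exact h1.ge
  · rintro ⟨Q, hQ, hKQ⟩
    apply le_antisymm _ (dev_nonneg hK)
    have h := dev_le hK hQ hKQ.subset
    rw [← hKQ, div_self (Pool.Agent.N563.SE.Wp hK).ne', sub_self] at h
    exact h

lemma near_of_dev (hK : Body K) {δ : ℝ} (hδ : 0 < δ) (h : dev K ≤ δ / (1 + δ)) : Near δ K := by
  obtain ⟨T, hT, hKT, he⟩ := sv_eq hK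
  refine ⟨T, hT, hKT, ?_⟩
  have hs := sv_pos hK
  unfold dev at h
  have h1 : 1 / (1 + δ) ≤ (volume K).toReal / sv K := by
    have : 1 - δ / (1 + δ) = 1 / (1 + δ) := by field_simp; ring
    linarith
  rw [div_le_div_iff₀ (by positivity) hs, one_mul] at h1
  rw [← ENNReal.ofReal_toReal (hull_fin T), ← he, Pool.Agent.N563.SE.vol_ofReal hK,
    ← ENNReal.ofReal_mul (by positivity)]
  apply ENNReal.ofReal_le_ofReal
  linarith

lemma sh_sh (z : Fin n → ℝ) (K : Set (Fin n → ℝ)) : sh (-z) (sh z K) = K := by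
  unfold Pool.Agent.N563.SE.sh
  rw [image_image]
  simp

lemma sv_sh_le (hK : Body K) (z : Fin n → ℝ) : sv (sh z K) ≤ sv K := by
  classical
  obtain ⟨T, hT, hKT, he⟩ := sv_eq hK
  set f : (Fin n → ℝ) →ᵃ[ℝ] (Fin n → ℝ) :=
    (LinearMap.id : (Fin n → ℝ) →ₗ[ℝ] (Fin n → ℝ)).toAffineMap +
      AffineMap.const ℝ (Fin n → ℝ) (-z) with hf
  have hfa : ∀ x, f x = x - z := fun x => by
    change x + -z = x - z
    abel
  have hfi : ∀ A : Set (Fin n → ℝ), f '' A = sh z A := fun A => by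
    unfold Pool.Agent.N563.SE.sh
    exact image_congr fun x _ => hfa x
  have hhull : convexHull ℝ ((T.image f : Finset (Fin n → ℝ)) : Set (Fin n → ℝ)) =
      sh z (convexHull ℝ (T : Set (Fin n → ℝ))) := by
    rw [Finset.coe_image, ← AffineMap.image_convexHull, hfi]
  have h1 : sh z K ⊆ convexHull ℝ ((T.image f : Finset (Fin n → ℝ)) : Set (Fin n → ℝ)) := by
    rw [hhull]
    exact image_mono hKT
  have h2 := sv_le (Finset.card_image_le.trans hT) h1
  rw [hhull, vol_sh, ← he] at h2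
  exact h2

lemma dev_sh (hK : Body K) (z : Fin n → ℝ) : dev (sh z K) = dev K := by
  have h1 := sv_sh_le hK z
  have h2 := sv_sh_le (body_sh hK z) (-z)
  rw [sh_sh] at h2
  unfold dev
  rw [vol_sh, le_antisymm h1 h2]

/-- linear stability for the exponent `p` -/
def Stab (n : ℕ) (c p : ℝ) : Prop := ∀ K : Set (Fin n → ℝ), Body K →
  ENNReal.ofReal (1 + c * dev K) * Mp p (Sn n) ≤ Mp p K

lemma one_le_fac {c : ℝ} (hc : 0 < c) (hK : Body K) : 1 ≤ 1 + c * dev K := by
  have := mul_nonneg hc.le (dev_nonneg hK)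
  linarith

lemma stab_eq {c : ℝ} (hc : 0 < c) (hp : 0 < p) (hK : Body K)
    (h : ENNReal.ofReal (1 + c * dev K) * Mp p (Sn n) ≤ Mp p K) :
    Mp p (Sn n) ≤ Mp p K ∧ (Mp p K = Mp p (Sn n) → Hull K) := by
  have h1 := one_le_fac hc hK
  constructor
  · refine le_trans ?_ h
    calc Mp p (Sn n) = ENNReal.ofReal 1 * Mp p (Sn n) := by
          rw [ENNReal.ofReal_one, one_mul]
      _ ≤ _ := by gcongr
  · intro he
    rw [← dev_zero hK]
    by_contra hne
    have h2 : 0 < dev K := lt_of_le_of_ne (dev_nonneg hK) (Ne.symm hne)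
    have h3 : 0 < c * dev K := mul_pos hc h2
    rw [he] at h
    have h7 : Mp p (Sn n) < ENNReal.ofReal (1 + c * dev K) * Mp p (Sn n) := by
      nth_rewrite 1 [← one_mul (Mp p (Sn n))]
      rw [← ENNReal.ofReal_one]
      refine (ENNReal.mul_lt_mul_iff_left (MpS_pos hp) (MpS_top hp)).2 ?_
      rw [ENNReal.ofReal_lt_ofReal_iff (by linarith)]
      linarith
    exact absurd h (not_le.2 h7)

lemma Stab.good {c : ℝ} (hc : 0 < c) (hp : 0 < p) (h : Stab n c p) : Good n p :=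
  fun K hK => stab_eq hc hp hK (h K hK)

/-- **linear stability near simplices, uniformly in `p ∈ (0, P]`, and in the limit `p → 0`** -/
theorem stab_near (m : ℕ) {P : ℝ} (hP : 0 < P) : ∃ δ c : ℝ, 0 < δ ∧ 0 < c ∧
    ∀ K : Set (Fin (m + 2) → ℝ), Body K → Near δ K →
      (∀ p : ℝ, 0 < p → p ≤ P →
        ENNReal.ofReal (1 + c * dev K) * Mp p (Sn (m + 2)) ≤ Mp p K) ∧
      (1 + c * dev K) * LK K ^ (m + 2) ≤ LK (Sn (m + 2)) ^ (m + 2) := by
  obtain ⟨δ, η, hδ, hη, hgain⟩ := local_gain m hP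
  refine ⟨δ, η, hδ, hη, fun K hK hN => ?_⟩
  obtain ⟨Q, hQ, hKQ, hvol⟩ := hN
  obtain ⟨T, hT, hKT, -, hMp, hI⟩ := hgain K hK.cpt hK.conv hK.int Q hQ hKQ hvol
  have h1 := dev_le hK hT hKT
  have h2 := mul_le_mul_of_nonneg_left h1 hη.le
  have hL := LK_pos hK
  refine ⟨fun p hp hpP => le_trans ?_ (hMp p hp hpP), le_trans ?_ hI⟩
  · gcongr
  · apply mul_le_mul_of_nonneg_right _ (by positivity)
    linarith

/-- **stability at good exponents, locally uniformly** -/
theorem stab_good (m : ℕ) (hp : 0 < p) (hg : Good (m + 2) p) :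
    ∃ ε c : ℝ, 0 < ε ∧ 0 < c ∧ ∀ q : ℝ, 0 < q → |q - p| < ε → Stab (m + 2) c q := by
  obtain ⟨δ, c1, hδ, hc1, hloc⟩ := stab_near m (show 0 < p + 1 by linarith)
  obtain ⟨κ, hκ, hgap⟩ := gapM (by omega) hp hg hδ
  set n : ℕ := m + 2 with hn
  have h1 : ∀ᶠ q in 𝓝 p, 1 + κ / 2 < (p / q) ^ n * (1 + κ) ∧
      1 + κ / 2 < (q / p) ^ n * (1 + κ) := by
    have h2 : Tendsto (fun q : ℝ => (p / q) ^ n * (1 + κ)) (𝓝 p) (𝓝 ((p / p) ^ n * (1 + κ))) := by
      have : ContinuousAt (fun q : ℝ => (p / q) ^ n * (1 + κ)) p := by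
        have : ContinuousAt (fun q : ℝ => p / q) p := by
          exact continuousAt_const.div continuousAt_id hp.ne'
        exact (this.pow n).mul continuousAt_const
      exact this.tendsto
    have h3 : Tendsto (fun q : ℝ => (q / p) ^ n * (1 + κ)) (𝓝 p) (𝓝 ((p / p) ^ n * (1 + κ))) := by
      have : Continuous (fun q : ℝ => (q / p) ^ n * (1 + κ)) := by fun_prop
      exact this.tendsto p
    rw [div_self hp.ne', one_pow, one_mul] at h2 h3
    exact (h2.eventually_const_lt (by linarith)).and (h3.eventually_const_lt (by linarith))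
  obtain ⟨ε, hε, h2⟩ := Metric.eventually_nhds_iff.1 h1
  refine ⟨min ε 1, min c1 (κ / 2), lt_min hε one_pos, lt_min hc1 (by positivity),
    fun q hq hqp K hK => ?_⟩
  have hd0 := dev_nonneg hK
  have hd1 := dev_lt_one hK
  by_cases hN : Near δ K
  · have hqP : q ≤ p + 1 := by
      have := (abs_lt.1 (hqp.trans_le (min_le_right _ _))).2
      linarith
    refine le_trans ?_ ((hloc K hK hN).1 q hq hqP)
    gcongr
    exact min_le_left _ _
  · obtain ⟨ha, hb⟩ := h2 (show dist q p < ε by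
      rw [Real.dist_eq]; exact hqp.trans_le (min_le_left _ _))
    have h3 := hgap K hK hN
    have hfac : 1 + min c1 (κ / 2) * dev K ≤ 1 + κ / 2 := by
      have h4 : min c1 (κ / 2) * dev K ≤ κ / 2 * 1 :=
        mul_le_mul (min_le_right _ _) hd1.le hd0 (by positivity)
      linarith
    rcases le_total p q with hpq | hqp'
    · have h4 := Mp_scale hK hp hpq
      have h5 := Mp_anti (bodyS n) hp hpq
      calc ENNReal.ofReal (1 + min c1 (κ / 2) * dev K) * Mp q (Sn n)
          ≤ ENNReal.ofReal ((p / q) ^ n * (1 + κ)) * Mp q (Sn n) := by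
            gcongr
            linarith
        _ ≤ ENNReal.ofReal ((p / q) ^ n * (1 + κ)) * Mp p (Sn n) := by gcongr
        _ = ENNReal.ofReal ((p / q) ^ n) * (ENNReal.ofReal (1 + κ) * Mp p (Sn n)) := by
            rw [ENNReal.ofReal_mul (by positivity), mul_assoc]
        _ ≤ ENNReal.ofReal ((p / q) ^ n) * infall p K := by gcongr
        _ ≤ Mp q K := h4
    · have h4 := MpS_scale (n := n) hq hqp'
      have h5 := Mp_anti hK hq hqp'
      calc ENNReal.ofReal (1 + min c1 (κ / 2) * dev K) * Mp q (Sn n)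
          ≤ ENNReal.ofReal ((q / p) ^ n * (1 + κ)) * Mp q (Sn n) := by
            gcongr
            linarith
        _ = ENNReal.ofReal (1 + κ) * (ENNReal.ofReal ((q / p) ^ n) * Mp q (Sn n)) := by
            rw [mul_comm ((q / p) ^ n), ENNReal.ofReal_mul (by positivity), mul_assoc]
        _ ≤ ENNReal.ofReal (1 + κ) * Mp p (Sn n) := by gcongr
        _ ≤ infall p K := h3
        _ ≤ Mp p K := infall_le p K
        _ ≤ Mp q K := h5

/-- **small exponents with stability are equivalent to strong slicing with its case of equality** -/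
theorem slice_iff (m : ℕ) : Slice (m + 2) ↔
    ∃ p1 c : ℝ, 0 < p1 ∧ 0 < c ∧ ∀ p : ℝ, 0 < p → p < p1 → Stab (m + 2) c p := by
  set n : ℕ := m + 2 with hn
  have hn1 : 1 ≤ n := by omega
  constructor
  · intro hs
    obtain ⟨δ, c1, hδ, hc1, hloc⟩ := stab_near m one_pos
    obtain ⟨κ, hκ, hgap⟩ := gapLK hn1 hs hδ
    obtain ⟨p1, hp1, h1⟩ := Pool.Agent.N563.SE.rho_ev n (a := 1 + κ / 2) (by linarith)
    set r : ℝ := (1 + κ / 2) / (1 + κ) with hr
    have hr0 : 0 < r := by positivity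
    have hr1 : r < 1 := by rw [hr, div_lt_one (by positivity)]; linarith
    set c2 : ℝ := 1 / r - 1 with hc2
    have hc20 : 0 < c2 := by
      rw [hc2, sub_pos, lt_div_iff₀ hr0]
      linarith
    refine ⟨min p1 1, min c1 c2, lt_min hp1 one_pos, lt_min hc1 hc20,
      fun p hp hpp K hK => ?_⟩
    have hd0 := dev_nonneg hK
    have hd1 := dev_lt_one hK
    by_cases hN : Near δ K
    · refine le_trans ?_ ((hloc K hK hN).1 p hp (hpp.le.trans (min_le_right _ _)))
      gcongr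
      exact min_le_left _ _
    · obtain ⟨h2, h3⟩ := h1 p hp (hpp.trans_le (min_le_left _ _))
      have hL := LK_pos hK
      have hL' := LK_pos (bodyS n)
      have hrp := Pool.Agent.N563.SE.rho_pos (n := n) hp
      have h4 : Pool.Agent.N563.SE.rho n p * LK K / LK (Sn n) ≤ r := by
        have h5 := hgap K hK hN
        rw [div_le_iff₀ hL', hr, div_mul_eq_mul_div, le_div_iff₀ (by positivity)]
        calc Pool.Agent.N563.SE.rho n p * LK K * (1 + κ)
            = Pool.Agent.N563.SE.rho n p * ((1 + κ) * LK K) := by ring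
          _ ≤ (1 + κ / 2) * LK (Sn n) := mul_le_mul h2.le h5 (by positivity) (by positivity)
      have h5 := Pool.Agent.N563.SE.cmp2 hn1 (bodyS n) hK hp h3
      rw [cenS, sh_zero] at h5
      have h6 : (Pool.Agent.N563.SE.rho n p * LK K / LK (Sn n)) ^ n ≤ r := by
        calc (Pool.Agent.N563.SE.rho n p * LK K / LK (Sn n)) ^ n ≤ r ^ n :=
              pow_le_pow_left₀ (by positivity) h4 n
          _ ≤ r ^ 1 := pow_le_pow_of_le_one hr0.le hr1.le hn1
          _ = r := pow_one r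
      have h7 : Mp p (Sn n) ≤ ENNReal.ofReal r * Mp p K :=
        h5.trans (mul_le_mul' (ENNReal.ofReal_le_ofReal h6) le_rfl)
      calc ENNReal.ofReal (1 + min c1 c2 * dev K) * Mp p (Sn n)
          ≤ ENNReal.ofReal (1 / r) * (ENNReal.ofReal r * Mp p K) := by
            gcongr
            have h8 : min c1 c2 * dev K ≤ c2 * 1 :=
              mul_le_mul (min_le_right _ _) hd1.le hd0 hc20.le
            rw [hc2] at h8
            linarith
        _ = Mp p K := by
            rw [← mul_assoc, ← ENNReal.ofReal_mul (by positivity), one_div,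
              inv_mul_cancel₀ hr0.ne', ENNReal.ofReal_one, one_mul]
  · rintro ⟨p1, c, hp1, hc, h⟩ K hK
    have hL := LK_pos hK
    have hL' := LK_pos (bodyS n)
    have h1 : (1 + c * dev K) * LK K ^ n ≤ LK (Sn n) ^ n := by
      apply lim_LK hn1 hK (bodyS n) (by have := one_le_fac hc hK; linarith)
        (show 0 < p1 / 2 by positivity)
      intro p hp hpp z
      have h2 := h p hp (by linarith) (sh z K) (body_sh hK z)
      rw [dev_sh hK] at h2
      exact h2
    have h2 := mul_nonneg hc.le (dev_nonneg hK)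
    have hpw : 0 < LK K ^ n := by positivity
    have h3 : LK K ^ n ≤ LK (Sn n) ^ n := by
      refine le_trans ?_ h1
      nlinarith
    refine ⟨(pow_le_pow_iff_left₀ hL.le hL'.le (by omega)).1 h3, fun he => ?_⟩
    rw [← dev_zero hK]
    by_contra hne
    have h4 : 0 < dev K := lt_of_le_of_ne (dev_nonneg hK) (Ne.symm hne)
    have h5 : 0 < c * dev K := mul_pos hc h4
    rw [he] at h1 hpw
    nlinarith

end Pool.Agent.N563.UL
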