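import Pool.Agent.N563.UL.U12

set_option autoImplicit false

/-!
The critical exponent (helper563).
-/

open MeasureTheory Set Filter
open scoped ENNReal Topology Matrix Pointwise

namespace Pool.Agent.N563.UL

open Pool.Agent.H131R5.LM Pool.Agent.H131R5.LC Pool.Agent.W679.B
open H801NS H801NS.TENS
open Pool.Agent.N563.SE (Body cen cov lin vr lap ff AK Mv LK LK_pos LK_sh sh body_sh infall
  part_lim vol_sh det_pos)

variable {n m : ℕ} {p q : ℝ} {K L : Set (Fin n → ℝ)}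

/-- simplices with the smallest `L^p`-Mahler volume have their centroid at the origin -/
lemma hull_centred (hp : 0 < p) (hK : Body K) (hH : Hull K) (he : Mp p K = Mp p (Sn n)) :
    ∃ v : Fin (n + 1) → (Fin n → ℝ), AffineIndependent ℝ v ∧ ∑ i, v i = 0 ∧
      K = convexHull ℝ (range v) := by
  obtain ⟨Q, hQ, hKQ⟩ := hH
  exact (Pool.Agent.TH649.LOC.centred_iff K).1
    ((Pool.Agent.TH649.LOC.hull_le hp hK.int hQ hKQ).2 he)

lemma centred_eq (hp : 0 < p) (h : ∃ v : Fin (n + 1) → (Fin n → ℝ), AffineIndependent ℝ v ∧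
    ∑ i, v i = 0 ∧ K = convexHull ℝ (range v)) : Mp p K = Mp p (Sn n) := by
  obtain ⟨M, rfl⟩ := (Pool.Agent.TH649.LOC.centred_iff K).2 h
  exact Mp_image hp M (NB_Sn (n := n)).comp ⟨0, (NB_Sn (n := n)).zero⟩

/-- large exponents are good -/
lemma good_large (hn : 1 ≤ n) : ∃ p0 : ℝ, 0 < p0 ∧ ∀ p : ℝ, p0 ≤ p → Good n p := by
  obtain ⟨p0, hp0, hlarge⟩ := Pool.Agent.TH649.LOC.all_final n hn
  refine ⟨p0, hp0, fun q hq K hK => ?_⟩
  have h := hlarge q hq K hK.cpt hK.conv hK.int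
  refine ⟨h.1, fun he => ?_⟩
  by_contra hcon
  exact absurd he (h.2 fun Q hQ hKQ => hcon ⟨Q, hQ, hKQ⟩).ne'

/-- **the critical exponent** -/
theorem critical (m : ℕ) : ∃ s : ℝ, 0 ≤ s ∧ (∀ q : ℝ, s < q → Good (m + 2) q) ∧
    (0 < s → Weak (m + 2) s ∧ ∃ K : Set (Fin (m + 2) → ℝ), Body K ∧
      Mp s K = Mp s (Sn (m + 2)) ∧ ¬ Hull K) := by
  obtain ⟨p0, hp0, hlarge⟩ := good_large (n := m + 2) (by omega)
  set S : Set ℝ := {p | 0 < p ∧ ∀ q, p ≤ q → Good (m + 2) q} with hS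
  have hne : S.Nonempty := ⟨p0, hp0, fun q hq => hlarge q hq⟩
  have hlb : ∀ p ∈ S, (0 : ℝ) ≤ p := fun p hp => hp.1.le
  have hbdd : BddBelow S := ⟨0, hlb⟩
  set s := sInf S with hs
  have hs1 : 0 ≤ s := le_csInf hne hlb
  have hgt : ∀ q : ℝ, s < q → Good (m + 2) q := by
    intro q hq
    obtain ⟨p, hpS, hpq⟩ := exists_lt_of_csInf_lt hne hq
    exact hpS.2 q hpq.le
  refine ⟨s, hs1, hgt, fun hs0 => ?_⟩
  have hW : Weak (m + 2) s := by
    apply weak_closed hs0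
    intro ε hε
    refine ⟨s + ε / 2, by positivity, ?_, (hgt _ (by linarith)).weak⟩
    rw [add_sub_cancel_left, abs_of_pos (by positivity)]
    linarith
  refine ⟨hW, ?_⟩
  by_contra hcon
  push Not at hcon
  have hG : Good (m + 2) s := fun K hK => ⟨hW K hK, fun he => hcon K hK he⟩
  obtain ⟨ε, hε, hop⟩ := good_open m hs0 hG
  set r := max (s - ε / 2) (s / 2) with hr
  have hr0 : 0 < r := lt_max_of_lt_right (by positivity)
  have hrs : r < s := max_lt (by linarith) (by linarith)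
  have hrε : s - ε / 2 ≤ r := le_max_left _ _
  have hrS : r ∈ S := by
    refine ⟨hr0, fun q hq => ?_⟩
    rcases lt_or_ge s q with h | h
    · exact hgt q h
    · apply hop q (hr0.trans_le hq)
      rw [abs_lt]
      constructor <;> linarith
  have := csInf_le hbdd hrS
  linarith

/-- the same with the quantitative distance of the second minimiser -/
theorem critical' (m : ℕ) : ∃ δ : ℝ, 0 < δ ∧
    (∀ p : ℝ, 0 < p → ∀ K : Set (Fin (m + 2) → ℝ), Body K → dev K ≤ δ →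
      Mp p (Sn (m + 2)) ≤ Mp p K ∧ (Mp p K = Mp p (Sn (m + 2)) → Hull K)) ∧
    ∃ s : ℝ, 0 ≤ s ∧ (∀ q : ℝ, s < q → Good (m + 2) q) ∧
      (0 < s → Weak (m + 2) s ∧ ∃ K : Set (Fin (m + 2) → ℝ), Body K ∧
        Mp s K = Mp s (Sn (m + 2)) ∧ δ < dev K) := by
  obtain ⟨δ, hδ, hloc⟩ := local_all m
  have hloc' : ∀ p : ℝ, 0 < p → ∀ K : Set (Fin (m + 2) → ℝ), Body K → dev K ≤ δ / (1 + δ) →
      Mp p (Sn (m + 2)) ≤ Mp p K ∧ (Mp p K = Mp p (Sn (m + 2)) → Hull K) :=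
    fun p hp K hK h => hloc p hp K hK (near_of_dev hK hδ h)
  refine ⟨δ / (1 + δ), by positivity, hloc', ?_⟩
  obtain ⟨s, hs0, hgt, h⟩ := critical m
  refine ⟨s, hs0, hgt, fun hs => ?_⟩
  obtain ⟨hW, K, hK, he, hH⟩ := h hs
  refine ⟨hW, K, hK, he, ?_⟩
  by_contra hcon
  exact hH ((hloc' s hs K hK (not_lt.1 hcon)).2 he)

end Pool.Agent.N563.UL
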