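import Pool.Agent.W679.B14
import Pool.Agent.N563.SE.Main

set_option autoImplicit false

/-!
Moment bounds for the density `Λ^(-1/p)` of the centred simplex, uniform in small `p` (helper563).
-/

open MeasureTheory Set Filter
open scoped ENNReal Topology Matrix

namespace Pool.Agent.N563.UL

open Pool.Agent.H131R5.LM Pool.Agent.H131R5.LC Pool.Agent.W679.B
open H801NS H801NS.TENS
open Pool.Agent.N563.SE (Body cen cov lin vr lap ff AK Mv)

variable {n m : ℕ} {p : ℝ}

lemma bodyS (n : ℕ) : Body (Sn n) := ⟨NB_Sn.comp, NB_Sn.conv, ⟨0, NB_Sn.zero⟩⟩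

lemma cenS (n : ℕ) : cen (Sn n) = 0 := by
  ext i
  unfold Pool.Agent.N563.SE.cen
  have h := bary_Sn (n := n) (Pi.single i 1)
  simp only [dotProduct_single, mul_one] at h
  rw [h]
  simp

lemma linS (y x : Fin n → ℝ) : lin y x = x ⬝ᵥ y := Pool.Agent.N563.SE.lin_apply y x

/-- the standard deviation of `⟨x, y⟩` on the simplex -/
noncomputable def sd (n : ℕ) (y : Fin n → ℝ) : ℝ := Real.sqrt (vr (Sn n) y)

lemma sd_nonneg (y : Fin n → ℝ) : 0 ≤ sd n y := Real.sqrt_nonneg _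

lemma vr_cont (n : ℕ) : Continuous (vr (Sn n)) := by
  have h : (vr (Sn n)) = fun y => y ⬝ᵥ (cov (Sn n)).mulVec y := by
    funext y
    exact Pool.Agent.N563.SE.vr_eq (bodyS n) y
  rw [h]
  unfold dotProduct Matrix.mulVec dotProduct
  fun_prop

lemma sd_cont (n : ℕ) : Continuous (sd n) := (vr_cont n).sqrt

lemma vr_smul (a : ℝ) (y : Fin n → ℝ) : vr (Sn n) (a • y) = a ^ 2 * vr (Sn n) y := by
  rw [Pool.Agent.N563.SE.vr_eq (bodyS n), Pool.Agent.N563.SE.vr_eq (bodyS n), Matrix.mulVec_smul,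
    dotProduct_smul, smul_dotProduct, smul_eq_mul, smul_eq_mul]
  ring

lemma sd_smul {a : ℝ} (ha : 0 ≤ a) (y : Fin n → ℝ) : sd n (a • y) = a * sd n y := by
  unfold sd
  rw [vr_smul, Real.sqrt_mul (sq_nonneg a), Real.sqrt_sq ha]

/-- the norm is bounded by the standard deviation -/
lemma sd_ge (n : ℕ) : ∃ c : ℝ, 0 < c ∧ ∀ y : Fin n → ℝ, c * ‖y‖ ≤ sd n y := by
  rcases Nat.eq_zero_or_pos n with rfl | hn
  · refine ⟨1, one_pos, fun y => ?_⟩
    have : y = 0 := Subsingleton.elim _ _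
    rw [this, norm_zero, mul_zero]
    exact sd_nonneg _
  · haveI : Nonempty (Fin n) := ⟨⟨0, hn⟩⟩
    have hne : (Metric.sphere (0 : Fin n → ℝ) 1).Nonempty := NormedSpace.sphere_nonempty.2 zero_le_one
    obtain ⟨y0, hy0, hmin⟩ := (isCompact_sphere (0 : Fin n → ℝ) 1).exists_isMinOn hne
      (sd_cont n).continuousOn
    have hy1 : ‖y0‖ = 1 := by simpa using hy0
    have hy0' : y0 ≠ 0 := by
      intro h
      rw [h, norm_zero] at hy1
      exact zero_ne_one hy1
    refine ⟨sd n y0, Real.sqrt_pos.2 (Pool.Agent.N563.SE.vr_pos (bodyS n) hy0'), fun y => ?_⟩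
    by_cases hy : y = 0
    · rw [hy, norm_zero, mul_zero]
      exact sd_nonneg _
    · have hny : 0 < ‖y‖ := norm_pos_iff.2 hy
      have h1 : (‖y‖⁻¹ • y) ∈ Metric.sphere (0 : Fin n → ℝ) 1 := by
        rw [mem_sphere_zero_iff_norm, norm_smul, norm_inv, norm_norm, inv_mul_cancel₀ hny.ne']
      have h2 : sd n y0 ≤ sd n (‖y‖⁻¹ • y) := hmin h1
      rw [sd_smul (by positivity)] at h2
      calc sd n y0 * ‖y‖ ≤ ‖y‖⁻¹ * sd n y * ‖y‖ := by gcongr
        _ = sd n y := by field_simp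

/-- `|⟨x, y⟩| ≤ C sd y` on the simplex -/
lemma dot_le (n : ℕ) : ∃ C : ℝ, 0 < C ∧ ∀ x ∈ Sn n, ∀ y : Fin n → ℝ, |x ⬝ᵥ y| ≤ C * sd n y := by
  obtain ⟨c, hc, h⟩ := sd_ge n
  refine ⟨((n : ℝ) + 1) / c, by positivity, fun x hx y => ?_⟩
  have h1 : |x ⬝ᵥ y| ≤ n * ‖y‖ := by
    unfold dotProduct
    calc |∑ i, x i * y i| ≤ ∑ i, |x i * y i| := Finset.abs_sum_le_sum_abs _ _
      _ ≤ ∑ _i : Fin n, ‖y‖ := by
          apply Finset.sum_le_sum
          intro i _
          rw [abs_mul]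
          have h2 := norm_le_pi_norm x i
          have h3 := norm_le_pi_norm y i
          rw [Real.norm_eq_abs] at h2 h3
          have h4 := norm_Sn hx
          calc |x i| * |y i| ≤ 1 * ‖y‖ :=
                mul_le_mul (h2.trans h4) h3 (abs_nonneg _) zero_le_one
            _ = ‖y‖ := one_mul _
      _ = n * ‖y‖ := by simp
  have h2 := h y
  calc |x ⬝ᵥ y| ≤ n * ‖y‖ := h1
    _ ≤ ((n : ℝ) + 1) * ‖y‖ := by gcongr; linarith
    _ = ((n : ℝ) + 1) / c * (c * ‖y‖) := by field_simp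
    _ ≤ _ := by gcongr

/-- the normalised Laplace transform -/
lemma lapS (y : Fin n → ℝ) : lap p (Sn n) y = Zf n p y / VS n := rfl

lemma lapS_pos (y : Fin n → ℝ) : 0 < lap p (Sn n) y := Pool.Agent.N563.SE.lap_pos (bodyS n) p y

lemma lapS_ge (hp : 0 < p) (y : Fin n → ℝ) : 1 ≤ lap p (Sn n) y := by
  have h := (bodyS n).exp_ge (μ := volume) (p • lin y) (σ := p * sd n y) (by
      have h2 := Pool.Agent.N563.SE.lin_cen_int (bodyS n) y
      rw [cenS, map_zero] at h2
      simp only [sub_zero] at h2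
      simp only [smul_apply, smul_eq_mul]
      rw [integral_const_mul, h2, mul_zero]) (by have := sd_nonneg y; positivity) (by
      have h2 := Pool.Agent.N563.SE.vr_mul (bodyS n) y
      rw [cenS, map_zero] at h2
      simp only [sub_zero] at h2
      simp only [smul_apply, smul_eq_mul, mul_pow]
      rw [integral_const_mul, h2]
      unfold sd
      rw [Real.sq_sqrt (Pool.Agent.N563.SE.vr_nonneg _ _), Measure.real]
      ring)
  simp only [smul_apply, smul_eq_mul] at h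
  have hW := Pool.Agent.N563.SE.Wp (bodyS n)
  rw [Pool.Agent.N563.SE.lap_eq, le_div_iff₀ hW, one_mul]
  refine le_trans ?_ h
  have h1 : 0 ≤ p * sd n y := by have := sd_nonneg y; positivity
  have h2 : 1 ≤ Real.exp (p * sd n y) / (1 + p * sd n y) := by
    rw [le_div_iff₀ (by positivity), one_mul]
    have := Real.add_one_le_exp (p * sd n y)
    linarith
  calc (volume (Sn n)).toReal = (volume (Sn n)).toReal * 1 := (mul_one _).symm
    _ ≤ _ := mul_le_mul_of_nonneg_left h2 hW.le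

/-- the density -/
noncomputable def de (n : ℕ) (p : ℝ) (y : Fin n → ℝ) : ℝ := lap p (Sn n) y ^ (-(1 / p))

lemma de_pos (y : Fin n → ℝ) : 0 < de n p y := Real.rpow_pos_of_pos (lapS_pos y) _

lemma de_eq (y : Fin n → ℝ) : de n p y = VS n ^ (1 / p) * Zf n p y ^ (-(1 / p)) := by
  have hV := VS_pos n
  unfold de
  rw [lapS, Real.div_rpow (Zf_pos y).le hV.le, Real.rpow_neg hV.le, div_inv_eq_mul, mul_comm]

lemma de_cont : Continuous (de n p) := by
  have : de n p = fun y => VS n ^ (1 / p) * Zf n p y ^ (-(1 / p)) := funext fun y => de_eq y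
  rw [this]
  exact continuous_const.mul (cont_rpow _)

lemma de_intble (hp : 0 < p) : Integrable (de n p) := by
  have : de n p = fun y => VS n ^ (1 / p) * Zf n p y ^ (-(1 / p)) := funext fun y => de_eq y
  rw [this]
  exact (g_intble hp).const_mul _

lemma de_int (hp : 0 < p) : ∫ y, de n p y = VS n ^ (1 / p) * Nf n p := by
  simp_rw [de_eq]
  rw [integral_const_mul]
  rfl

/-- pointwise domination -/
lemma de_dom (hp : 0 < p) (hp1 : p ≤ 1) (y : Fin n → ℝ) :
    Real.exp (Real.sqrt p * sd n y / 4) * de n p y ≤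
      Real.exp (1 / 2 - Real.sqrt p * sd n y / 4) := by
  set r := sd n y with hr
  have hr0 : 0 ≤ r := sd_nonneg y
  have h1 : de n p y ≤ ff p r := Pool.Agent.N563.SE.up_pt (bodyS n) (cenS n) y hp
  have h2 : ff p r ≤ Real.exp (-(p * r ^ 2 / (2 * (1 + p * r)))) := by
    unfold Pool.Agent.N563.SE.ff
    have h3 : 0 < 1 + p * r := by positivity
    rw [Real.rpow_def_of_pos h3, ← Real.exp_add]
    apply Real.exp_le_exp.2
    have h4 := Pool.Agent.N563.SE.sub_log_ge (show 0 ≤ p * r by positivity)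
    have h5 : (p * r) ^ 2 / (2 * (1 + p * r)) * (1 / p) ≤ (p * r - Real.log (1 + p * r)) * (1 / p) :=
      mul_le_mul_of_nonneg_right h4 (by positivity)
    have h6 : (p * r) ^ 2 / (2 * (1 + p * r)) * (1 / p) = p * r ^ 2 / (2 * (1 + p * r)) := by
      field_simp
    have h7 : (p * r - Real.log (1 + p * r)) * (1 / p) = r - Real.log (1 + p * r) * (1 / p) := by
      field_simp
    rw [h6, h7] at h5
    linarith
  have hsp : 0 < Real.sqrt p := Real.sqrt_pos.2 hp
  have hsp2 : Real.sqrt p ^ 2 = p := Real.sq_sqrt hp.le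
  have hsp1 : Real.sqrt p ≤ 1 := by
    exact Real.sqrt_le_one.2 hp1
  set w := Real.sqrt p * r with hw
  have hw0 : 0 ≤ w := by positivity
  have h3 : (w - 1) / 2 ≤ p * r ^ 2 / (2 * (1 + p * r)) := by
    have e1 : p * r ^ 2 = w ^ 2 := by rw [hw, mul_pow, hsp2]
    have e2 : p * r ≤ w := by
      rw [hw]
      have : p ≤ Real.sqrt p := by nlinarith
      nlinarith
    have h0 : 0 ≤ p * r := by positivity
    rw [e1, div_le_div_iff₀ (by norm_num) (by positivity)]
    rcases le_or_gt w 1 with hw1 | hw1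
    · have : 0 ≤ (1 - w) * (1 + p * r) := mul_nonneg (by linarith) (by linarith)
      nlinarith [sq_nonneg w]
    · have : (w - 1) * (1 + p * r) ≤ (w - 1) * (1 + w) :=
        mul_le_mul_of_nonneg_left (by linarith) (by linarith)
      nlinarith
  calc Real.exp (w / 4) * de n p y ≤ Real.exp (w / 4) *
        Real.exp (-(p * r ^ 2 / (2 * (1 + p * r)))) :=
        mul_le_mul_of_nonneg_left (h1.trans h2) (Real.exp_pos _).le
    _ = Real.exp (w / 4 + -(p * r ^ 2 / (2 * (1 + p * r)))) := (Real.exp_add _ _).symm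
    _ ≤ _ := by
        apply Real.exp_le_exp.2
        linarith

/-- the constant -/
noncomputable def I0 (n : ℕ) : ℝ≥0∞ :=
  ∫⁻ w : EuclideanSpace ℝ (Fin n), ENNReal.ofReal (Real.exp (1 / 2 - ‖w‖ / 4))

lemma I0_ne_top (n : ℕ) : I0 n ≠ ⊤ := by
  have h1 : I0 n = ∫⁻ u : Fin n → ℝ, ENNReal.ofReal
      (Real.exp (1 / 2 - ‖(WithLp.toLp 2 u : EuclideanSpace ℝ (Fin n))‖ / 4)) :=
    ((PiLp.volume_preserving_toLp (Fin n)).lintegral_comp_emb
      (MeasurableEquiv.toLp 2 (Fin n → ℝ)).measurableEmbedding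
      (fun w => ENNReal.ofReal (Real.exp (1 / 2 - ‖w‖ / 4)))).symm
  have h2 : ∀ u : Fin n → ℝ, ‖u‖ ≤ ‖(WithLp.toLp 2 u : EuclideanSpace ℝ (Fin n))‖ := by
    intro u
    rw [pi_norm_le_iff_of_nonneg (norm_nonneg _)]
    intro i
    exact PiLp.norm_apply_le (WithLp.toLp 2 u : EuclideanSpace ℝ (Fin n)) i
  have h3 : I0 n ≤ ∫⁻ u : Fin n → ℝ, ENNReal.ofReal (Real.exp (1 / 2) *
      Real.exp (-(1 / 4 * ‖u‖))) := by
    rw [h1]
    gcongr with u
    rw [← Real.exp_add]
    apply Real.exp_le_exp.2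
    have := h2 u
    linarith
  have h4 := ((exp_int n (show (0 : ℝ) < 1 / 4 by norm_num)).const_mul (Real.exp (1 / 2)))
  have h5 := h4.lintegral_lt_top
  exact (h3.trans_lt h5).ne

lemma scaleE (n : ℕ) {a : ℝ} (ha : 0 < a) :
    ∫⁻ u : EuclideanSpace ℝ (Fin n), ENNReal.ofReal (Real.exp (1 / 2 - a * ‖u‖ / 4)) =
      ENNReal.ofReal ((a ^ n)⁻¹) * I0 n := by
  have h1 := Measure.map_addHaar_smul (volume : Measure (EuclideanSpace ℝ (Fin n))) ha.ne'
  rw [finrank_euclideanSpace_fin, abs_of_pos (by positivity)] at h1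
  have h2 : ∫⁻ u : EuclideanSpace ℝ (Fin n), ENNReal.ofReal (Real.exp (1 / 2 - ‖a • u‖ / 4)) =
      ENNReal.ofReal ((a ^ n)⁻¹) * I0 n := by
    unfold I0
    rw [← smul_eq_mul, ← lintegral_smul_measure, ← h1, lintegral_map (by fun_prop) (by fun_prop)]
  rw [← h2]
  refine lintegral_congr fun u => ?_
  rw [norm_smul, Real.norm_of_nonneg ha.le]

/-- **the uniform moment bound** -/
theorem mom (n : ℕ) : ∃ J : ℝ, 0 < J ∧ ∀ p : ℝ, 0 < p → p ≤ 1 →
    Integrable (fun y => Real.exp (Real.sqrt p * sd n y / 4) * de n p y) ∧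
    ∫ y, Real.exp (Real.sqrt p * sd n y / 4) * de n p y ≤ J * ∫ y, de n p y := by
  have hpi := Real.pi_pos
  have hb := bodyS n
  have hV := VS_pos n
  have hdet := Real.sqrt_pos.2 (Pool.Agent.N563.SE.det_pos hb)
  set D := Real.sqrt (cov (Sn n)).det with hD
  set g : ℝ := (2 * Real.pi / ((n : ℝ) + 3)) ^ ((n : ℝ) / 2) with hg
  have hg0 : 0 < g := by positivity
  refine ⟨((I0 n).toReal + 1) / g, by positivity, fun p hp hp1 => ?_⟩
  have hsp : 0 < Real.sqrt p := Real.sqrt_pos.2 hp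
  -- upper bound
  have hup : ∫⁻ y : Fin n → ℝ, ENNReal.ofReal (Real.exp (Real.sqrt p * sd n y / 4) * de n p y) ≤
      ENNReal.ofReal (1 / D) * (ENNReal.ofReal ((Real.sqrt p ^ n)⁻¹) * I0 n) := by
    have hci := Pool.Agent.N563.SE.cov_int hb
      (fun s => ENNReal.ofReal (Real.exp (1 / 2 - Real.sqrt p * Real.sqrt s / 4))) (by fun_prop)
    simp only [Real.sqrt_sq (norm_nonneg _)] at hci
    rw [scaleE n hsp] at hci
    rw [← hci]
    gcongr with y
    exact de_dom hp hp1 y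
  have hc : Continuous fun y => Real.exp (Real.sqrt p * sd n y / 4) * de n p y := by
    have := sd_cont n
    have := de_cont (n := n) (p := p)
    fun_prop
  have hnn : ∀ y, 0 ≤ Real.exp (Real.sqrt p * sd n y / 4) * de n p y := fun y =>
    mul_nonneg (Real.exp_pos _).le (de_pos y).le
  have hlt : ENNReal.ofReal (1 / D) * (ENNReal.ofReal ((Real.sqrt p ^ n)⁻¹) * I0 n) < ⊤ :=
    ENNReal.mul_lt_top ENNReal.ofReal_lt_top
      (ENNReal.mul_lt_top ENNReal.ofReal_lt_top (lt_top_iff_ne_top.2 (I0_ne_top n)))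
  have hint : Integrable (fun y => Real.exp (Real.sqrt p * sd n y / 4) * de n p y) := by
    refine ⟨hc.aestronglyMeasurable, ?_⟩
    rw [hasFiniteIntegral_iff_ofReal (Eventually.of_forall hnn)]
    exact hup.trans_lt hlt
  refine ⟨hint, ?_⟩
  have hB : ∫ y, Real.exp (Real.sqrt p * sd n y / 4) * de n p y ≤
      1 / D * ((Real.sqrt p ^ n)⁻¹ * (I0 n).toReal) := by
    rw [integral_eq_lintegral_of_nonneg_ae (Eventually.of_forall hnn) hc.aestronglyMeasurable]
    have h1 := ENNReal.toReal_mono hlt.ne hup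
    rw [ENNReal.toReal_mul, ENNReal.toReal_mul, ENNReal.toReal_ofReal (by positivity),
      ENNReal.toReal_ofReal (by positivity)] at h1
    exact h1
  -- lower bound
  have hA : 1 / D * ((Real.sqrt p ^ n)⁻¹ * g) ≤ ∫ y, de n p y := by
    have h1 := Pool.Agent.N563.SE.low hb hp
    have e1 : Mv p (Sn n) = ENNReal.ofReal (VS n * ∫ y, de n p y) := by
      unfold Pool.Agent.N563.SE.Mv
      rw [ENNReal.ofReal_mul hV.le, ofReal_integral_eq_lintegral_ofReal (de_intble hp)
        (Eventually.of_forall fun y => (de_pos y).le)]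
      unfold VS
      rw [ENNReal.ofReal_toReal hb.vol_ne_top]
      rfl
    have hnn2 : 0 ≤ ∫ y, de n p y := integral_nonneg fun y => (de_pos y).le
    rw [e1, ENNReal.ofReal_le_ofReal_iff (by positivity)] at h1
    unfold Pool.Agent.N563.SE.AK at h1
    have h2 : VS n / D * (2 * Real.pi / (p * (1 + p * (n + 2)))) ^ ((n : ℝ) / 2) ≤
      VS n * ∫ y, de n p y := h1
    have h3 : (Real.sqrt p ^ n)⁻¹ * g ≤ (2 * Real.pi / (p * (1 + p * (n + 2)))) ^ ((n : ℝ) / 2) := by
      have e2 : (Real.sqrt p ^ n)⁻¹ = (1 / p) ^ ((n : ℝ) / 2) := by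
        rw [Pool.Agent.N563.SE.half (by positivity), Real.sqrt_div zero_le_one, Real.sqrt_one,
          one_div, inv_pow]
      rw [e2, hg, ← Real.mul_rpow (by positivity) (by positivity)]
      apply Real.rpow_le_rpow (by positivity) _ (by positivity)
      rw [div_mul_div_comm, one_mul]
      apply div_le_div_of_nonneg_left (by positivity) (by positivity)
      apply mul_le_mul_of_nonneg_left _ hp.le
      have : p * ((n : ℝ) + 2) ≤ 1 * ((n : ℝ) + 2) := by gcongr
      linarith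
    have h4 : VS n * (1 / D * ((Real.sqrt p ^ n)⁻¹ * g)) ≤ VS n * ∫ y, de n p y := by
      refine le_trans ?_ h2
      rw [show VS n * (1 / D * ((Real.sqrt p ^ n)⁻¹ * g)) =
        VS n / D * ((Real.sqrt p ^ n)⁻¹ * g) by ring]
      gcongr
    exact le_of_mul_le_mul_left h4 hV
  calc ∫ y, Real.exp (Real.sqrt p * sd n y / 4) * de n p y
      ≤ 1 / D * ((Real.sqrt p ^ n)⁻¹ * (I0 n).toReal) := hB
    _ ≤ 1 / D * ((Real.sqrt p ^ n)⁻¹ * ((I0 n).toReal + 1)) := by
        gcongr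
        linarith
    _ = ((I0 n).toReal + 1) / g * (1 / D * ((Real.sqrt p ^ n)⁻¹ * g)) := by
        field_simp
    _ ≤ _ := by
        have : 0 ≤ ((I0 n).toReal + 1) / g := by positivity
        exact mul_le_mul_of_nonneg_left hA this

end Pool.Agent.N563.UL
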