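import Pool.Agent.N563.UL.U1
import Pool.Agent.N563.UL.U2
import Pool.Agent.TH692.LOC_LOCAL
import Pool.Agent.TH649.LOC.Eq

set_option autoImplicit false

/-!
The weight of the first order inequality for small `p`: expansion (helper563).
-/

open MeasureTheory Set Filter
open scoped ENNReal Topology Matrix

namespace Pool.Agent.N563.UL

open Pool.Agent.H131R5.LM Pool.Agent.H131R5.LC Pool.Agent.W679.B
open Pool.Agent.W678.T3 (bc bc_sum bc_R)
open Pool.Agent.TH649.LOC (vx)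
open H801NS H801NS.TENS
open Pool.Agent.N563.SE (Body cen cov lin vr lap ff AK Mv)

variable {n m : ℕ} {p : ℝ}

lemma sqs (p : ℝ) : 0 ≤ Real.sqrt p := Real.sqrt_nonneg p

/-- the kernel `Λ^(-1-1/p)` -/
noncomputable def ke (n : ℕ) (p : ℝ) (y : Fin n → ℝ) : ℝ := (lap p (Sn n) y)⁻¹ * de n p y

lemma lapS_cont : Continuous (lap p (Sn n)) := by
  have : lap p (Sn n) = fun y => Zf n p y / VS n := funext fun y => lapS y
  rw [this]
  exact Zf_cont.div_const _

lemma ke_cont : Continuous (ke n p) := by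
  unfold ke
  exact (lapS_cont.inv₀ fun y => (lapS_pos y).ne').mul de_cont

lemma ke_nonneg (y : Fin n → ℝ) : 0 ≤ ke n p y :=
  mul_nonneg (inv_nonneg.2 (lapS_pos y).le) (de_pos y).le

lemma ke_le (hp : 0 < p) (y : Fin n → ℝ) : ke n p y ≤ de n p y := by
  unfold ke
  have h1 : (lap p (Sn n) y)⁻¹ ≤ 1 := inv_le_one_of_one_le₀ (lapS_ge hp y)
  calc (lap p (Sn n) y)⁻¹ * de n p y ≤ 1 * de n p y :=
        mul_le_mul_of_nonneg_right h1 (de_pos y).le
    _ = _ := one_mul _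

lemma ke_tr (σ : Equiv.Perm (Fin (n + 1))) (y : Fin n → ℝ) :
    ke n p (tr (R σ) y) = ke n p y := by
  unfold ke
  rw [de_eq, de_eq, lapS, lapS, Zf_tr]

lemma ke_zf (hp : 0 < p) (y : Fin n → ℝ) :
    Zf n p y ^ (-(1 + 1 / p)) = VS n ^ (-(1 + 1 / p)) * ke n p y := by
  have hV := VS_pos n
  have hZ := Zf_pos (p := p) y
  unfold ke
  rw [de_eq, lapS, show -(1 + 1 / p) = -1 + -(1 / p) by ring, Real.rpow_add hZ,
    Real.rpow_add hV, Real.rpow_neg_one, Real.rpow_neg_one]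
  have h1 : VS n ^ (-(1 / p)) * VS n ^ (1 / p) = 1 := by
    rw [← Real.rpow_add hV, neg_add_cancel, Real.rpow_zero]
  have h2 : (Zf n p y / VS n)⁻¹ = VS n * (Zf n p y)⁻¹ := by
    rw [inv_div]
    rfl
  rw [h2]
  calc (Zf n p y)⁻¹ * Zf n p y ^ (-(1 / p)) =
        ((VS n)⁻¹ * VS n) * (VS n ^ (-(1 / p)) * VS n ^ (1 / p)) *
          ((Zf n p y)⁻¹ * Zf n p y ^ (-(1 / p))) := by
        rw [h1, inv_mul_cancel₀ hV.ne', one_mul, one_mul]
    _ = _ := by ring

lemma Nd_pos (hp : 0 < p) : 0 < ∫ y, de n p y := by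
  rw [de_int hp]
  exact mul_pos (Real.rpow_pos_of_pos (VS_pos n) _) (Nf_pos hp)

/-- the weight in terms of the normalised density -/
lemma wt_eq (hp : 0 < p) (x : Fin n → ℝ) :
    wt n p x = (∫ y, Real.exp (p * (x ⬝ᵥ y)) * ke n p y) / ∫ y, de n p y := by
  have hV := VS_pos n
  have hN := Nf_pos (n := n) hp
  unfold wt wi
  simp_rw [ke_zf hp]
  have h1 : ∀ y : Fin n → ℝ, Real.exp (p * (x ⬝ᵥ y)) * (VS n ^ (-(1 + 1 / p)) * ke n p y) =
      VS n ^ (-(1 + 1 / p)) * (Real.exp (p * (x ⬝ᵥ y)) * ke n p y) := fun y => by ring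
  simp_rw [h1]
  rw [integral_const_mul, de_int hp]
  have h2 : VS n ^ (-(1 + 1 / p)) = (VS n)⁻¹ * (VS n ^ (1 / p))⁻¹ := by
    rw [show -(1 + 1 / p) = -1 + -(1 / p) by ring, Real.rpow_add hV, Real.rpow_neg_one,
      Real.rpow_neg hV.le]
  have h3 : 0 < VS n ^ (1 / p) := Real.rpow_pos_of_pos hV _
  rw [h2]
  field_simp

/-! ### integrability for `p ≤ 1` -/

lemma pow3_le {s : ℝ} (hs : 0 ≤ s) : s ^ 3 ≤ 3072 * Real.exp (s / 8) := by
  have h := Real.pow_div_factorial_le_exp (s / 8) (by positivity) 3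
  have h6 : ((3 : ℕ).factorial : ℝ) = 6 := by norm_num [Nat.factorial]
  rw [h6] at h
  have : (s / 8) ^ 3 / 6 = s ^ 3 / 3072 := by ring
  rw [this] at h
  rw [div_le_iff₀ (by norm_num)] at h
  linarith

lemma pow2_le {s : ℝ} (hs : 0 ≤ s) : s ^ 2 ≤ 32 * Real.exp (s / 4) := by
  have h := Real.pow_div_factorial_le_exp (s / 4) (by positivity) 2
  have h6 : ((2 : ℕ).factorial : ℝ) = 2 := by norm_num [Nat.factorial]
  rw [h6] at h
  have : (s / 4) ^ 2 / 2 = s ^ 2 / 32 := by ring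
  rw [this] at h
  rw [div_le_iff₀ (by norm_num)] at h
  linarith

lemma cont_dot (x : Fin n → ℝ) : Continuous fun y : Fin n → ℝ => x ⬝ᵥ y := by
  unfold dotProduct; fun_prop

lemma int_of_sd2 (hp : 0 < p) (hp1 : p ≤ 1) {f : (Fin n → ℝ) → ℝ} (hf : Continuous f) {C : ℝ}
    (h : ∀ y, |f y| ≤ C * (1 + sd n y ^ 2)) : Integrable fun y => f y * ke n p y := by
  obtain ⟨J, hJ, hmom⟩ := mom n
  have hC : 0 ≤ C := by
    have h0 := (abs_nonneg _).trans (h 0)
    have h1 : 0 < 1 + sd n 0 ^ 2 := by positivity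
    by_contra hcon
    push Not at hcon
    have : C * (1 + sd n 0 ^ 2) < 0 := mul_neg_of_neg_of_pos hcon h1
    linarith
  refine Integrable.mono' ((hmom p hp hp1).1.const_mul (C * (1 + 32 / p)))
    (hf.mul ke_cont).aestronglyMeasurable (Eventually.of_forall fun y => ?_)
  rw [Real.norm_eq_abs, abs_mul, abs_of_nonneg (ke_nonneg y)]
  set s := Real.sqrt p * sd n y with hs
  have hs0 : 0 ≤ s := mul_nonneg (sqs p) (sd_nonneg y)
  have h1 : sd n y ^ 2 = s ^ 2 / p := by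
    rw [hs, mul_pow, Real.sq_sqrt hp.le]
    field_simp
  have h2 := pow2_le hs0
  have h3 : (1 : ℝ) ≤ Real.exp (s / 4) := Real.one_le_exp (by positivity)
  have h4 : 1 + sd n y ^ 2 ≤ (1 + 32 / p) * Real.exp (s / 4) := by
    rw [h1]
    have h5 : s ^ 2 / p ≤ 32 * Real.exp (s / 4) / p := div_le_div_of_nonneg_right h2 hp.le
    calc 1 + s ^ 2 / p ≤ Real.exp (s / 4) + 32 * Real.exp (s / 4) / p := add_le_add h3 h5
      _ = _ := by ring
  calc |f y| * ke n p y ≤ (C * (1 + sd n y ^ 2)) * de n p y :=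
        mul_le_mul (h y) (ke_le hp y) (ke_nonneg y) (by positivity)
    _ ≤ (C * ((1 + 32 / p) * Real.exp (s / 4))) * de n p y :=
        mul_le_mul_of_nonneg_right (mul_le_mul_of_nonneg_left h4 hC) (de_pos y).le
    _ = C * (1 + 32 / p) * (Real.exp (s / 4) * de n p y) := by ring

lemma ke_intble (hp : 0 < p) (hp1 : p ≤ 1) : Integrable (ke n p) := by
  have h := int_of_sd2 (n := n) hp hp1 (f := fun _ => (1 : ℝ)) continuous_const (C := 1) (by
    intro y
    rw [abs_one, one_mul]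
    have := sq_nonneg (sd n y)
    linarith)
  simpa using h

lemma dot_all (x : Fin n → ℝ) : ∃ C : ℝ, 0 < C ∧ ∀ y : Fin n → ℝ, |x ⬝ᵥ y| ≤ C * sd n y := by
  obtain ⟨c, hc, h⟩ := sd_ge n
  have hs : 0 ≤ ∑ i, |x i| := Finset.sum_nonneg fun i _ => abs_nonneg _
  refine ⟨((∑ i, |x i|) + 1) / c, by positivity, fun y => ?_⟩
  have h1 : |x ⬝ᵥ y| ≤ (∑ i, |x i|) * ‖y‖ := by
    unfold dotProduct
    calc |∑ i, x i * y i| ≤ ∑ i, |x i * y i| := Finset.abs_sum_le_sum_abs _ _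
      _ ≤ ∑ i, |x i| * ‖y‖ := by
          apply Finset.sum_le_sum
          intro i _
          rw [abs_mul]
          apply mul_le_mul_of_nonneg_left _ (abs_nonneg _)
          have := norm_le_pi_norm y i
          rwa [Real.norm_eq_abs] at this
      _ = _ := by rw [Finset.sum_mul]
  calc |x ⬝ᵥ y| ≤ (∑ i, |x i|) * ‖y‖ := h1
    _ ≤ ((∑ i, |x i|) + 1) * ‖y‖ := by gcongr; linarith
    _ = ((∑ i, |x i|) + 1) / c * (c * ‖y‖) := by field_simp
    _ ≤ _ := by gcongr; exact h y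

lemma lin_int (hp : 0 < p) (hp1 : p ≤ 1) (x : Fin n → ℝ) :
    Integrable fun y : Fin n → ℝ => (x ⬝ᵥ y) * ke n p y := by
  obtain ⟨C, hC, h⟩ := dot_all x
  refine int_of_sd2 hp hp1 (cont_dot x) (C := C) fun y => (h y).trans ?_
  apply mul_le_mul_of_nonneg_left _ hC.le
  nlinarith [sq_nonneg (sd n y - 1), sd_nonneg (n := n) y]

lemma quad_int (hp : 0 < p) (hp1 : p ≤ 1) (x x' : Fin n → ℝ) :
    Integrable fun y : Fin n → ℝ => ((x ⬝ᵥ y) * (x' ⬝ᵥ y)) * ke n p y := by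
  obtain ⟨C, hC, h⟩ := dot_all x
  obtain ⟨C', hC', h'⟩ := dot_all x'
  refine int_of_sd2 hp hp1 ((cont_dot x).mul (cont_dot x')) (C := C * C') fun y => ?_
  rw [abs_mul]
  calc |x ⬝ᵥ y| * |x' ⬝ᵥ y| ≤ (C * sd n y) * (C' * sd n y) :=
        mul_le_mul (h y) (h' y) (abs_nonneg _) (by have := sd_nonneg (n := n) y; positivity)
    _ = C * C' * sd n y ^ 2 := by ring
    _ ≤ _ := by
        apply mul_le_mul_of_nonneg_left _ (by positivity)
        linarith

/-! ### symmetry -/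

lemma lam_vx (i j : Fin (n + 1)) : lam (vx n i) j = (if j = i then 1 else 0) - cc n := by
  have h := Pool.Agent.TH692.LOC_LOCAL.bc_vx i j
  unfold bc at h
  linarith

lemma R_vx (a b i : Fin (n + 1)) : R (Equiv.swap a b) (vx n i) = vx n (Equiv.swap a b i) := by
  apply lam_inj
  rw [lam_R]
  funext j
  rw [Function.comp_apply, lam_vx, lam_vx]
  congr 1
  refine if_congr ?_ rfl rfl
  rw [Equiv.swap_apply_eq_iff]

lemma sum_lam_vx (x : Fin n → ℝ) : x = ∑ i, lam x i • vx n i := by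
  have h1 := Pool.Agent.TH692.LOC_LOCAL.eq_sum_vx x
  have h2 : ∑ i, vx n i = 0 := Pool.Agent.TH649.LOC.sum_vx
  conv_lhs => rw [h1]
  unfold bc
  simp_rw [add_smul]
  rw [Finset.sum_add_distrib, ← Finset.smul_sum, h2, smul_zero, add_zero]

/-- the first moment of a vertex -/
noncomputable def G1 (n : ℕ) (p : ℝ) (i : Fin (n + 1)) : ℝ := ∫ y, (vx n i ⬝ᵥ y) * ke n p y

/-- the second moments -/
noncomputable def G2 (n : ℕ) (p : ℝ) (i j : Fin (n + 1)) : ℝ :=
  ∫ y, ((vx n i ⬝ᵥ y) * (vx n j ⬝ᵥ y)) * ke n p y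

lemma G1_swap (a b i : Fin (n + 1)) : G1 n p (Equiv.swap a b i) = G1 n p i := by
  unfold G1
  have hc : Continuous fun y : Fin n → ℝ => (vx n i ⬝ᵥ y) * ke n p y :=
    (cont_dot (vx n i)).mul (ke_cont (p := p))
  rw [← tr_int (Equiv.swap a b) hc]
  congr 1
  funext y
  rw [ke_tr, ← tr_dot, R_vx]

lemma G2_swap (a b i j : Fin (n + 1)) :
    G2 n p (Equiv.swap a b i) (Equiv.swap a b j) = G2 n p i j := by
  unfold G2
  have hc : Continuous fun y : Fin n → ℝ => ((vx n i ⬝ᵥ y) * (vx n j ⬝ᵥ y)) * ke n p y :=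
    ((cont_dot (vx n i)).mul (cont_dot (vx n j))).mul (ke_cont (p := p))
  rw [← tr_int (Equiv.swap a b) hc]
  congr 1
  funext y
  rw [ke_tr, ← tr_dot, ← tr_dot, R_vx, R_vx]

lemma dot_sum (x y : Fin n → ℝ) : x ⬝ᵥ y = ∑ i, lam x i * (vx n i ⬝ᵥ y) := by
  conv_lhs => rw [sum_lam_vx x, sum_dotProduct]
  refine Finset.sum_congr rfl fun i _ => ?_
  rw [smul_dotProduct, smul_eq_mul]

/-- the linear term vanishes -/
lemma lin_zero (hp : 0 < p) (hp1 : p ≤ 1) (x : Fin n → ℝ) :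
    ∫ y, (x ⬝ᵥ y) * ke n p y = 0 := by
  have h1 : ∀ y : Fin n → ℝ, (x ⬝ᵥ y) * ke n p y =
      ∑ i, lam x i * ((vx n i ⬝ᵥ y) * ke n p y) := by
    intro y
    rw [dot_sum x y, Finset.sum_mul]
    exact Finset.sum_congr rfl fun i _ => by ring
  simp_rw [h1]
  rw [integral_finsetSum _ fun i _ => (lin_int hp hp1 _).const_mul _]
  have h2 : ∀ i : Fin (n + 1), ∫ y, lam x i * ((vx n i ⬝ᵥ y) * ke n p y) =
      lam x i * G1 n p 0 := by
    intro i
    rw [integral_const_mul]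
    congr 1
    have := G1_swap (p := p) 0 i 0
    rw [Equiv.swap_apply_left] at this
    rw [← this]
    rfl
  simp_rw [h2]
  rw [← Finset.sum_mul, lam_sum, zero_mul]

lemma G2_sum (hp : 0 < p) (hp1 : p ≤ 1) (i : Fin (n + 1)) : ∑ j, G2 n p i j = 0 := by
  unfold G2
  rw [← integral_finsetSum _ fun j _ => quad_int hp hp1 _ _]
  have h1 : ∀ y : Fin n → ℝ, ∑ j, ((vx n i ⬝ᵥ y) * (vx n j ⬝ᵥ y)) * ke n p y = 0 := by
    intro y
    rw [← Finset.sum_mul, ← Finset.mul_sum, ← sum_dotProduct]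
    have h2 : ∑ i, vx n i = 0 := Pool.Agent.TH649.LOC.sum_vx
    rw [h2, zero_dotProduct, mul_zero, zero_mul]
  simp_rw [h1]
  exact integral_zero _ _

lemma G2_diag (i : Fin (n + 1)) : G2 n p i i = G2 n p 0 0 := by
  have := G2_swap (p := p) 0 i 0 0
  rwa [Equiv.swap_apply_left] at this

lemma G2_off (hn : 1 ≤ n) (hp : 0 < p) (hp1 : p ≤ 1) {i j : Fin (n + 1)} (hij : j ≠ i) :
    G2 n p i j = -(G2 n p 0 0 / n) := by
  have hn' : (0 : ℝ) < n := by exact_mod_cast hn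
  have h1 : ∀ k, k ≠ i → G2 n p i k = G2 n p i j := by
    intro k hk
    have := G2_swap (p := p) k j i k
    rw [Equiv.swap_apply_left, Equiv.swap_apply_of_ne_of_ne hk.symm hij.symm] at this
    exact this.symm
  have h2 := G2_sum hp hp1 i
  rw [← Finset.add_sum_erase Finset.univ _ (Finset.mem_univ i), G2_diag] at h2
  have h3 : ∑ k ∈ Finset.univ.erase i, G2 n p i k = n * G2 n p i j := by
    rw [Finset.sum_congr rfl fun k hk => h1 k (Finset.ne_of_mem_erase hk), Finset.sum_const,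
      Finset.card_erase_of_mem (Finset.mem_univ i), Finset.card_univ, Fintype.card_fin,
      nsmul_eq_mul]
    simp
  rw [h3] at h2
  rw [eq_neg_iff_add_eq_zero, ← mul_right_inj' hn'.ne', mul_zero]
  field_simp
  linarith

/-- the second moment is a multiple of the invariant form -/
lemma quad_eq (hn : 1 ≤ n) (hp : 0 < p) (hp1 : p ≤ 1) (x : Fin n → ℝ) :
    ∫ y, (x ⬝ᵥ y) ^ 2 * ke n p y = (G2 n p 0 0 * (1 + 1 / n)) * qs x := by
  have h1 : ∀ y : Fin n → ℝ, (x ⬝ᵥ y) ^ 2 * ke n p y =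
      ∑ i, ∑ j, (lam x i * lam x j) * (((vx n i ⬝ᵥ y) * (vx n j ⬝ᵥ y)) * ke n p y) := by
    intro y
    rw [dot_sum x y, sq, Finset.sum_mul_sum, Finset.sum_mul]
    refine Finset.sum_congr rfl fun i _ => ?_
    rw [Finset.sum_mul]
    exact Finset.sum_congr rfl fun j _ => by ring
  simp_rw [h1]
  rw [integral_finsetSum _ fun i _ => integrable_finsetSum _ fun j _ =>
    (quad_int hp hp1 _ _).const_mul _]
  have h2 : ∀ i : Fin (n + 1), ∫ y, ∑ j, (lam x i * lam x j) *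
      (((vx n i ⬝ᵥ y) * (vx n j ⬝ᵥ y)) * ke n p y) =
      (G2 n p 0 0 * (1 + 1 / n)) * lam x i ^ 2 := by
    intro i
    rw [integral_finsetSum _ fun j _ => (quad_int hp hp1 _ _).const_mul _]
    have h3 : ∀ j : Fin (n + 1), ∫ y, (lam x i * lam x j) *
        (((vx n i ⬝ᵥ y) * (vx n j ⬝ᵥ y)) * ke n p y) = (lam x i * lam x j) * G2 n p i j := by
      intro j
      rw [integral_const_mul]
      rfl
    simp_rw [h3]
    rw [← Finset.add_sum_erase Finset.univ _ (Finset.mem_univ i), G2_diag]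
    have h4 : ∑ j ∈ Finset.univ.erase i, lam x i * lam x j * G2 n p i j =
        lam x i * (-(G2 n p 0 0 / n)) * ∑ j ∈ Finset.univ.erase i, lam x j := by
      rw [Finset.mul_sum]
      refine Finset.sum_congr rfl fun j hj => ?_
      rw [G2_off hn hp hp1 (Finset.ne_of_mem_erase hj)]
      ring
    have h5 : ∑ j ∈ Finset.univ.erase i, lam x j = -lam x i := by
      have := lam_sum x
      rw [← Finset.add_sum_erase Finset.univ _ (Finset.mem_univ i)] at this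
      linarith
    rw [h4, h5]
    ring
  simp_rw [h2]
  rw [← Finset.mul_sum]
  rfl

/-- the constant term of the expansion -/
noncomputable def al (n : ℕ) (p : ℝ) : ℝ := (∫ y, ke n p y) / ∫ y, de n p y

/-- the coefficient of the quadratic term of the expansion -/
noncomputable def be (n : ℕ) (p : ℝ) : ℝ :=
  p ^ 2 / 2 * (G2 n p 0 0 * (1 + 1 / n)) / ∫ y, de n p y

lemma exp_tay (t : ℝ) : |Real.exp t - (1 + t + t ^ 2 / 2)| ≤ |t| ^ 3 * Real.exp |t| := by
  have h := Complex.norm_exp_sub_sum_le_norm_mul_exp (t : ℂ) 3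
  have h1 : Complex.exp (t : ℂ) - ∑ m ∈ Finset.range 3, (t : ℂ) ^ m / (m.factorial : ℂ) =
      ((Real.exp t - (1 + t + t ^ 2 / 2) : ℝ) : ℂ) := by
    simp only [Finset.sum_range_succ, Finset.sum_range_zero, Nat.factorial]
    push_cast
    norm_num
  rw [h1, Complex.norm_real, Complex.norm_real, Real.norm_eq_abs, Real.norm_eq_abs] at h
  exact h

/-- **the expansion of the weight for small `p`** -/
theorem expand (hn : 1 ≤ n) : ∃ C3 p1 : ℝ, 0 < C3 ∧ 0 < p1 ∧ p1 ≤ 1 ∧ ∀ p : ℝ, 0 < p → p ≤ p1 →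
    ∀ x ∈ Sn n, |wt n p x - (al n p + be n p * qs x)| ≤ C3 * (p * Real.sqrt p) := by
  obtain ⟨J, hJ, hmom⟩ := mom n
  obtain ⟨C, hC, hdot⟩ := dot_le n
  refine ⟨3072 * C ^ 3 * J, min 1 (1 / (8 * C)) ^ 2, by positivity, by positivity, ?_, ?_⟩
  · have h1 : min 1 (1 / (8 * C)) ≤ 1 := min_le_left _ _
    have h0 : 0 ≤ min 1 (1 / (8 * C)) := by positivity
    exact pow_le_one₀ h0 h1
  intro p hp hpp x hx
  have hsp : 0 < Real.sqrt p := Real.sqrt_pos.2 hp
  have hsp2 : Real.sqrt p ^ 2 = p := Real.sq_sqrt hp.le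
  have hm0 : 0 ≤ min 1 (1 / (8 * C)) := by positivity
  have hspm : Real.sqrt p ≤ min 1 (1 / (8 * C)) := by
    rw [← Real.sqrt_sq hm0]
    exact Real.sqrt_le_sqrt hpp
  have hCs : C * Real.sqrt p ≤ 1 / 8 := by
    have h1 : Real.sqrt p ≤ 1 / (8 * C) := hspm.trans (min_le_right _ _)
    calc C * Real.sqrt p ≤ C * (1 / (8 * C)) := mul_le_mul_of_nonneg_left h1 hC.le
      _ = 1 / 8 := by field_simp
  have hp1 : p ≤ 1 := hpp.trans (pow_le_one₀ hm0 (min_le_left _ _))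
  obtain ⟨hmi, hmb⟩ := hmom p hp hp1
  have hN := Nd_pos (n := n) hp
  set N := ∫ y, de n p y with hNdef
  -- integrability of the exponential term
  have hbound : ∀ y : Fin n → ℝ, |p * (x ⬝ᵥ y)| ≤ (Real.sqrt p * sd n y) / 8 := by
    intro y
    have h1 := hdot x hx y
    have h2 := sd_nonneg (n := n) y
    rw [abs_mul, abs_of_pos hp]
    calc p * |x ⬝ᵥ y| ≤ p * (C * sd n y) := mul_le_mul_of_nonneg_left h1 hp.le
      _ = (C * Real.sqrt p) * (Real.sqrt p * sd n y) := by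
          nth_rewrite 1 [← hsp2]
          ring
      _ ≤ 1 / 8 * (Real.sqrt p * sd n y) := mul_le_mul_of_nonneg_right hCs (by positivity)
      _ = _ := by ring
  have hei : Integrable fun y : Fin n → ℝ => Real.exp (p * (x ⬝ᵥ y)) * ke n p y := by
    refine Integrable.mono' hmi ?_ (Eventually.of_forall fun y => ?_)
    · exact ((cont_exp_y p x).mul ke_cont).aestronglyMeasurable
    · rw [Real.norm_eq_abs, abs_of_nonneg (mul_nonneg (Real.exp_pos _).le (ke_nonneg y))]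
      apply mul_le_mul _ (ke_le hp y) (ke_nonneg y) (Real.exp_pos _).le
      apply Real.exp_le_exp.2
      have h1 := (le_abs_self _).trans (hbound y)
      have h2 : 0 ≤ Real.sqrt p * sd n y := mul_nonneg (sqs p) (sd_nonneg y)
      linarith
  have hki := ke_intble (n := n) hp hp1
  have hli := lin_int hp hp1 x
  have hqi : Integrable fun y : Fin n → ℝ => (x ⬝ᵥ y) ^ 2 * ke n p y := by
    have := quad_int hp hp1 x x
    refine this.congr (Eventually.of_forall fun y => ?_)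
    simp only [sq]
  -- the difference
  have e1 : wt n p x - (al n p + be n p * qs x) =
      (∫ y, (Real.exp (p * (x ⬝ᵥ y)) - (1 + p * (x ⬝ᵥ y) + (p * (x ⬝ᵥ y)) ^ 2 / 2)) * ke n p y) /
        N := by
    have h1 : ∫ y, (Real.exp (p * (x ⬝ᵥ y)) - (1 + p * (x ⬝ᵥ y) + (p * (x ⬝ᵥ y)) ^ 2 / 2)) *
        ke n p y = (∫ y, Real.exp (p * (x ⬝ᵥ y)) * ke n p y) - ((∫ y, ke n p y) +
          p * (∫ y, (x ⬝ᵥ y) * ke n p y) + p ^ 2 / 2 * ∫ y, (x ⬝ᵥ y) ^ 2 * ke n p y) := by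
      have i1 : Integrable fun y : Fin n → ℝ => ke n p y + p * ((x ⬝ᵥ y) * ke n p y) :=
        hki.add (hli.const_mul p)
      have i2 : Integrable fun y : Fin n → ℝ => (ke n p y + p * ((x ⬝ᵥ y) * ke n p y)) +
          p ^ 2 / 2 * ((x ⬝ᵥ y) ^ 2 * ke n p y) := i1.add (hqi.const_mul _)
      have h2 : ∀ y : Fin n → ℝ, (Real.exp (p * (x ⬝ᵥ y)) -
          (1 + p * (x ⬝ᵥ y) + (p * (x ⬝ᵥ y)) ^ 2 / 2)) * ke n p y =
          Real.exp (p * (x ⬝ᵥ y)) * ke n p y - ((ke n p y + p * ((x ⬝ᵥ y) * ke n p y)) +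
            p ^ 2 / 2 * ((x ⬝ᵥ y) ^ 2 * ke n p y)) := fun y => by ring
      simp_rw [h2]
      rw [integral_sub hei i2, integral_add i1 (hqi.const_mul _),
        integral_add hki (hli.const_mul _), integral_const_mul, integral_const_mul]
    rw [h1, lin_zero hp hp1, quad_eq hn hp hp1, wt_eq hp]
    unfold al be
    rw [← hNdef]
    field_simp
    ring
  rw [e1, abs_div, abs_of_pos hN, div_le_iff₀ hN]
  have hpt : ∀ y : Fin n → ℝ, |(Real.exp (p * (x ⬝ᵥ y)) -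
      (1 + p * (x ⬝ᵥ y) + (p * (x ⬝ᵥ y)) ^ 2 / 2)) * ke n p y| ≤
      (3072 * C ^ 3 * (p * Real.sqrt p)) * (Real.exp (Real.sqrt p * sd n y / 4) * de n p y) := by
    intro y
    rw [abs_mul, abs_of_nonneg (ke_nonneg y)]
    have h1 := exp_tay (p * (x ⬝ᵥ y))
    have h2 := hbound y
    have h3 := sd_nonneg (n := n) y
    set s := Real.sqrt p * sd n y with hs
    have hs0 : 0 ≤ s := by positivity
    have h4 : |p * (x ⬝ᵥ y)| ≤ (C * Real.sqrt p) * s := by
      have h1 := hdot x hx y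
      rw [abs_mul, abs_of_pos hp]
      calc p * |x ⬝ᵥ y| ≤ p * (C * sd n y) := mul_le_mul_of_nonneg_left h1 hp.le
        _ = (C * Real.sqrt p) * (Real.sqrt p * sd n y) := by
            nth_rewrite 1 [← hsp2]
            ring
    have h5 : |p * (x ⬝ᵥ y)| ^ 3 ≤ ((C * Real.sqrt p) * s) ^ 3 :=
      pow_le_pow_left₀ (abs_nonneg _) h4 3
    have h6 : ((C * Real.sqrt p) * s) ^ 3 = C ^ 3 * (p * Real.sqrt p) * s ^ 3 := by
      calc ((C * Real.sqrt p) * s) ^ 3 = C ^ 3 * (Real.sqrt p ^ 2 * Real.sqrt p) * s ^ 3 := by ring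
        _ = _ := by rw [hsp2]
    have h7 : |p * (x ⬝ᵥ y)| ^ 3 ≤ C ^ 3 * (p * Real.sqrt p) * (3072 * Real.exp (s / 8)) := by
      rw [h6] at h5
      exact h5.trans (mul_le_mul_of_nonneg_left (pow3_le hs0) (by positivity))
    have h8 : Real.exp |p * (x ⬝ᵥ y)| ≤ Real.exp (s / 8) := Real.exp_le_exp.2 h2
    have h9 : |p * (x ⬝ᵥ y)| ^ 3 * Real.exp |p * (x ⬝ᵥ y)| ≤
        (C ^ 3 * (p * Real.sqrt p) * (3072 * Real.exp (s / 8))) * Real.exp (s / 8) :=
      mul_le_mul h7 h8 (Real.exp_pos _).le (by positivity)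
    have h10 : (C ^ 3 * (p * Real.sqrt p) * (3072 * Real.exp (s / 8))) * Real.exp (s / 8) =
        3072 * C ^ 3 * (p * Real.sqrt p) * Real.exp (s / 4) := by
      have : Real.exp (s / 8) * Real.exp (s / 8) = Real.exp (s / 4) := by
        rw [← Real.exp_add]
        congr 1
        ring
      rw [← this]
      ring
    rw [h10] at h9
    calc |Real.exp (p * (x ⬝ᵥ y)) - (1 + p * (x ⬝ᵥ y) + (p * (x ⬝ᵥ y)) ^ 2 / 2)| * ke n p y
        ≤ (3072 * C ^ 3 * (p * Real.sqrt p) * Real.exp (s / 4)) * de n p y :=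
          mul_le_mul (h1.trans h9) (ke_le hp y) (ke_nonneg y) (by positivity)
      _ = _ := by ring
  calc |∫ y, (Real.exp (p * (x ⬝ᵥ y)) - (1 + p * (x ⬝ᵥ y) + (p * (x ⬝ᵥ y)) ^ 2 / 2)) *
        ke n p y| ≤ ∫ y, |(Real.exp (p * (x ⬝ᵥ y)) -
          (1 + p * (x ⬝ᵥ y) + (p * (x ⬝ᵥ y)) ^ 2 / 2)) * ke n p y| := by
        have := norm_integral_le_integral_norm (μ := (volume : Measure (Fin n → ℝ)))
          (fun y => (Real.exp (p * (x ⬝ᵥ y)) - (1 + p * (x ⬝ᵥ y) + (p * (x ⬝ᵥ y)) ^ 2 / 2)) *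
            ke n p y)
        simpa only [Real.norm_eq_abs] using this
    _ ≤ ∫ y, (3072 * C ^ 3 * (p * Real.sqrt p)) *
          (Real.exp (Real.sqrt p * sd n y / 4) * de n p y) := by
        apply integral_mono_of_nonneg (Eventually.of_forall fun y => abs_nonneg _)
          (hmi.const_mul _) (Eventually.of_forall hpt)
    _ = (3072 * C ^ 3 * (p * Real.sqrt p)) * ∫ y, Real.exp (Real.sqrt p * sd n y / 4) *
          de n p y := integral_const_mul _ _
    _ ≤ (3072 * C ^ 3 * (p * Real.sqrt p)) * (J * N) :=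
        mul_le_mul_of_nonneg_left hmb (by positivity)
    _ = _ := by ring

end Pool.Agent.N563.UL
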