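import Pool.Agent.N563.UL.U1
import Pool.Agent.N563.UL.U3

set_option autoImplicit false

/-!
The first order inequality for all small `p` at once (helper563).
-/

open MeasureTheory Set Filter
open scoped ENNReal Topology Matrix

namespace Pool.Agent.N563.UL

open Pool.Agent.H131R5.LM Pool.Agent.H131R5.LC Pool.Agent.W679.B
open H801NS H801NS.TENS

variable {n m : ℕ} {p : ℝ}

lemma wt_contS (hp : 0 < p) : ContinuousOn (wt n p) (Sn n) := by
  apply (wt_cont hp).mono
  rw [← SL_one]
  exact SL_mono (by linarith [sm_pos hp])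

lemma wt_intS (hp : 0 < p) : IntegrableOn (wt n p) (Sn n) :=
  (wt_contS hp).integrableOn_compact NB_Sn.comp

/-- **small `p`** -/
theorem small (m : ℕ) : ∃ ε η p1 : ℝ, 0 < ε ∧ 0 < η ∧ 0 < p1 ∧ ∀ p : ℝ, 0 < p → p ≤ p1 →
    ∀ K : Set (Fin (m + 2) → ℝ), NB K → K ⊆ Sn (m + 2) →
      (∀ x ∈ Sn (m + 2), gauge K x ≤ 1 + ε) →
      (∀ i : Fin (m + 3), R (Equiv.swap 0 i) (jj 0) ∈ K) →
      (p + 1 + p * η) * (volume (Sn (m + 2) \ K)).toReal ≤ ∫ x in Sn (m + 2) \ K, wt (m + 2) p x := by
  obtain ⟨C3, p1, hC3, hp1, hp11, hexp⟩ := expand (n := m + 2) (by omega)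
  obtain ⟨ε, ηq, hε, hηq, hq⟩ := first_q m
  have hg := gapq_pos (m + 1)
  set g := gapq (m + 1) with hgdef
  set κ : ℝ := min (1 / (4 * C3)) (ηq / (8 * C3 * g)) with hκ
  have hκ0 : 0 < κ := lt_min (by positivity) (by positivity)
  refine ⟨ε, ηq / (4 * g), min p1 (κ ^ 2), hε, by positivity, lt_min hp1 (by positivity), ?_⟩
  intro p hp hpp K hK hKS hgK hcen
  have hpp1 : p ≤ p1 := hpp.trans (min_le_left _ _)
  have hsp : 0 < Real.sqrt p := Real.sqrt_pos.2 hp
  have hspκ : Real.sqrt p ≤ κ := by
    rw [← Real.sqrt_sq hκ0.le]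
    exact Real.sqrt_le_sqrt (hpp.trans (min_le_right _ _))
  have hex := hexp p hp hpp1
  set E : ℝ := C3 * (p * Real.sqrt p) with hE
  have hE0 : 0 ≤ E := by positivity
  have hE1 : 2 * E ≤ p / 2 := by
    have h1 : Real.sqrt p ≤ 1 / (4 * C3) := hspκ.trans (min_le_left _ _)
    calc 2 * E = 2 * C3 * p * Real.sqrt p := by rw [hE]; ring
      _ ≤ 2 * C3 * p * (1 / (4 * C3)) := mul_le_mul_of_nonneg_left h1 (by positivity)
      _ = p / 2 := by field_simp; norm_num
  have hE2 : 2 * E ≤ p * (ηq / (4 * g)) := by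
    have h1 : Real.sqrt p ≤ ηq / (8 * C3 * g) := hspκ.trans (min_le_right _ _)
    calc 2 * E = 2 * C3 * p * Real.sqrt p := by rw [hE]; ring
      _ ≤ 2 * C3 * p * (ηq / (8 * C3 * g)) := mul_le_mul_of_nonneg_left h1 (by positivity)
      _ = _ := by field_simp; norm_num
  set a := al (m + 2) p with ha
  set b := be (m + 2) p with hb
  -- the facet
  have hV1 := VS_pos (m + 1)
  have hV2 := VS_pos (m + 2)
  have hfac : (p + 1) ≤ a + b * (If (m + 1) / VS (m + 1)) + E := by
    have h1 := facet_avg hp (m + 1)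
    rw [VS_eq] at h1
    have hc1 : ContinuousOn (fun q : Fin (m + 1) → ℝ => wt (m + 2) p (jj q)) (Sn (m + 1)) := by
      apply (wt_contS hp).comp jj_cont.continuousOn
      intro q hq
      exact jj_mem hq
    have hc2 : ContinuousOn (fun q : Fin (m + 1) → ℝ => a + E + b * qs (jj q)) (Sn (m + 1)) :=
      (continuous_const.add (continuous_const.mul (qs_cont.comp jj_cont))).continuousOn
    have h2 : ∫ q in Sn (m + 1), wt (m + 2) p (jj q) ≤
        ∫ q in Sn (m + 1), (a + E + b * qs (jj q)) := by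
      apply setIntegral_mono_on (hc1.integrableOn_compact NB_Sn.comp)
        (hc2.integrableOn_compact NB_Sn.comp) NB_Sn.comp.measurableSet
      intro q hq
      have h3 := (abs_le.1 (hex (jj q) (jj_mem hq))).2
      linarith
    have hqi : IntegrableOn (fun q : Fin (m + 1) → ℝ => b * qs (jj q)) (Sn (m + 1)) :=
      ((continuous_const.mul (qs_cont.comp jj_cont)).continuousOn.integrableOn_compact NB_Sn.comp)
    have h4 : ∫ q in Sn (m + 1), (a + E + b * qs (jj q)) = (a + E) * VS (m + 1) +
        b * If (m + 1) := by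
      have hci : IntegrableOn (fun _ : Fin (m + 1) → ℝ => a + E) (Sn (m + 1)) :=
        integrableOn_const NB_Sn.comp.measure_lt_top.ne
      rw [integral_add hci hqi, setIntegral_const,
        integral_const_mul, smul_eq_mul, mul_comm (a + E)]
      rfl
    rw [h4] at h2
    have h5 : (p + 1) * VS (m + 1) ≤ (a + E) * VS (m + 1) + b * If (m + 1) := h1.trans h2
    have h6 : (a + E) * VS (m + 1) + b * If (m + 1) =
        (a + b * (If (m + 1) / VS (m + 1)) + E) * VS (m + 1) := by
      field_simp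
      ring
    rw [h6] at h5
    exact le_of_mul_le_mul_right h5 hV1
  -- the whole simplex
  have hall : a + b * (Iq (m + 2) / VS (m + 2)) - E ≤ 1 := by
    have h1 := th_one (n := m + 2) hp
    have hqi : IntegrableOn (fun x : Fin (m + 2) → ℝ => b * qs x) (Sn (m + 2)) :=
      ((continuous_const.mul qs_cont).continuousOn.integrableOn_compact NB_Sn.comp)
    have h2 : ∫ x in Sn (m + 2), (a - E + b * qs x) ≤ ∫ x in Sn (m + 2), wt (m + 2) p x := by
      apply setIntegral_mono_on ((integrableOn_const NB_Sn.comp.measure_lt_top.ne).add hqi)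
        (wt_intS hp) NB_Sn.comp.measurableSet
      intro x hx
      have h3 := (abs_le.1 (hex x hx)).1
      simp only [Pi.add_apply]
      linarith
    have h4 : ∫ x in Sn (m + 2), (a - E + b * qs x) = (a - E) * VS (m + 2) + b * Iq (m + 2) := by
      have hci : IntegrableOn (fun _ : Fin (m + 2) → ℝ => a - E) (Sn (m + 2)) :=
        integrableOn_const NB_Sn.comp.measure_lt_top.ne
      rw [integral_add hci hqi, setIntegral_const,
        integral_const_mul, smul_eq_mul, mul_comm (a - E)]
      rfl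
    rw [h4, h1] at h2
    have h6 : (a - E) * VS (m + 2) + b * Iq (m + 2) =
        (a + b * (Iq (m + 2) / VS (m + 2)) - E) * VS (m + 2) := by
      field_simp
      ring
    rw [h6] at h2
    have h7 : (a + b * (Iq (m + 2) / VS (m + 2)) - E) * VS (m + 2) ≤ 1 * VS (m + 2) := by
      rw [one_mul]; exact h2
    exact le_of_mul_le_mul_right h7 hV2
  have hbg : p / 2 ≤ b * g := by
    have h1 : b * g = b * (If (m + 1) / VS (m + 1)) - b * (Iq (m + 2) / VS (m + 2)) := by
      rw [hgdef]; unfold gapq; ring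
    rw [h1]
    linarith
  have hb0 : 0 < b := by
    have : 0 < b * g := by linarith
    exact (pos_iff_pos_of_mul_pos this).2 hg
  have hbη : p * (ηq / (2 * g)) ≤ b * ηq := by
    have h1 : p / 2 * (ηq / g) ≤ b * g * (ηq / g) :=
      mul_le_mul_of_nonneg_right hbg (by positivity)
    have h2 : b * g * (ηq / g) = b * ηq := by field_simp
    have h3 : p / 2 * (ηq / g) = p * (ηq / (2 * g)) := by field_simp
    rw [h2, h3] at h1
    exact h1
  -- outside the body
  set d : ℝ := (volume (Sn (m + 2) \ K)).toReal with hd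
  have hd0 : 0 ≤ d := ENNReal.toReal_nonneg
  have hAm : MeasurableSet (Sn (m + 2) \ K) :=
    NB_Sn.comp.measurableSet.diff hK.comp.measurableSet
  have hAlt : volume (Sn (m + 2) \ K) ≠ ⊤ :=
    ((measure_mono sdiff_subset).trans_lt (NB_Sn (n := m + 2)).comp.measure_lt_top).ne
  have hqA := hq K hK hKS hgK hcen
  rw [← hd] at hqA
  have hqi : IntegrableOn (fun x : Fin (m + 2) → ℝ => b * qs x) (Sn (m + 2) \ K) :=
    ((continuous_const.mul qs_cont).continuousOn.integrableOn_compact NB_Sn.comp).mono_set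
      sdiff_subset
  have hA : (a - E) * d + b * ∫ x in Sn (m + 2) \ K, qs x ≤
      ∫ x in Sn (m + 2) \ K, wt (m + 2) p x := by
    have h2 : ∫ x in Sn (m + 2) \ K, (a - E + b * qs x) ≤
        ∫ x in Sn (m + 2) \ K, wt (m + 2) p x := by
      apply setIntegral_mono_on ((integrableOn_const hAlt).add hqi)
        ((wt_intS hp).mono_set sdiff_subset) hAm
      intro x hx
      have h3 := (abs_le.1 (hex x hx.1)).1
      simp only [Pi.add_apply]
      linarith
    have h4 : ∫ x in Sn (m + 2) \ K, (a - E + b * qs x) = (a - E) * d +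
        b * ∫ x in Sn (m + 2) \ K, qs x := by
      have hci : IntegrableOn (fun _ : Fin (m + 2) → ℝ => a - E) (Sn (m + 2) \ K) :=
        integrableOn_const hAlt
      rw [integral_add hci hqi, setIntegral_const,
        integral_const_mul, smul_eq_mul, mul_comm (a - E)]
      rfl
    rw [h4] at h2
    exact h2
  have h8 : b * ((If (m + 1) / VS (m + 1) + ηq) * d) ≤ b * ∫ x in Sn (m + 2) \ K, qs x :=
    mul_le_mul_of_nonneg_left hqA hb0.le
  have h9 : (p + 1 + p * (ηq / (4 * g))) * d ≤
      (a - E) * d + b * ((If (m + 1) / VS (m + 1) + ηq) * d) := by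
    have h10 : (a - E) * d + b * ((If (m + 1) / VS (m + 1) + ηq) * d) =
        (a - E + b * (If (m + 1) / VS (m + 1)) + b * ηq) * d := by ring
    rw [h10]
    apply mul_le_mul_of_nonneg_right _ hd0
    have h11 : p * (ηq / (2 * g)) = p * (ηq / (4 * g)) + p * (ηq / (4 * g)) := by
      field_simp
      ring
    linarith
  linarith

end Pool.Agent.N563.UL
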