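import Pool.Agent.N563.UL.U4

set_option autoImplicit false

/-!
The first order inequality for `p` in a compact interval, and for all `p ∈ (0, P]` (helper563).
-/

open MeasureTheory Set Filter
open scoped ENNReal Topology Matrix

namespace Pool.Agent.N563.UL

open Pool.Agent.H131R5.LM Pool.Agent.H131R5.LC Pool.Agent.W679.B
open H801NS H801NS.TENS

variable {n m : ℕ} {p : ℝ}

lemma Zf_scale (p : ℝ) (y : Fin n → ℝ) : Zf n p y = Zf n 1 (p • y) := by
  unfold Zf
  congr 1
  funext x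
  rw [dotProduct_smul, smul_eq_mul, one_mul]

/-- bounds for the integrand of the weight, uniform on compact sets of `p` -/
lemma unif_bound (n : ℕ) {a b : ℝ} (ha : 0 < a) (hab : a ≤ b) : ∃ C ε : ℝ, 0 < C ∧ 0 < ε ∧
    ∀ p ∈ Icc a b, (∀ x ∈ Sn n, ∀ y, Real.exp (p * (x ⬝ᵥ y)) * Zf n p y ^ (-(1 + 1 / p)) ≤
      C * Real.exp (-(ε * ‖y‖))) ∧
    ∀ y, Zf n p y ^ (-(1 / p)) ≤ C * Real.exp (-(ε * ‖y‖)) := by
  obtain ⟨r, hr, hsup⟩ := supp_ge n
  have hb : 0 < b := ha.trans_le hab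
  set δ : ℝ := 1 / (4 * (b + 1)) with hδ
  have hb1 : 0 < b + 1 := by linarith
  have hδ0 : 0 < δ := by positivity
  have hδ1 : δ < 1 := by
    rw [hδ, div_lt_one (by positivity)]; linarith
  have hδb : δ * (b + 1) = 1 / 4 := by rw [hδ]; field_simp
  set c1 : ℝ := δ ^ n * (volume (Sn n)).toReal with hc1
  have hV := vol_pos' (NB_Sn (n := n)).comp ⟨0, NB_Sn.zero⟩
  have hc10 : 0 < c1 := by positivity
  set D : ℝ := 1 + c1⁻¹ with hD
  have hD1 : 1 ≤ D := by
    have : 0 < c1⁻¹ := by positivity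
    linarith
  have hDa : c1⁻¹ ≤ D := by linarith
  refine ⟨D ^ (1 + 1 / a), r / 2, by positivity, by positivity, fun p hp => ?_⟩
  have hp0 : 0 < p := ha.trans_le hp.1
  have hpa : 1 / p ≤ 1 / a := one_div_le_one_div_of_le ha hp.1
  have h1p : 0 < 1 / p := by positivity
  -- the constants
  have hC1 : c1 ^ (-(1 + 1 / p)) ≤ D ^ (1 + 1 / a) := by
    rw [Real.rpow_neg hc10.le, ← Real.inv_rpow hc10.le]
    calc c1⁻¹ ^ (1 + 1 / p) ≤ D ^ (1 + 1 / p) :=
          Real.rpow_le_rpow (by positivity) hDa (by positivity)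
      _ ≤ _ := Real.rpow_le_rpow_of_exponent_le hD1 (by linarith)
  have hC2 : c1 ^ (-(1 / p)) ≤ D ^ (1 + 1 / a) := by
    rw [Real.rpow_neg hc10.le, ← Real.inv_rpow hc10.le]
    calc c1⁻¹ ^ (1 / p) ≤ D ^ (1 / p) :=
          Real.rpow_le_rpow (by positivity) hDa (by positivity)
      _ ≤ _ := Real.rpow_le_rpow_of_exponent_le hD1 (by linarith)
  have hδp : δ * (p + 1) ≤ 1 / 4 := by
    rw [← hδb]
    exact mul_le_mul_of_nonneg_left (by linarith [hp.2]) hδ0.le
  constructor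
  · intro x hx y
    obtain ⟨x0, hx0, hmax, hrn⟩ := hsup y
    set h := x0 ⬝ᵥ y with hh
    have hrn0 : 0 ≤ r * ‖y‖ := by positivity
    have h0 : 0 ≤ h := hrn0.trans hrn
    have h1 : x ⬝ᵥ y ≤ h := hmax x hx
    have h2 := Zf_ge hp0 hδ0 hδ1 y hx0
    rw [← hc1, ← hh] at h2
    have h3 : Zf n p y ^ (-(1 + 1 / p)) ≤
        (c1 * Real.exp (p * (1 - δ) * h)) ^ (-(1 + 1 / p)) := by
      apply Real.rpow_le_rpow_of_nonpos (by positivity) h2
      linarith
    have h4 : (c1 * Real.exp (p * (1 - δ) * h)) ^ (-(1 + 1 / p)) =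
        c1 ^ (-(1 + 1 / p)) * Real.exp (-((p + 1) * (1 - δ) * h)) := by
      rw [Real.mul_rpow hc10.le (Real.exp_pos _).le, ← Real.exp_mul]
      congr 2
      field_simp
    rw [h4] at h3
    have h5 : Real.exp (p * (x ⬝ᵥ y)) ≤ Real.exp (p * h) := by
      apply Real.exp_le_exp.2
      exact mul_le_mul_of_nonneg_left h1 hp0.le
    have h6 : p * h + -((p + 1) * (1 - δ) * h) ≤ -(r / 2 * ‖y‖) := by
      have e : p * h + -((p + 1) * (1 - δ) * h) = -((1 - δ * (p + 1)) * h) := by ring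
      rw [e]
      have h7 : 3 / 4 * h ≤ (1 - δ * (p + 1)) * h :=
        mul_le_mul_of_nonneg_right (by linarith) h0
      linarith
    calc Real.exp (p * (x ⬝ᵥ y)) * Zf n p y ^ (-(1 + 1 / p))
        ≤ Real.exp (p * h) *
          (c1 ^ (-(1 + 1 / p)) * Real.exp (-((p + 1) * (1 - δ) * h))) := by
          apply mul_le_mul h5 h3 (Real.rpow_nonneg (Zf_pos y).le _) (Real.exp_pos _).le
      _ = c1 ^ (-(1 + 1 / p)) * Real.exp (p * h + -((p + 1) * (1 - δ) * h)) := by
          rw [mul_left_comm, ← Real.exp_add]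
      _ ≤ D ^ (1 + 1 / a) * Real.exp (-(r / 2 * ‖y‖)) := by
          apply mul_le_mul hC1 (Real.exp_le_exp.2 h6) (Real.exp_pos _).le (by positivity)
  · intro y
    obtain ⟨x0, hx0, hmax, hrn⟩ := hsup y
    set h := x0 ⬝ᵥ y with hh
    have hrn0 : 0 ≤ r * ‖y‖ := by positivity
    have h0 : 0 ≤ h := hrn0.trans hrn
    have h2 := Zf_ge hp0 hδ0 hδ1 y hx0
    rw [← hc1, ← hh] at h2
    have h3 : Zf n p y ^ (-(1 / p)) ≤ (c1 * Real.exp (p * (1 - δ) * h)) ^ (-(1 / p)) := by
      apply Real.rpow_le_rpow_of_nonpos (by positivity) h2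
      linarith
    have h4 : (c1 * Real.exp (p * (1 - δ) * h)) ^ (-(1 / p)) =
        c1 ^ (-(1 / p)) * Real.exp (-((1 - δ) * h)) := by
      rw [Real.mul_rpow hc10.le (Real.exp_pos _).le, ← Real.exp_mul]
      congr 2
      field_simp
    rw [h4] at h3
    refine h3.trans ?_
    have hδ2 : δ ≤ 1 / 2 := by
      rw [hδ, div_le_div_iff₀ (by positivity) (by norm_num)]; linarith
    apply mul_le_mul hC2 _ (Real.exp_pos _).le (by positivity)
    apply Real.exp_le_exp.2
    nlinarith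

/-- joint continuity of the Laplace transform in `p` -/
lemma Zf_cont_p (y : Fin n → ℝ) : Continuous fun p : ℝ => Zf n p y := by
  simp_rw [Zf_scale _ y]
  exact (Zf_cont (n := n) (p := 1)).comp (by fun_prop)

/-- joint continuity of the weight -/
lemma wt_joint (n : ℕ) {a b : ℝ} (ha : 0 < a) (hab : a ≤ b) :
    ContinuousOn (fun z : ℝ × (Fin n → ℝ) => wt n z.1 z.2) (Icc a b ×ˢ Sn n) := by
  obtain ⟨C, ε, hC, hε, hbd⟩ := unif_bound n ha hab
  have hp0 : ∀ z ∈ Icc a b ×ˢ Sn n, z.1 ≠ 0 := fun z hz => (ha.trans_le hz.1.1).ne'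
  have hrp : ContinuousOn (fun z : ℝ × (Fin n → ℝ) => 1 / z.1) (Icc a b ×ˢ Sn n) :=
    continuousOn_const.div continuousOn_fst hp0
  have hN : ContinuousOn (fun z : ℝ × (Fin n → ℝ) => Nf n z.1) (Icc a b ×ˢ Sn n) := by
    unfold Nf
    apply continuousOn_of_dominated (bound := fun y => C * Real.exp (-(ε * ‖y‖)))
    · intro z _
      exact (cont_rpow _).aestronglyMeasurable
    · intro z hz
      filter_upwards with y
      rw [Real.norm_eq_abs, abs_of_nonneg (Real.rpow_nonneg (Zf_pos y).le _)]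
      exact (hbd z.1 hz.1).2 y
    · exact (exp_int n hε).const_mul C
    · filter_upwards with y
      exact ((Zf_cont_p y).comp continuous_fst).continuousOn.rpow hrp.neg
        fun z _ => Or.inl (Zf_pos y).ne'
  have hI : ContinuousOn (fun z : ℝ × (Fin n → ℝ) => ∫ y, wi n z.1 z.2 y)
      (Icc a b ×ˢ Sn n) := by
    apply continuousOn_of_dominated (bound := fun y => C * Real.exp (-(ε * ‖y‖)))
    · intro z _
      exact (wi_cont_y z.2).aestronglyMeasurable
    · intro z hz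
      filter_upwards with y
      rw [Real.norm_eq_abs, abs_of_nonneg (wi_nonneg z.2 y)]
      exact (hbd z.1 hz.1).1 z.2 hz.2 y
    · exact (exp_int n hε).const_mul C
    · filter_upwards with y
      unfold wi
      apply ContinuousOn.mul
      · apply Continuous.continuousOn
        unfold dotProduct
        fun_prop
      · exact ((Zf_cont_p y).comp continuous_fst).continuousOn.rpow
          (continuousOn_const.add hrp).neg fun z _ => Or.inl (Zf_pos y).ne'
  unfold wt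
  apply ContinuousOn.mul _ hI
  apply continuousOn_const.div hN
  intro z hz
  exact (Nf_pos (ha.trans_le hz.1.1)).ne'

/-- the class of bodies close to the centred simplex, in extremal position -/
def Cls (m : ℕ) (ε : ℝ) (K : Set (Fin (m + 2) → ℝ)) : Prop :=
  NB K ∧ K ⊆ Sn (m + 2) ∧ (∀ x ∈ Sn (m + 2), gauge K x ≤ 1 + ε) ∧
    ∀ i : Fin (m + 3), R (Equiv.swap 0 i) (jj 0) ∈ K

lemma Cls.mono {ε ε' : ℝ} (h : ε ≤ ε') {K : Set (Fin (m + 2) → ℝ)} (hK : Cls m ε K) :
    Cls m ε' K :=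
  ⟨hK.1, hK.2.1, fun x hx => (hK.2.2.1 x hx).trans (by linarith), hK.2.2.2⟩

/-- **`p` in a compact interval** -/
theorem mid (m : ℕ) {a b : ℝ} (ha : 0 < a) (hab : a ≤ b) : ∃ ε η : ℝ, 0 < ε ∧ 0 < η ∧
    ∀ p ∈ Icc a b, ∀ K : Set (Fin (m + 2) → ℝ), Cls m ε K →
      (p + 1 + η) * (volume (Sn (m + 2) \ K)).toReal ≤
        ∫ x in Sn (m + 2) \ K, wt (m + 2) p x := by
  have hcomp : IsCompact (Icc a b ×ˢ Sn (m + 2)) := isCompact_Icc.prod NB_Sn.comp
  have hjc := wt_joint (m + 2) ha hab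
  have huc := hcomp.uniformContinuousOn_of_continuous hjc
  rw [Metric.uniformContinuousOn_iff] at huc
  set P : Set ℝ → Prop := fun t => ∃ ε η : ℝ, 0 < ε ∧ 0 < η ∧
    ∀ p ∈ t, p ∈ Icc a b → ∀ K : Set (Fin (m + 2) → ℝ), Cls m ε K →
      (p + 1 + η) * (volume (Sn (m + 2) \ K)).toReal ≤
        ∫ x in Sn (m + 2) \ K, wt (m + 2) p x with hP
  have hPI : P (Icc a b) := by
    apply isCompact_Icc.induction_on (p := P)
    · exact ⟨1, 1, one_pos, one_pos, fun p hp => absurd hp (notMem_empty p)⟩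
    · rintro s t hst ⟨ε, η, hε, hη, h⟩
      exact ⟨ε, η, hε, hη, fun p hp => h p (hst hp)⟩
    · rintro s t ⟨ε, η, hε, hη, h⟩ ⟨ε', η', hε', hη', h'⟩
      refine ⟨min ε ε', min η η', lt_min hε hε', lt_min hη hη', fun p hp hpI K hK => ?_⟩
      have hd0 : 0 ≤ (volume (Sn (m + 2) \ K)).toReal := ENNReal.toReal_nonneg
      rcases hp with hp | hp
      · refine le_trans ?_ (h p hp hpI K (hK.mono (min_le_left _ _)))
        apply mul_le_mul_of_nonneg_right _ hd0
        linarith [min_le_left η η']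
      · refine le_trans ?_ (h' p hp hpI K (hK.mono (min_le_right _ _)))
        apply mul_le_mul_of_nonneg_right _ hd0
        linarith [min_le_right η η']
    · intro p0 hp0
      have hpp : 0 < p0 := ha.trans_le hp0.1
      obtain ⟨ε, η, hε, hη, h⟩ := first_order (wt (m + 2) p0) (sm_pos hpp) (wt_convex hpp)
        (wt_cont hpp) wt_Sy (fun x hx hx0 a b ha hab hb => wt_ray hpp hx hx0 ha hab hb)
        (facet_avg hpp (m + 1))
      obtain ⟨δ, hδ, hun⟩ := huc (η / 4) (by positivity)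
      refine ⟨Metric.ball p0 (min δ (η / 4)) ∩ Icc a b, ?_, ε, η / 2, hε, by positivity, ?_⟩
      · rw [inter_comm]
        exact inter_mem_nhdsWithin _ (Metric.ball_mem_nhds p0 (lt_min hδ (by positivity)))
      intro p hp hpI K hK
      obtain ⟨hNB, hKS, hg, hcen⟩ := hK
      have hpos : 0 < p := ha.trans_le hpI.1
      have hdist : dist p p0 < min δ (η / 4) := hp.1
      have hd1 : dist p p0 < δ := hdist.trans_le (min_le_left _ _)
      have hd2 : |p - p0| < η / 4 := by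
        rw [← Real.dist_eq]
        exact hdist.trans_le (min_le_right _ _)
      have h1 := h K hNB hKS hg hcen
      have hAm : MeasurableSet (Sn (m + 2) \ K) :=
        NB_Sn.comp.measurableSet.diff hNB.comp.measurableSet
      have hAlt : volume (Sn (m + 2) \ K) ≠ ⊤ :=
        ((measure_mono sdiff_subset).trans_lt (NB_Sn (n := m + 2)).comp.measure_lt_top).ne
      set d : ℝ := (volume (Sn (m + 2) \ K)).toReal with hd
      have hd0 : 0 ≤ d := ENNReal.toReal_nonneg
      have h2 : ∫ x in Sn (m + 2) \ K, (wt (m + 2) p0 x - η / 4) ≤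
          ∫ x in Sn (m + 2) \ K, wt (m + 2) p x := by
        apply setIntegral_mono_on (((wt_intS hpp).mono_set sdiff_subset).sub
          (integrableOn_const hAlt)) ((wt_intS hpos).mono_set sdiff_subset) hAm
        intro x hx
        have h3 := hun (p, x) ⟨hpI, hx.1⟩ (p0, x) ⟨hp0, hx.1⟩ (by
          rw [Prod.dist_eq, dist_self]
          exact max_lt hd1 hδ)
        rw [Real.dist_eq] at h3
        have h4 := (abs_lt.1 h3).1
        simp only [Pi.sub_apply] at h4 ⊢
        linarith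
      rw [integral_sub ((wt_intS hpp).mono_set sdiff_subset) (integrableOn_const hAlt),
        setIntegral_const, smul_eq_mul] at h2
      have h5 : (volume.real (Sn (m + 2) \ K)) = d := rfl
      rw [h5] at h2
      have h6 := (abs_lt.1 hd2).2
      have h7 : (p + 1 + η / 2) * d ≤ (p0 + 1 + η) * d - d * (η / 4) := by
        have h8 : (p0 + 1 + η) * d - d * (η / 4) = (p0 + 1 + η - η / 4) * d := by ring
        rw [h8]
        apply mul_le_mul_of_nonneg_right _ hd0
        linarith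
      linarith
  obtain ⟨ε, η, hε, hη, h⟩ := hPI
  exact ⟨ε, η, hε, hη, fun p hp K hK => h p hp hp K hK⟩

/-- **all `p ∈ (0, P]` at once** -/
theorem allp (m : ℕ) {P : ℝ} (hP : 0 < P) : ∃ ε η : ℝ, 0 < ε ∧ 0 < η ∧
    ∀ p : ℝ, 0 < p → p ≤ P → ∀ K : Set (Fin (m + 2) → ℝ), Cls m ε K →
      (p + 1 + p * η) * (volume (Sn (m + 2) \ K)).toReal ≤
        ∫ x in Sn (m + 2) \ K, wt (m + 2) p x := by
  obtain ⟨ε1, η1, p1, hε1, hη1, hp1, h1⟩ := small m
  obtain ⟨ε2, η2, hε2, hη2, h2⟩ := mid m (lt_min hp1 hP) (min_le_right p1 P)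
  refine ⟨min ε1 ε2, min η1 (η2 / P), lt_min hε1 hε2, lt_min hη1 (by positivity), ?_⟩
  intro p hp hpP K hK
  have hd0 : 0 ≤ (volume (Sn (m + 2) \ K)).toReal := ENNReal.toReal_nonneg
  rcases le_or_gt p p1 with hc | hc
  · obtain ⟨hNB, hKS, hg, hcen⟩ := hK.mono (min_le_left ε1 ε2)
    refine le_trans ?_ (h1 p hp hc K hNB hKS hg hcen)
    apply mul_le_mul_of_nonneg_right _ hd0
    have := mul_le_mul_of_nonneg_left (min_le_left η1 (η2 / P)) hp.le
    linarith
  · refine le_trans ?_ (h2 p ⟨(min_le_left _ _).trans hc.le, hpP⟩ K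
      (hK.mono (min_le_right ε1 ε2)))
    apply mul_le_mul_of_nonneg_right _ hd0
    have h3 := mul_le_mul_of_nonneg_left (min_le_right η1 (η2 / P)) hp.le
    have h4 : p * (η2 / P) ≤ P * (η2 / P) := mul_le_mul_of_nonneg_right hpP (by positivity)
    have h5 : P * (η2 / P) = η2 := by field_simp
    linarith

end Pool.Agent.N563.UL
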