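import Pool.Agent.N563.UL.U5
import Pool.Agent.TH649.LOC.All

set_option autoImplicit false

/-!
Local minimality of the simplex, uniformly in `p ∈ (0, ∞)` (helper563; the reduction to the
normalised position follows `Pool.Agent.TH692.LOC_LOCAL`).
-/

open MeasureTheory Set Filter Module
open scoped ENNReal Topology Matrix

namespace Pool.Agent.N563.UL

open Pool.Agent.H131R5.LM Pool.Agent.H131R5.LC Pool.Agent.W679.B
open H801NS H801NS.TENS

variable {n m : ℕ} {p : ℝ}

/-- the reduction to the normalised position -/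
theorem reduce (m : ℕ) {ε : ℝ} (hε : 0 < ε) : ∃ δ : ℝ, 0 < δ ∧
    ∀ K : Set (Fin (m + 2) → ℝ), IsCompact K → Convex ℝ K → (interior K).Nonempty →
    ∀ Q : Finset (Fin (m + 2) → ℝ), Q.card ≤ m + 2 + 1 →
      K ⊆ convexHull ℝ (Q : Set (Fin (m + 2) → ℝ)) →
      volume (convexHull ℝ (Q : Set (Fin (m + 2) → ℝ))) ≤ ENNReal.ofReal (1 + δ) * volume K →
      ∃ (e : (Fin (m + 2) → ℝ) ≃ₗ[ℝ] (Fin (m + 2) → ℝ)) (b : Fin (m + 2) → ℝ),
        Cls m ε ((fun x => x - b) '' (e '' K)) := by
  obtain ⟨δ', hδ', hclose⟩ := close (m + 2) (ε := ε / (1 + ε)) (by positivity)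
    (by rw [div_lt_one (by positivity)]; linarith)
  have hV := VS_pos (m + 2)
  set V := VS (m + 2) with hVdef
  refine ⟨δ' / V, by positivity, ?_⟩
  set δ := δ' / V with hδ
  have hδ0 : 0 < δ := by positivity
  intro K hKc hKv hKi Q hQ hKQ hvol
  have hQi : (interior (convexHull ℝ (Q : Set (Fin (m + 2) → ℝ)))).Nonempty :=
    hKi.mono (interior_mono hKQ)
  obtain ⟨M, x0, hM⟩ := simplex_param Q hQ hQi
  have hκ : 0 < (volume K).toReal := vol_pos' hKc hKi
  have hKfin : volume K ≠ ⊤ := hKc.measure_lt_top.ne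
  -- the volume of the hull of `Q`
  set dM : ℝ := |LinearMap.det (M : (Fin (m + 2) → ℝ) →ₗ[ℝ] (Fin (m + 2) → ℝ))| with hdM
  have hdM0 : 0 < dM := abs_pos.2 (LinearEquiv.isUnit_det' M).ne_zero
  have hvQ : (volume (convexHull ℝ (Q : Set (Fin (m + 2) → ℝ)))).toReal = dM * V := by
    have h1 : (fun c => x0 + M c) '' Sn (m + 2) = (fun c => x0 + c) '' (M '' Sn (m + 2)) := by
      rw [image_image]
    have h2 : volume (M '' Sn (m + 2)) = ENNReal.ofReal dM * volume (Sn (m + 2)) :=
      Measure.addHaar_image_linearMap (μ := (volume : Measure (Fin (m + 2) → ℝ)))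
        (M : (Fin (m + 2) → ℝ) →ₗ[ℝ] (Fin (m + 2) → ℝ)) (Sn (m + 2))
    rw [hM, h1, image_add_left, measure_preimage_add, h2, ENNReal.toReal_mul,
      ENNReal.toReal_ofReal hdM0.le]
    rfl
  have hvol' : dM * V ≤ (1 + δ) * (volume K).toReal := by
    rw [← hvQ]
    have h1 := ENNReal.toReal_mono (ENNReal.mul_ne_top ENNReal.ofReal_ne_top hKfin) hvol
    rwa [ENNReal.toReal_mul, ENNReal.toReal_ofReal (by positivity)] at h1
  -- the extremal position
  obtain ⟨A, b, hA1, hA2⟩ := exists_extremal hKi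
  set Ml : (Fin (m + 2) → ℝ) →L[ℝ] (Fin (m + 2) → ℝ) :=
    LinearMap.toContinuousLinearMap (M.symm : (Fin (m + 2) → ℝ) →ₗ[ℝ] (Fin (m + 2) → ℝ)) with hMl
  have hMldet : |Ml.det| = dM⁻¹ := by
    have h1 : Ml.det = LinearMap.det (M.symm : (Fin (m + 2) → ℝ) →ₗ[ℝ] (Fin (m + 2) → ℝ)) := rfl
    have h2 := LinearEquiv.det_mul_det_symm M
    have h3 : LinearMap.det (M.symm : (Fin (m + 2) → ℝ) →ₗ[ℝ] (Fin (m + 2) → ℝ)) =
        (LinearMap.det (M : (Fin (m + 2) → ℝ) →ₗ[ℝ] (Fin (m + 2) → ℝ)))⁻¹ := by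
      exact eq_inv_of_mul_eq_one_right h2
    rw [h1, h3, abs_inv]
  have hMin : ∀ x ∈ K, Ml x + -(M.symm x0) ∈ Sn (m + 2) := by
    intro x hx
    have h1 := hKQ hx
    rw [hM] at h1
    obtain ⟨c, hc, rfl⟩ := h1
    have h2 : Ml (x0 + M c) + -(M.symm x0) = c := by
      change M.symm (x0 + M c) + -(M.symm x0) = c
      rw [map_add, M.symm_apply_apply]; abel
    simp only
    rw [h2]
    exact hc
  have hdA : dM⁻¹ ≤ |A.det| := by
    rw [← hMldet]; exact hA2 Ml _ hMin
  have hdA0 : 0 < |A.det| := lt_of_lt_of_le (inv_pos.2 hdM0) hdA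
  set Al : (Fin (m + 2) → ℝ) →ₗ[ℝ] (Fin (m + 2) → ℝ) := A.toLinearMap with hAl
  have hAldet : LinearMap.det Al = A.det := rfl
  have hAne : LinearMap.det Al ≠ 0 := by rw [hAldet]; exact abs_pos.1 hdA0
  set e : (Fin (m + 2) → ℝ) ≃ₗ[ℝ] (Fin (m + 2) → ℝ) := LinearMap.equivOfDetNeZero Al hAne with he
  have hecoe : (e : (Fin (m + 2) → ℝ) →ₗ[ℝ] (Fin (m + 2) → ℝ)) = Al := by
    ext x : 1
    rfl
  have heapp : ∀ x, e x = A x := fun x => rfl
  set K' : Set (Fin (m + 2) → ℝ) := (fun x => x - -b) '' (e '' K) with hK'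
  have hK'mem : ∀ y, y ∈ K' ↔ ∃ x ∈ K, A x + b = y := by
    intro y
    rw [hK', image_image]
    constructor
    · rintro ⟨x, hx, rfl⟩; exact ⟨x, hx, by simp only [heapp, sub_neg_eq_add]⟩
    · rintro ⟨x, hx, rfl⟩; exact ⟨x, hx, by simp only [heapp, sub_neg_eq_add]⟩
  have heKc : IsCompact (e '' K) := hKc.image (LinearMap.continuous_of_finiteDimensional _)
  have hK'c : IsCompact K' := heKc.image (by fun_prop)
  have hK'v : Convex ℝ K' := by
    have h1 : Convex ℝ (e '' K) := hKv.linear_image e.toLinearMap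
    have h2 := h1.translate b
    have h3 : (fun z => b + z) '' (e '' K) = K' := by
      rw [hK']
      refine image_congr fun z _ => ?_
      abel
    rwa [h3] at h2
  have hK'S : K' ⊆ Sn (m + 2) := by
    intro y hy
    obtain ⟨x, hx, rfl⟩ := (hK'mem y).1 hy
    exact hA1 x hx
  have hE : Ext K' := by
    intro A2 b2 h
    set A3 : (Fin (m + 2) → ℝ) →L[ℝ] (Fin (m + 2) → ℝ) :=
      LinearMap.toContinuousLinearMap (A2 ∘ₗ Al) with hA3
    have h1 := hA2 A3 (A2 b + b2) (fun x hx => by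
      have h2 := h (A x + b) ((hK'mem _).2 ⟨x, hx, rfl⟩)
      have h3 : A3 x + (A2 b + b2) = A2 (A x + b) + b2 := by
        change A2 (A x) + (A2 b + b2) = _
        rw [map_add]; abel
      rw [h3]; exact h2)
    have h4 : A3.det = LinearMap.det A2 * A.det := by
      change LinearMap.det (A2 ∘ₗ Al) = _
      rw [LinearMap.det_comp, hAldet]
    rw [h4, abs_mul] at h1
    exact le_of_mul_le_mul_right (by rw [one_mul]; exact h1) hdA0
  -- the volume of the new body
  have hvK' : (volume K').toReal = |A.det| * (volume K).toReal := by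
    rw [hK', vol_sub]
    have h2 : volume (e '' K) = ENNReal.ofReal |A.det| * volume K :=
      Measure.addHaar_image_linearMap (μ := (volume : Measure (Fin (m + 2) → ℝ))) Al K
    rw [h2, ENNReal.toReal_mul, ENNReal.toReal_ofReal (abs_nonneg _)]
  have hVK' : V ≤ (1 + δ) * (volume K').toReal := by
    rw [hvK']
    have h1 : V = dM⁻¹ * (dM * V) := by field_simp
    rw [h1]
    calc dM⁻¹ * (dM * V) ≤ |A.det| * ((1 + δ) * (volume K).toReal) := by
          apply mul_le_mul hdA hvol' (by positivity) (by positivity)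
      _ = _ := by ring
  have hdiff : (volume (Sn (m + 2) \ K')).toReal = V - (volume K').toReal :=
    measureReal_sdiff (μ := volume) hK'S hK'c.measurableSet
      (NB_Sn (n := m + 2)).comp.measure_lt_top.ne
  have hK'V : (volume K').toReal ≤ V := ENNReal.toReal_mono
    (NB_Sn (n := m + 2)).comp.measure_lt_top.ne (measure_mono hK'S)
  have hsmall : (volume (Sn (m + 2) \ K')).toReal < δ' := by
    have h1 : δ * V = δ' := by rw [hδ]; field_simp
    have h2 : 0 < (volume K').toReal := by rw [hvK']; positivity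
    have h3 : (volume K').toReal < V ∨ (volume K').toReal = V := lt_or_eq_of_le hK'V
    rw [hdiff]
    rcases h3 with h3 | h3
    · have h4 : V - (volume K').toReal ≤ δ * (volume K').toReal := by linarith
      have h5 : δ * (volume K').toReal < δ * V := by
        apply mul_lt_mul_of_pos_left h3 hδ0
      linarith
    · rw [h3, sub_self]; exact hδ'
  have hSLK := hclose K' hK'c hK'v hK'S hsmall
  have hL : 1 - ε / (1 + ε) = (1 + ε)⁻¹ := by field_simp; ring
  rw [hL] at hSLK
  have hL0 : 0 < (1 + ε)⁻¹ := by positivity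
  have hNB : NB K' := ⟨hK'c, hK'v, interior_mono hSLK (zero_int_SL hL0)⟩
  have hg : ∀ x ∈ Sn (m + 2), gauge K' x ≤ 1 + ε := by
    intro x hx
    apply gauge_le_of_mem (by positivity)
    refine ⟨(1 + ε)⁻¹ • x, hSLK ((SL_smul hL0 x).2 hx), ?_⟩
    simp only
    rw [smul_smul, mul_inv_cancel₀ (by positivity), one_smul]
  have hcen : ∀ i : Fin (m + 3), R (Equiv.swap 0 i) (jj 0) ∈ K' :=
    fun i => facet_centroids hK'c.isClosed hK'v hK'S hE i
  exact ⟨e, -b, hNB, hK'S, hg, hcen⟩

lemma one_add_pow_ge {t p : ℝ} (ht : 0 ≤ t) (hp : 0 < p) :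
    1 + t / ((1 + t) * p) ≤ (1 + t) ^ (1 / p) := by
  have h1 : 0 < 1 + t := by linarith
  rw [Real.rpow_def_of_pos h1]
  have h2 := Real.add_one_le_exp (Real.log (1 + t) * (1 / p))
  have h3 := Real.one_sub_inv_le_log_of_pos h1
  have h4 : 1 - (1 + t)⁻¹ = t / (1 + t) := by field_simp; ring
  rw [h4] at h3
  have h5 : t / (1 + t) * (1 / p) ≤ Real.log (1 + t) * (1 / p) :=
    mul_le_mul_of_nonneg_right h3 (by positivity)
  have h6 : t / (1 + t) * (1 / p) = t / ((1 + t) * p) := by
    rw [div_mul_div_comm, mul_one]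
  linarith

/-- the quantitative form of the comparison -/
theorem gain {P η : ℝ} (hη : 0 < η) (hp : 0 < p) (hpP : p ≤ P) {K : Set (Fin n → ℝ)}
    (hK : NB K) (hKS : K ⊆ Sn n)
    (h1 : (p + 1 + p * η) * (volume (Sn n \ K)).toReal ≤ ∫ x in Sn n \ K, wt n p x)
    (z : Fin n → ℝ) :
    ENNReal.ofReal (1 + η / (1 + P * η) * (1 - (volume K).toReal / VS n)) * Mp p (Sn n) ≤
      Mp p ((fun x => x - z) '' K) := by
  have hV := VS_pos n
  have hP : 0 < P := hp.trans_le hpP
  have hsub : Sn n ⊆ SL n (1 + sm p) := by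
    rw [← SL_one]; exact SL_mono (by linarith [sm_pos hp])
  have hKsub := hKS.trans hsub
  have e1 : ∫ x in K, wt n p x = VS n - ∫ x in Sn n \ K, wt n p x := by
    have h2 := setIntegral_sdiff hK.comp.measurableSet (wt_intS hp) hKS
    rw [th_one hp] at h2
    linarith
  set d : ℝ := (volume (Sn n \ K)).toReal with hd
  have hd0 : 0 ≤ d := ENNReal.toReal_nonneg
  have e2 : (volume K).toReal = VS n - d := by
    have h2 := measureReal_sdiff (μ := volume) hKS hK.comp.measurableSet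
      (NB_Sn (n := n)).comp.measure_lt_top.ne
    have h3 : volume.real (Sn n \ K) = d := rfl
    have h4 : volume.real (Sn n) = VS n := rfl
    have h5 : volume.real K = (volume K).toReal := rfl
    rw [h3, h4, h5] at h2
    linarith
  have hκ : 0 < (volume K).toReal := vol_pos' hK.comp ⟨0, hK.zero⟩
  set a : ℝ := d / VS n with ha
  have ha0 : 0 ≤ a := by positivity
  have ha1 : a < 1 := by rw [ha, div_lt_one hV]; linarith
  have e3 : (volume K).toReal / VS n = 1 - a := by
    rw [e2, ha, sub_div, div_self hV.ne']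
  have e4 : (volume K).toReal = VS n * (1 - a) := by
    rw [← e3]; field_simp
  have hθ := th_pos hp hK.comp ⟨0, hK.zero⟩ hKsub
  have hth : th n p K ≤ 1 - (p + 1 + p * η) * a := by
    unfold Pool.Agent.W679.B.th
    rw [e1, sub_div, div_self hV.ne', ha]
    have h3 : (p + 1 + p * η) * (d / VS n) ≤
        (∫ x in Sn n \ K, wt n p x) / VS n := by
      rw [← mul_div_assoc]
      exact div_le_div_of_nonneg_right h1 hV.le
    linarith
  have hber : 1 - (p + 1) * a ≤ (1 - a) ^ (p + 1) := by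
    have h3 := one_add_mul_self_le_rpow_one_add (s := -a) (by linarith) (p := p + 1)
      (by linarith)
    have e : 1 + -a = 1 - a := by ring
    rw [e] at h3
    linarith
  set t : ℝ := p * η * a with ht
  have ht0 : 0 ≤ t := by positivity
  have h1t : 0 < 1 + t := by linarith
  have hkey : th n p K * (1 + t) ≤ (1 - a) ^ (p + 1) := by
    refine le_trans ?_ hber
    calc th n p K * (1 + t) ≤ (1 - (p + 1 + p * η) * a) * (1 + t) :=
          mul_le_mul_of_nonneg_right hth h1t.le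
      _ ≤ 1 - (p + 1) * a := by
          have h5 : 0 ≤ (p + 1) * a := by positivity
          have e5 : (1 - (p + 1 + p * η) * a) * (1 + t) =
              1 - (p + 1) * a - (p + 1) * a * t - t * t := by rw [ht]; ring
          rw [e5]
          nlinarith [mul_nonneg h5 ht0, mul_nonneg ht0 ht0]
  have hA := cmp_aux hp hV (show 0 < 1 - a by linarith) (mul_pos hθ h1t) hkey
  rw [Real.mul_rpow hθ.le h1t.le, ← e4] at hA
  have hN := Nf_pos (n := n) hp
  refine le_trans ?_ (jensen hp hK.comp ⟨0, hK.zero⟩ hKsub z)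
  rw [Mp_Sn hp, e3]
  have hc0 : 0 ≤ 1 + η / (1 + P * η) * (1 - (1 - a)) := by
    have h2 : 0 ≤ η / (1 + P * η) * a := by positivity
    have h3 : 1 - (1 - a) = a := by ring
    rw [h3]; linarith
  rw [← ENNReal.ofReal_mul hc0]
  apply ENNReal.ofReal_le_ofReal
  -- the factor
  have hf : 1 + η / (1 + P * η) * (1 - (1 - a)) ≤ (1 + t) ^ (1 / p) := by
    refine le_trans ?_ (one_add_pow_ge ht0 hp)
    have h3 : 1 - (1 - a) = a := by ring
    rw [h3]
    have h4 : t / ((1 + t) * p) = η * a / (1 + t) := by rw [ht]; field_simp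
    have h5 : η / (1 + P * η) * a = η * a / (1 + P * η) := by ring
    rw [h4, h5]
    have h6 : 1 + t ≤ 1 + P * η := by
      have h7 : t ≤ p * η * 1 := mul_le_mul_of_nonneg_left ha1.le (by positivity)
      have h8 : p * η ≤ P * η := mul_le_mul_of_nonneg_right hpP hη.le
      linarith
    have := div_le_div_of_nonneg_left (show 0 ≤ η * a by positivity) h1t h6
    linarith
  have hR : 0 < (1 + t) ^ (1 / p) := Real.rpow_pos_of_pos h1t _
  have hneg : (1 + t) ^ (-(1 / p)) = ((1 + t) ^ (1 / p))⁻¹ := Real.rpow_neg h1t.le _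
  rw [hneg] at hA
  set W : ℝ := (volume K).toReal * ((volume K).toReal ^ (1 / p) * (th n p K ^ (-(1 / p)))) with hW
  have hW0 : 0 ≤ W := by positivity
  have hA2 : VS n * VS n ^ (1 / p) ≤ W * ((1 + t) ^ (1 / p))⁻¹ := by
    refine hA.trans (le_of_eq ?_)
    rw [hW]; ring
  have hA3 : (1 + t) ^ (1 / p) * (VS n * VS n ^ (1 / p)) ≤ W := by
    have := mul_le_mul_of_nonneg_left hA2 hR.le
    calc _ ≤ (1 + t) ^ (1 / p) * (W * ((1 + t) ^ (1 / p))⁻¹) := this
      _ = W := by field_simp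
  have hVV : 0 ≤ VS n * VS n ^ (1 / p) := by positivity
  calc (1 + η / (1 + P * η) * (1 - (1 - a))) * (VS n * (VS n ^ (1 / p) * Nf n p))
      = ((1 + η / (1 + P * η) * (1 - (1 - a))) * (VS n * VS n ^ (1 / p))) * Nf n p := by ring
    _ ≤ ((1 + t) ^ (1 / p) * (VS n * VS n ^ (1 / p))) * Nf n p :=
        mul_le_mul_of_nonneg_right (mul_le_mul_of_nonneg_right hf hVV) hN.le
    _ ≤ W * Nf n p := mul_le_mul_of_nonneg_right hA3 hN.le
    _ = _ := by rw [hW]; ring

end Pool.Agent.N563.UL
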