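import Pool.Agent.N563.UL.U6
import Pool.Agent.N563.SE.Fin
import Pool.Agent.TH111.LOC_GAP

set_option autoImplicit false

/-!
The local theorem with a linear gain, and its limit, the isotropic constant (helper563).
-/

open MeasureTheory Set Filter
open scoped ENNReal Topology Matrix

namespace Pool.Agent.N563.UL

open Pool.Agent.H131R5.LM Pool.Agent.H131R5.LC Pool.Agent.W679.B
open H801NS H801NS.TENS
open Pool.Agent.N563.SE (Body cen cov lin vr lap ff AK Mv LK LK_pos LK_sh sh body_sh infall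
  part_lim vol_sh)

variable {n m : ℕ} {p : ℝ}

lemma body_img {K : Set (Fin n → ℝ)} (hK : Body K) (e : (Fin n → ℝ) ≃ₗ[ℝ] (Fin n → ℝ)) :
    Body (e '' K) := by
  refine ⟨hK.cpt.image (LinearMap.continuous_of_finiteDimensional
    (e : (Fin n → ℝ) →ₗ[ℝ] (Fin n → ℝ))), hK.conv.linear_image e.toLinearMap, ?_⟩
  have h1 : e '' interior K = interior (e '' K) :=
    e.toContinuousLinearEquiv.toHomeomorph.image_interior K
  rw [← h1]
  exact hK.int.image _

lemma Mv_img (hp : 0 < p) {K : Set (Fin n → ℝ)} (hK : Body K)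
    (e : (Fin n → ℝ) ≃ₗ[ℝ] (Fin n → ℝ)) : Mv p (e '' K) = Mv p K :=
  Mp_image hp e hK.cpt hK.int

lemma sh_img (K : Set (Fin n → ℝ)) (e : (Fin n → ℝ) ≃ₗ[ℝ] (Fin n → ℝ)) (z : Fin n → ℝ) :
    sh (e z) (e '' K) = e '' (sh z K) := by
  unfold Pool.Agent.N563.SE.sh
  rw [image_image, image_image]
  exact image_congr fun x _ => (map_sub e x z).symm

lemma infall_img (hp : 0 < p) {K : Set (Fin n → ℝ)} (hK : Body K)
    (e : (Fin n → ℝ) ≃ₗ[ℝ] (Fin n → ℝ)) : infall p (e '' K) = infall p K := by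
  unfold Pool.Agent.N563.SE.infall
  apply le_antisymm
  · refine le_iInf fun z => ?_
    refine (iInf_le _ (e z)).trans (le_of_eq ?_)
    rw [sh_img, Mv_img hp (body_sh hK z)]
  · refine le_iInf fun z => ?_
    refine (iInf_le _ (e.symm z)).trans (le_of_eq ?_)
    have h := sh_img K e (e.symm z)
    rw [e.apply_symm_apply] at h
    rw [h, Mv_img hp (body_sh hK _)]

/-- the isotropic constant is affine invariant -/
theorem LK_img (hn : 1 ≤ n) {K : Set (Fin n → ℝ)} (hK : Body K)
    (e : (Fin n → ℝ) ≃ₗ[ℝ] (Fin n → ℝ)) : LK (e '' K) = LK K := by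
  have h1 := part_lim hn hK
  have h2 := part_lim hn (body_img hK e)
  have h3 : Tendsto (fun p : ℝ => ENNReal.ofReal (Real.sqrt (p / (2 * Real.pi)) ^ n) *
      infall p K) (𝓝[>] 0) (𝓝 (ENNReal.ofReal (1 / LK (e '' K) ^ n))) := by
    refine h2.congr' ?_
    filter_upwards [self_mem_nhdsWithin] with p hp
    rw [infall_img hp hK e]
  have h4 := tendsto_nhds_unique h1 h3
  have hL := LK_pos hK
  have hL' := LK_pos (body_img hK e)
  rw [ENNReal.ofReal_eq_ofReal_iff (by positivity) (by positivity)] at h4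
  have h5 : LK K ^ n = LK (e '' K) ^ n := by
    have h6 : (1 / LK K ^ n)⁻¹ = (1 / LK (e '' K) ^ n)⁻¹ := by rw [h4]
    rwa [one_div, one_div, inv_inv, inv_inv] at h6
  exact (pow_left_inj₀ hL'.le hL.le (by omega)).1 h5.symm

lemma sh_zero (K : Set (Fin n → ℝ)) : sh 0 K = K := by
  unfold Pool.Agent.N563.SE.sh
  simp

lemma infall_le (p : ℝ) (K : Set (Fin n → ℝ)) : infall p K ≤ Mv p K := by
  unfold Pool.Agent.N563.SE.infall
  have h := iInf_le (fun z => Mv p (sh z K)) 0
  rwa [sh_zero] at h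

lemma NB_body {K : Set (Fin n → ℝ)} (hK : NB K) : Body K := ⟨hK.comp, hK.conv, ⟨0, hK.zero⟩⟩

/-- passing to the limit in an inequality for all small `p` -/
theorem lim_LK (hn : 1 ≤ n) {K D : Set (Fin n → ℝ)} (hK : Body K) (hD : Body D) {c P : ℝ}
    (hc : 0 < c) (hP : 0 < P)
    (h : ∀ p : ℝ, 0 < p → p ≤ P → ∀ z, ENNReal.ofReal c * Mv p D ≤ Mv p (sh z K)) :
    c * LK K ^ n ≤ LK D ^ n := by
  have h1 := part_lim hn hK
  have h2 := part_lim hn hD
  have hL := LK_pos hK
  have hL' := LK_pos hD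
  have h3 : Tendsto (fun p : ℝ => ENNReal.ofReal c *
      (ENNReal.ofReal (Real.sqrt (p / (2 * Real.pi)) ^ n) * infall p D)) (𝓝[>] 0)
      (𝓝 (ENNReal.ofReal c * ENNReal.ofReal (1 / LK D ^ n))) :=
    ENNReal.Tendsto.const_mul h2 (Or.inr ENNReal.ofReal_ne_top)
  have h4 : ENNReal.ofReal c * ENNReal.ofReal (1 / LK D ^ n) ≤ ENNReal.ofReal (1 / LK K ^ n) := by
    refine le_of_tendsto_of_tendsto h3 h1 ?_
    have h5 : ∀ᶠ p : ℝ in 𝓝[>] 0, p < P := by
      apply eventually_nhdsWithin_of_eventually_nhds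
      exact eventually_lt_nhds hP
    filter_upwards [self_mem_nhdsWithin, h5] with p hp hpP
    have hp0 : 0 < p := hp
    rw [mul_left_comm]
    apply mul_le_mul_right
    refine le_iInf fun z => ?_
    exact (mul_le_mul_right (infall_le p D) _).trans (h p hp0 hpP.le z)
  rw [← ENNReal.ofReal_mul hc.le, ENNReal.ofReal_le_ofReal_iff (by positivity)] at h4
  rw [mul_one_div, div_le_div_iff₀ (by positivity) (by positivity), one_mul] at h4
  exact h4

/-- **the local theorem with a linear gain** -/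
theorem local_gain (m : ℕ) {P : ℝ} (hP : 0 < P) : ∃ δ η : ℝ, 0 < δ ∧ 0 < η ∧
    ∀ K : Set (Fin (m + 2) → ℝ), IsCompact K → Convex ℝ K → (interior K).Nonempty →
    ∀ Q : Finset (Fin (m + 2) → ℝ), Q.card ≤ m + 2 + 1 →
      K ⊆ convexHull ℝ (Q : Set (Fin (m + 2) → ℝ)) →
      volume (convexHull ℝ (Q : Set (Fin (m + 2) → ℝ))) ≤ ENNReal.ofReal (1 + δ) * volume K →
      ∃ T : Finset (Fin (m + 2) → ℝ), T.card ≤ m + 2 + 1 ∧
        K ⊆ convexHull ℝ (T : Set (Fin (m + 2) → ℝ)) ∧
        ((volume K).toReal = (volume (convexHull ℝ (T : Set (Fin (m + 2) → ℝ)))).toReal →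
          K = convexHull ℝ (T : Set (Fin (m + 2) → ℝ))) ∧
        (∀ p : ℝ, 0 < p → p ≤ P →
          ENNReal.ofReal (1 + η * (1 - (volume K).toReal /
            (volume (convexHull ℝ (T : Set (Fin (m + 2) → ℝ)))).toReal)) * Mp p (Sn (m + 2)) ≤
            Mp p K) ∧
        (1 + η * (1 - (volume K).toReal /
            (volume (convexHull ℝ (T : Set (Fin (m + 2) → ℝ)))).toReal)) * LK K ^ (m + 2) ≤
            LK (Sn (m + 2)) ^ (m + 2) := by
  obtain ⟨ε, η, hε, hη, hall⟩ := allp m hP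
  obtain ⟨δ, hδ, hred⟩ := reduce m hε
  refine ⟨δ, η / (1 + P * η), hδ, by positivity, ?_⟩
  intro K hKc hKv hKi Q hQ hKQ hvol
  obtain ⟨e, b, hC⟩ := hred K hKc hKv hKi Q hQ hKQ hvol
  have hBK : Body K := ⟨hKc, hKv, hKi⟩
  set K' : Set (Fin (m + 2) → ℝ) := (fun x => x - b) '' (e '' K) with hK'
  obtain ⟨T, hT, hTe⟩ := simplex_hull e.symm (e.symm b)
  obtain ⟨hNB, hK'S, hgau, hcen⟩ := hC
  have hback : (fun x => x - -b) '' K' = e '' K := by
    rw [hK', image_image]
    simp
  have heK : (interior (e '' K)).Nonempty := (body_img hBK e).int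
  have hdet : (0 : ℝ) < |LinearMap.det (e : (Fin (m + 2) → ℝ) →ₗ[ℝ] (Fin (m + 2) → ℝ))| :=
    abs_pos.2 (LinearEquiv.isUnit_det' e).ne_zero
  set dt := |LinearMap.det (e : (Fin (m + 2) → ℝ) →ₗ[ℝ] (Fin (m + 2) → ℝ))| with hdt
  -- volumes
  have hvi : ∀ L : Set (Fin (m + 2) → ℝ), (volume (e '' L)).toReal = dt * (volume L).toReal := by
    intro L
    rw [Pool.Agent.TH111.LOC_GAP.vol_image, ENNReal.toReal_mul, ENNReal.toReal_ofReal hdet.le]
  have hvK' : (volume K').toReal = dt * (volume K).toReal := by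
    rw [hK', vol_sub, hvi]
  have hV := VS_pos (m + 2)
  set C := convexHull ℝ (T : Set (Fin (m + 2) → ℝ)) with hCdef
  have heC : e '' C = (fun x => x - -b) '' Sn (m + 2) := by
    rw [← hTe, image_image]
    refine image_congr fun c _ => ?_
    rw [map_add, e.apply_symm_apply, e.apply_symm_apply]
    abel
  have hvC : dt * (volume C).toReal = VS (m + 2) := by
    rw [← hvi, heC, vol_sub]
    rfl
  have hC0 : 0 < (volume C).toReal := by
    by_contra hcon
    have h0 : (volume C).toReal = 0 := le_antisymm (not_lt.1 hcon) ENNReal.toReal_nonneg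
    rw [h0, mul_zero] at hvC
    linarith
  have hratio : (volume K').toReal / VS (m + 2) = (volume K).toReal / (volume C).toReal := by
    rw [hvK', ← hvC]
    exact mul_div_mul_left _ _ hdet.ne'
  have hMpK : ∀ p : ℝ, 0 < p → Mp p ((fun x => x - -b) '' K') = Mp p K := by
    intro p hp
    rw [hback]
    exact Mp_image hp e hKc hKi
  have hgain : ∀ p : ℝ, 0 < p → p ≤ P → ∀ z, ENNReal.ofReal (1 + η / (1 + P * η) *
      (1 - (volume K).toReal / (volume C).toReal)) * Mp p (Sn (m + 2)) ≤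
      Mp p ((fun x => x - z) '' K') := by
    intro p hp hpP z
    have h := gain hη hp hpP hNB hK'S (hall p hp hpP K' ⟨hNB, hK'S, hgau, hcen⟩) z
    rwa [hratio] at h
  have hKC : K ⊆ C := by
    intro x hx
    rw [← hTe]
    refine ⟨e x - b, hK'S ⟨e x, ⟨x, hx, rfl⟩, rfl⟩, ?_⟩
    change e.symm b + e.symm (e x - b) = x
    rw [map_sub, e.symm_apply_apply]
    abel
  refine ⟨T, hT, hKC, ?_, ?_, ?_⟩
  · intro hv
    have hK'V : (volume K').toReal = VS (m + 2) := by rw [hvK', hv, hvC]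
    have hdiff : (volume (Sn (m + 2) \ K')).toReal ≤ 0 := by
      have h1 : (volume (Sn (m + 2) \ K')).toReal = VS (m + 2) - (volume K').toReal :=
        measureReal_sdiff (μ := volume) hK'S hNB.comp.measurableSet
          (NB_Sn (n := m + 2)).comp.measure_lt_top.ne
      rw [h1, hK'V, sub_self]
    have hfull := full_vol hNB.comp.isClosed hK'S hdiff
    have h2 : e '' K = e '' C := by rw [← hback, hfull, heC]
    exact (image_eq_image e.injective).1 h2
  · intro p hp hpP
    rw [← hMpK p hp]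
    exact hgain p hp hpP (-b)
  · have hBK' : Body K' := NB_body hNB
    have hLK : LK K' = LK K := by
      have h1 : K' = sh b (e '' K) := rfl
      rw [h1, LK_sh (body_img hBK e), LK_img (by omega) hBK e]
    rw [← hLK]
    have hvKC : (volume K).toReal ≤ (volume C).toReal := by
      apply ENNReal.toReal_mono _ (measure_mono hKC)
      intro htop
      rw [htop] at hC0
      simp at hC0
    refine lim_LK (by omega) hBK' (bodyS (m + 2)) ?_ hP hgain
    have h3 : 0 ≤ 1 - (volume K).toReal / (volume C).toReal := by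
      rw [sub_nonneg, div_le_one hC0]
      exact hvKC
    have h4 : 0 ≤ η / (1 + P * η) * (1 - (volume K).toReal / (volume C).toReal) :=
      mul_nonneg (by positivity) h3
    linarith

end Pool.Agent.N563.UL
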