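import Pool.Agent.N563.UL.U7

set_option autoImplicit false

/-!
Dependence of the `L^p`-Mahler volume on `p` and on the body (helper563; the symmetric case is in
`Pool.Agent.V11188.LPA.Cont`).
-/

open MeasureTheory Set Filter
open scoped ENNReal Topology Matrix Pointwise

namespace Pool.Agent.N563.UL

open Pool.Agent.H131R5.LM Pool.Agent.H131R5.LC Pool.Agent.W679.B
open H801NS H801NS.TENS
open Pool.Agent.N563.SE (Body cen cov lin vr lap ff AK Mv LK LK_pos LK_sh sh body_sh infall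
  part_lim vol_sh)

variable {n m : ℕ} {p q : ℝ} {K L : Set (Fin n → ℝ)}

/-- the mean of the exponential -/
noncomputable def Em (p : ℝ) (K : Set (Fin n → ℝ)) (y : Fin n → ℝ) : ℝ :=
  (∫ x in K, Real.exp (p * (x ⬝ᵥ y))) / (volume K).toReal

lemma Em_pos (hK : Body K) (p : ℝ) (y : Fin n → ℝ) : 0 < Em p K y :=
  div_pos (int_pos' hK.cpt hK.int p y) (Pool.Agent.N563.SE.Wp hK)

lemma Em_scale (K : Set (Fin n → ℝ)) (hp : 0 < p) (q : ℝ) (y : Fin n → ℝ) :
    Em q K y = Em p K ((q / p) • y) := by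
  unfold Em
  congr 2
  funext x
  rw [dotProduct_smul, smul_eq_mul]
  congr 1
  field_simp

lemma Mp_Em (p : ℝ) (K : Set (Fin n → ℝ)) :
    Mp p K = volume K * ∫⁻ y, ENNReal.ofReal (Em p K y ^ (-(1 / p))) := rfl

lemma Mp_sub_Em (hp : 0 < p) (hK : Body K) (z : Fin n → ℝ) :
    Mp p (sh z K) = volume K * ∫⁻ y, ENNReal.ofReal (Real.exp (z ⬝ᵥ y) * Em p K y ^ (-(1 / p))) :=
  Mp_sub hp hK.cpt hK.int z

lemma Em_meas (hK : Body K) (p : ℝ) : Measurable (Em p K) := by
  have h : Continuous fun y : Fin n → ℝ => ∫ x in K, Real.exp (p * (x ⬝ᵥ y)) := by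
    apply continuous_parametric_integral_of_continuous _ hK.cpt
    unfold Function.uncurry dotProduct
    fun_prop
  exact h.measurable.div_const _

lemma exp_intb (hK : Body K) (p : ℝ) (y : Fin n → ℝ) :
    IntegrableOn (fun x : Fin n → ℝ => Real.exp (p * (x ⬝ᵥ y))) K :=
  (cont_exp_x p y).continuousOn.integrableOn_compact hK.cpt

/-- monotonicity in the exponent -/
theorem Mp_anti (hK : Body K) (hp : 0 < p) (hpq : p ≤ q) : Mp q K ≤ Mp p K := by
  have hq : 0 < q := hp.trans_le hpq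
  rw [Mp_Em, Mp_Em]
  gcongr with y
  have hs0 : 0 ≤ p / q := by positivity
  have hs1 : p / q ≤ 1 := by rw [div_le_one hq]; exact hpq
  have hA := Em_pos hK p y
  have hB := Em_pos hK q y
  have hJ : Em p K y ≤ (Em q K y) ^ (p / q) := by
    have e : (fun x : Fin n → ℝ => Real.exp (q * (x ⬝ᵥ y)) ^ (p / q)) =
        fun x => Real.exp (p * (x ⬝ᵥ y)) := by
      funext x
      rw [← Real.exp_mul]
      congr 1
      field_simp
    have h1 := (Real.concaveOn_rpow hs0 hs1).le_map_set_average (μ := volume) (t := K)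
      (f := fun x : Fin n → ℝ => Real.exp (q * (x ⬝ᵥ y)))
      (Real.continuous_rpow_const hs0).continuousOn isClosed_Ici
      (hK.vol_ne (μ := volume)) hK.cpt.measure_lt_top.ne
      (Eventually.of_forall fun x => (Real.exp_pos _).le)
      (exp_intb hK q y) (by
        have e2 : ((fun x : ℝ => x ^ (p / q)) ∘ fun x : Fin n → ℝ => Real.exp (q * (x ⬝ᵥ y))) =
            fun x => Real.exp (p * (x ⬝ᵥ y)) := e
        rw [e2]
        exact exp_intb hK p y)
    rw [setAverage_eq, setAverage_eq, smul_eq_mul, smul_eq_mul] at h1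
    simp only [e] at h1
    unfold Em
    rw [div_eq_inv_mul, div_eq_inv_mul]
    exact h1
  have h2 := Real.rpow_le_rpow_of_nonpos hA hJ (z := -(1 / p)) (by rw [neg_nonpos]; positivity)
  refine le_trans (le_of_eq ?_) h2
  rw [← Real.rpow_mul hB.le]
  congr 1
  field_simp

lemma lint_smul (f : (Fin n → ℝ) → ℝ≥0∞) (hf : Measurable f) {r : ℝ} (hr : 0 < r) :
    ∫⁻ y, f (r • y) = ENNReal.ofReal ((r ^ n)⁻¹) * ∫⁻ y, f y := by
  have h := Measure.map_addHaar_smul (volume : Measure (Fin n → ℝ)) hr.ne'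
  rw [Module.finrank_fin_fun, abs_of_pos (by positivity)] at h
  have h2 := lintegral_map (μ := (volume : Measure (Fin n → ℝ))) hf
    (measurable_const_smul r : Measurable fun y : Fin n → ℝ => r • y)
  rw [← h2]
  have h3 : Measure.map (fun y : Fin n → ℝ => r • y) volume =
      ENNReal.ofReal ((r ^ n)⁻¹) • (volume : Measure (Fin n → ℝ)) := h
  rw [h3, lintegral_smul_measure, smul_eq_mul]

/-- Jensen's inequality -/
lemma Em_ge (hK : Body K) (y : Fin n → ℝ) : Real.exp (p * (cen K ⬝ᵥ y)) ≤ Em p K y := by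
  have h1 := (convexOn_exp).map_set_average_le (μ := volume) (t := K)
    (f := fun x : Fin n → ℝ => p * (x ⬝ᵥ y)) Real.continuous_exp.continuousOn isClosed_univ
    (hK.vol_ne (μ := volume)) hK.cpt.measure_lt_top.ne
    (Eventually.of_forall fun x => mem_univ _)
    (by
      have := cont_dot' y
      have h2 : Continuous fun x : Fin n → ℝ => p * (x ⬝ᵥ y) := by fun_prop
      exact h2.continuousOn.integrableOn_compact hK.cpt)
    (exp_intb hK p y)
  rw [setAverage_eq, setAverage_eq, smul_eq_mul, smul_eq_mul] at h1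
  have h3 : (volume.real K)⁻¹ * ∫ x in K, p * (x ⬝ᵥ y) = p * (cen K ⬝ᵥ y) := by
    rw [integral_const_mul]
    have h4 := Pool.Agent.N563.SE.lin_cen_int hK y
    have h5 : ∫ x in K, (x ⬝ᵥ y) = (volume K).toReal * (cen K ⬝ᵥ y) := by
      have h6 : ∀ x : Fin n → ℝ, lin y x - lin y (cen K) = x ⬝ᵥ y - cen K ⬝ᵥ y := fun x => by
        rw [linS, linS]
      simp_rw [h6] at h4
      have hc : Continuous fun x : Fin n → ℝ => x ⬝ᵥ y := cont_dot' y
      rw [integral_sub (hK.int_on hc) (hK.int_on continuous_const), setIntegral_const,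
        smul_eq_mul, sub_eq_zero] at h4
      exact h4
    have hW := Pool.Agent.N563.SE.Wp hK
    rw [h5]
    change ((volume K).toReal)⁻¹ * _ = _
    field_simp
  rw [h3] at h1
  refine h1.trans (le_of_eq ?_)
  unfold Em
  rw [div_eq_inv_mul]
  rfl

/-- comparison of two exponents, all positions -/
theorem Mp_scale (hK : Body K) (hq : 0 < q) (hqp : q ≤ p) :
    ENNReal.ofReal ((q / p) ^ n) * infall q K ≤ Mp p K := by
  have hp : 0 < p := hq.trans_le hqp
  set θ : ℝ := q / p with hθ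
  have hθ0 : 0 < θ := by positivity
  have hθ1 : θ ≤ 1 := by rw [hθ, div_le_one hp]; exact hqp
  set z : Fin n → ℝ := (1 - θ) • cen K with hz
  have h1 : infall q K ≤ Mp q (sh z K) := iInf_le _ z
  refine (mul_le_mul_right h1 _).trans ?_
  rw [Mp_sub_Em hq hK, Mp_Em]
  have hm : Measurable fun u : Fin n → ℝ =>
      ENNReal.ofReal (Real.exp (z ⬝ᵥ u) * Em q K u ^ (-(1 / q))) := by
    apply Measurable.ennreal_ofReal
    exact ((cont_dot z).rexp.measurable).mul ((Em_meas hK q).pow_const _)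
  have h2 := lint_smul _ hm (r := θ⁻¹) (by positivity)
  have h3 : ∫⁻ y, ENNReal.ofReal (Real.exp (z ⬝ᵥ (θ⁻¹ • y)) *
      Em q K (θ⁻¹ • y) ^ (-(1 / q))) ≤ ∫⁻ y, ENNReal.ofReal (Em p K y ^ (-(1 / p))) := by
    gcongr with y
    have e1 : Em p K y = Em q K (θ⁻¹ • y) := by
      rw [Em_scale K hq p y, hθ, inv_div]
    rw [e1]
    set u := θ⁻¹ • y with hu
    have hE := Em_pos hK q u
    have hge := Em_ge (p := q) hK u
    have h4 : -(1 / p) = -(1 / q) + (1 / q - 1 / p) := by ring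
    have h5 : 0 ≤ 1 / q - 1 / p := by
      rw [sub_nonneg]; exact one_div_le_one_div_of_le hq hqp
    rw [h4, Real.rpow_add hE, mul_comm (Real.exp _)]
    apply mul_le_mul_of_nonneg_left _ (Real.rpow_nonneg hE.le _)
    have h6 := Real.rpow_le_rpow (Real.exp_pos _).le hge h5
    refine le_trans (le_of_eq ?_) h6
    rw [← Real.exp_mul]
    congr 1
    rw [hz, smul_dotProduct, smul_eq_mul, hθ]
    field_simp
  rw [h2] at h3
  calc ENNReal.ofReal (θ ^ n) * (volume K * ∫⁻ u, ENNReal.ofReal (Real.exp (z ⬝ᵥ u) *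
        Em q K u ^ (-(1 / q))))
      = volume K * (ENNReal.ofReal ((θ⁻¹ ^ n)⁻¹) * ∫⁻ u, ENNReal.ofReal (Real.exp (z ⬝ᵥ u) *
        Em q K u ^ (-(1 / q)))) := by
        rw [← inv_pow, inv_inv]
        ring
    _ ≤ _ := by gcongr

/-- comparison of two bodies -/
theorem Mp_sand (hK : Body K) (hL : Body L) (hp : 0 < p) {t : ℝ} (ht : 0 < t)
    (h1 : L ⊆ t • K) (h2 : K ⊆ t • L) :
    Mp p K ≤ ENNReal.ofReal (t ^ ((2 * n : ℝ) * (1 + 1 / p))) * Mp p L := by
  have hWK := Pool.Agent.N563.SE.Wp hK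
  have hWL := Pool.Agent.N563.SE.Wp hL
  have hvol : volume K ≤ ENNReal.ofReal (t ^ n) * volume L := by
    rw [← Pool.Agent.TH111.LOC_GAP.vol_smul ht]
    exact measure_mono h2
  have hvolr : (volume K).toReal ≤ t ^ n * (volume L).toReal := by
    have h3 := ENNReal.toReal_mono (ENNReal.mul_ne_top ENNReal.ofReal_ne_top
      hL.cpt.measure_lt_top.ne) hvol
    rwa [ENNReal.toReal_mul, ENNReal.toReal_ofReal (by positivity)] at h3
  -- the exponential means
  have hE : ∀ y, (t ^ (2 * n))⁻¹ * Em p L (t⁻¹ • y) ≤ Em p K y := by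
    intro y
    have h4 : ∫ x in t⁻¹ • L, Real.exp (p * (x ⬝ᵥ y)) ≤ ∫ x in K, Real.exp (p * (x ⬝ᵥ y)) := by
      refine setIntegral_mono_set (exp_intb hK p y)
        (Eventually.of_forall fun x => (Real.exp_pos _).le) (LE.le.eventuallyLE ?_)
      intro x hx
      obtain ⟨w, hw, rfl⟩ := hx
      obtain ⟨k, hk, hkw⟩ := h1 hw
      have : t⁻¹ • w = k := by
        rw [← hkw]
        simp only
        rw [smul_smul, inv_mul_cancel₀ ht.ne', one_smul]
      show t⁻¹ • w ∈ K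
      rw [this]; exact hk
    have h5 := Measure.setIntegral_comp_smul_of_pos (volume : Measure (Fin n → ℝ))
      (fun x : Fin n → ℝ => Real.exp (p * (x ⬝ᵥ y))) L (inv_pos.2 ht)
    rw [Module.finrank_fin_fun, smul_eq_mul] at h5
    have h6 : ∫ x in L, Real.exp (p * (x ⬝ᵥ (t⁻¹ • y))) =
        ∫ x in L, Real.exp (p * ((t⁻¹ • x) ⬝ᵥ y)) := by
      congr 1
      funext x
      rw [dotProduct_smul, smul_dotProduct]
    have h7 : ∫ x in t⁻¹ • L, Real.exp (p * (x ⬝ᵥ y)) =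
        (t ^ n)⁻¹ * ∫ x in L, Real.exp (p * (x ⬝ᵥ (t⁻¹ • y))) := by
      rw [h6, h5, ← mul_assoc, inv_pow, inv_inv, inv_mul_cancel₀ (by positivity), one_mul]
    have hI0 : 0 ≤ ∫ x in L, Real.exp (p * (x ⬝ᵥ (t⁻¹ • y))) :=
      integral_nonneg fun x => (Real.exp_pos _).le
    unfold Em
    rw [← mul_div_assoc, div_le_div_iff₀ hWL hWK]
    rw [h7] at h4
    calc (t ^ (2 * n))⁻¹ * (∫ x in L, Real.exp (p * (x ⬝ᵥ (t⁻¹ • y)))) * (volume K).toReal
        ≤ (t ^ (2 * n))⁻¹ * (∫ x in L, Real.exp (p * (x ⬝ᵥ (t⁻¹ • y)))) *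
          (t ^ n * (volume L).toReal) := by gcongr
      _ = ((t ^ n)⁻¹ * ∫ x in L, Real.exp (p * (x ⬝ᵥ (t⁻¹ • y)))) * (volume L).toReal := by
          have : (t ^ (2 * n))⁻¹ = (t ^ n)⁻¹ * (t ^ n)⁻¹ := by
            rw [two_mul, pow_add, mul_inv]
          rw [this]
          field_simp
      _ ≤ _ := mul_le_mul_of_nonneg_right h4 hWL.le
  have hp1 : -(1 / p) ≤ 0 := by rw [neg_nonpos]; positivity
  have hpt : ∀ y, ENNReal.ofReal (Em p K y ^ (-(1 / p))) ≤
      ENNReal.ofReal (t ^ ((2 * n : ℝ) / p)) *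
        ENNReal.ofReal (Em p L (t⁻¹ • y) ^ (-(1 / p))) := by
    intro y
    rw [← ENNReal.ofReal_mul (by positivity)]
    apply ENNReal.ofReal_le_ofReal
    have hEL := Em_pos hL p (t⁻¹ • y)
    have h4 := Real.rpow_le_rpow_of_nonpos (by positivity) (hE y) hp1
    refine h4.trans (le_of_eq ?_)
    rw [Real.mul_rpow (by positivity) hEL.le]
    congr 1
    rw [← Real.rpow_natCast, ← Real.rpow_neg ht.le, ← Real.rpow_mul ht.le]
    congr 1
    push_cast
    ring
  have hm : Measurable fun y => ENNReal.ofReal (Em p L y ^ (-(1 / p))) :=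
    ((Em_meas hL p).pow_const _).ennreal_ofReal
  have h3 := lintegral_mono (μ := (volume : Measure (Fin n → ℝ))) hpt
  have hm2 : Measurable fun y : Fin n → ℝ => ENNReal.ofReal (Em p L (t⁻¹ • y) ^ (-(1 / p))) :=
    hm.comp (measurable_const_smul (t⁻¹))
  have hsc := lint_smul _ hm (inv_pos.2 ht)
  rw [lintegral_const_mul _ hm2, hsc] at h3
  rw [Mp_Em, Mp_Em]
  have e1 : ENNReal.ofReal (t ^ ((2 * n : ℝ) * (1 + 1 / p))) =
      ENNReal.ofReal (t ^ n) * (ENNReal.ofReal (t ^ ((2 * n : ℝ) / p)) *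
        ENNReal.ofReal ((t⁻¹ ^ n)⁻¹)) := by
    rw [inv_pow, inv_inv, ← ENNReal.ofReal_mul (by positivity),
      ← ENNReal.ofReal_mul (by positivity), ← Real.rpow_natCast, ← Real.rpow_add ht,
      ← Real.rpow_add ht]
    congr 2
    ring
  calc volume K * ∫⁻ y, ENNReal.ofReal (Em p K y ^ (-(1 / p)))
      ≤ (ENNReal.ofReal (t ^ n) * volume L) * (ENNReal.ofReal (t ^ ((2 * n : ℝ) / p)) *
          (ENNReal.ofReal ((t⁻¹ ^ n)⁻¹) * ∫⁻ y, ENNReal.ofReal (Em p L y ^ (-(1 / p))))) :=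
        mul_le_mul' hvol h3
    _ = _ := by rw [e1]; ring

/-- the product of the volumes is bounded by the `L^p`-Mahler volume -/
theorem prod_le (hn : 1 ≤ n) (hp : 0 < p) (hK : NB K) :
    ENNReal.ofReal (n.factorial : ℝ) * (volume K * volume (pol K)) ≤ Mp p K := by
  refine le_trans ?_ (Mp_ge hn hK hp)
  obtain ⟨k, rfl⟩ : ∃ k, n = k + 1 := ⟨n - 1, by omega⟩
  rw [mul_comm, Pool.Agent.TH692.LOC_FINAL.int_fac]
  gcongr _ * ?_
  refine setLIntegral_mono' measurableSet_Ioi fun t ht => ?_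
  have ht0 : (0:ℝ) ≤ t := le_of_lt ht
  gcongr
  exact Pool.Agent.TH692.LOC_FINAL.Jn_pow hp ht0 (Pool.Agent.TH692.LOC_FINAL.Jn_pos hp ht0)

lemma infall_Sn (hp : 0 < p) : infall p (Sn n) = Mp p (Sn n) := by
  apply le_antisymm (infall_le p (Sn n))
  refine le_iInf fun z => ?_
  exact Pool.Agent.TH649.LOC.Mp_shift_le hp z

lemma MpS_top (hp : 0 < p) : Mp p (Sn n) ≠ ⊤ := by
  rw [Mp_Sn hp]; exact ENNReal.ofReal_ne_top

lemma MpS_pos (hp : 0 < p) : Mp p (Sn n) ≠ 0 := by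
  rw [Mp_Sn hp]
  have h1 := VS_pos n
  have h2 := Nf_pos (n := n) hp
  exact (ENNReal.ofReal_pos.2 (by positivity)).ne'

end Pool.Agent.N563.UL
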