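import Pool.Agent.N563.UL.U8

set_option autoImplicit false

/-!
Compactness: gaps away from simplices (helper563; after `Pool.Agent.TH111.LOC_GAP` and
`Pool.Agent.V11188.LPA.Cont`).
-/

open MeasureTheory Set Filter
open scoped ENNReal Topology Matrix Pointwise

namespace Pool.Agent.N563.UL

open Pool.Agent.H131R5.LM Pool.Agent.H131R5.LC Pool.Agent.W679.B
open H801NS H801NS.TENS
open Pool.Agent.N563.SE (Body cen cov lin vr lap ff AK Mv LK LK_pos LK_sh sh body_sh infall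
  part_lim vol_sh)

variable {n m : ℕ} {p q : ℝ} {K L : Set (Fin n → ℝ)}

/-- simplices (hulls of at most `n + 1` points) -/
def Hull (K : Set (Fin n → ℝ)) : Prop :=
  ∃ Q : Finset (Fin n → ℝ), Q.card ≤ n + 1 ∧ K = convexHull ℝ (Q : Set (Fin n → ℝ))

/-- bodies in a simplex whose volume is larger only by the factor `1 + δ` -/
def Near (δ : ℝ) (K : Set (Fin n → ℝ)) : Prop :=
  ∃ Q : Finset (Fin n → ℝ), Q.card ≤ n + 1 ∧ K ⊆ convexHull ℝ (Q : Set (Fin n → ℝ)) ∧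
    volume (convexHull ℝ (Q : Set (Fin n → ℝ))) ≤ ENNReal.ofReal (1 + δ) * volume K

lemma near_of_limit {δ : ℝ} (e : (Fin n → ℝ) ≃ₗ[ℝ] (Fin n → ℝ)) (z : Fin n → ℝ)
    {K0 : Set (Fin n → ℝ)} (hK0 : Hull K0) {t : ℝ} (ht : 1 < t) (htt : t ^ n * t ^ n < 1 + δ)
    (h1 : e '' (sh z K) ⊆ t • K0) (h2 : K0 ⊆ t • (e '' (sh z K))) : Near δ K := by
  classical
  have ht0 : 0 < t := by linarith
  obtain ⟨Q, hQ, hQe⟩ := hK0
  set f : (Fin n → ℝ) →ᵃ[ℝ] (Fin n → ℝ) :=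
    (e.symm.toLinearMap ∘ₗ (t • LinearMap.id)).toAffineMap + AffineMap.const ℝ _ z with hf
  have hfa : ∀ x, f x = e.symm (t • x) + z := fun x => rfl
  set Q' : Finset (Fin n → ℝ) := Q.image f with hQ'
  have hQ'hull : convexHull ℝ (Q' : Set (Fin n → ℝ)) = f '' K0 := by
    rw [hQ', Finset.coe_image, ← AffineMap.image_convexHull, ← hQe]
  have hvol : volume (f '' K0) = ENNReal.ofReal
      |LinearMap.det (e.symm : (Fin n → ℝ) →ₗ[ℝ] (Fin n → ℝ))| * volume (t • K0) := by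
    have h3 : f '' K0 = (fun x => x - -z) '' (e.symm '' (t • K0)) := by
      ext y
      constructor
      · rintro ⟨x, hx, rfl⟩
        refine ⟨e.symm (t • x), ⟨t • x, smul_mem_smul_set hx, rfl⟩, ?_⟩
        simp only [hfa, sub_neg_eq_add]
      · rintro ⟨_, ⟨_, ⟨x, hx, rfl⟩, rfl⟩, rfl⟩
        exact ⟨x, hx, by simp only [hfa, sub_neg_eq_add]⟩
    rw [h3, vol_sub, Pool.Agent.TH111.LOC_GAP.vol_image]
  have hvol2 : volume K = ENNReal.ofReal
      |LinearMap.det (e.symm : (Fin n → ℝ) →ₗ[ℝ] (Fin n → ℝ))| * volume (e '' (sh z K)) := by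
    rw [← Pool.Agent.TH111.LOC_GAP.vol_image, image_image]
    simp only [e.symm_apply_apply, image_id']
    rw [vol_sh]
  refine ⟨Q', Finset.card_image_le.trans hQ, ?_, ?_⟩
  · rw [hQ'hull]
    intro x hx
    obtain ⟨k, hk, hkx⟩ := h1 ⟨x - z, ⟨x, hx, rfl⟩, rfl⟩
    refine ⟨k, hk, ?_⟩
    rw [hfa]
    have h4 : t • k = e (x - z) := hkx
    rw [h4, e.symm_apply_apply]
    abel
  · rw [hQ'hull, hvol, hvol2]
    have h5 : volume (t • K0) ≤ ENNReal.ofReal (t ^ n * t ^ n) * volume (e '' (sh z K)) := by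
      rw [Pool.Agent.TH111.LOC_GAP.vol_smul ht0]
      calc ENNReal.ofReal (t ^ n) * volume K0 ≤ ENNReal.ofReal (t ^ n) *
            (ENNReal.ofReal (t ^ n) * volume (e '' (sh z K))) := by
            apply mul_le_mul' le_rfl
            rw [← Pool.Agent.TH111.LOC_GAP.vol_smul ht0]
            exact measure_mono h2
        _ = ENNReal.ofReal (t ^ n * t ^ n) * volume (e '' (sh z K)) := by
          rw [← mul_assoc, ← ENNReal.ofReal_mul (by positivity)]
    calc _ ≤ ENNReal.ofReal |LinearMap.det (e.symm : (Fin n → ℝ) →ₗ[ℝ] (Fin n → ℝ))| *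
          (ENNReal.ofReal (1 + δ) * volume (e '' (sh z K))) := by
          apply mul_le_mul' le_rfl
          exact h5.trans (mul_le_mul' (ENNReal.ofReal_le_ofReal htt.le) le_rfl)
      _ = _ := by ring

lemma good_t {δ : ℝ} (hδ : 0 < δ) (n : ℕ) : ∃ t : ℝ, 1 < t ∧ t ^ n * t ^ n < 1 + δ := by
  have hcontN : Tendsto (fun t : ℝ => t ^ n * t ^ n) (𝓝[>] 1) (𝓝 (1 ^ n * 1 ^ n)) := by
    have h1 : Continuous fun t : ℝ => t ^ n * t ^ n := by fun_prop
    exact (h1.tendsto 1).mono_left nhdsWithin_le_nhds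
  have h1 : ∀ᶠ t in 𝓝[>] (1 : ℝ), t ^ n * t ^ n < 1 + δ := by
    apply hcontN.eventually_lt_const
    rw [one_pow, mul_one]
    linarith
  have h2 : ∀ᶠ t in 𝓝[>] (1 : ℝ), 1 < t := self_mem_nhdsWithin
  obtain ⟨t, ht⟩ := (h1.and h2).exists
  exact ⟨t, ht.2, ht.1⟩

/-- finiteness of the `L^p`-Mahler volume places the origin -/
lemma zero_of_fin (hK : Body K) (hp : 0 < p) (h : Mp p K ≠ ⊤) : NB K := by
  refine ⟨hK.cpt, hK.conv, ?_⟩
  by_contra h0
  exact h (Mp_top hK.conv hK.cpt hK.int h0 hp)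

/-- **compactness modulo affine maps** -/
theorem compact (K : ℕ → Set (Fin (m + 1) → ℝ)) (hK : ∀ j, Body (K j)) (hp : 0 < p) {V : ℝ}
    (hV : ∀ j, Mp p (K j) ≤ ENNReal.ofReal V) :
    ∃ (e : ℕ → (Fin (m + 1) → ℝ) ≃ₗ[ℝ] (Fin (m + 1) → ℝ)) (φ : ℕ → ℕ)
      (K0 : Set (Fin (m + 1) → ℝ)), StrictMono φ ∧ NB K0 ∧ ∀ t : ℝ, 1 < t →
        ∀ᶠ j in atTop, e (φ j) '' K (φ j) ⊆ t • K0 ∧ K0 ⊆ t • (e (φ j) '' K (φ j)) := by
  have hNB : ∀ j, NB (K j) := fun j =>
    zero_of_fin (hK j) hp ((hV j).trans_lt ENNReal.ofReal_lt_top).ne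
  obtain ⟨v, hv, hnorm⟩ := Pool.Agent.TH111.LOC_GAP.normalise m
  choose e hball hvol using fun j => hnorm (K j) (hNB j)
  set L : ℕ → Set (Fin (m + 1) → ℝ) := fun j => e j '' K j with hL
  have hLNB : ∀ j, NB (L j) := fun j => Pool.Agent.TH111.LOC_GAP.NB_image (e j) (hNB j)
  have hf : (0 : ℝ) < ((m + 1).factorial : ℝ) := by positivity
  have hpolV : ∀ j, volume (pol (L j)) ≤ ENNReal.ofReal (V / ((m + 1).factorial * v)) := by
    intro j
    have h1 := prod_le (Nat.le_add_left 1 m) hp (hLNB j)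
    have h2 : Mp p (L j) = Mp p (K j) := Mv_img hp (hK j) (e j)
    rw [h2] at h1
    rw [ENNReal.ofReal_div_of_pos (by positivity), ENNReal.le_div_iff_mul_le
      (Or.inl (ENNReal.ofReal_pos.2 (by positivity)).ne') (Or.inl ENNReal.ofReal_ne_top)]
    calc volume (pol (L j)) * ENNReal.ofReal ((m + 1).factorial * v) =
          ENNReal.ofReal ((m + 1).factorial : ℝ) * (ENNReal.ofReal v * volume (pol (L j))) := by
          rw [ENNReal.ofReal_mul hf.le]; ring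
      _ ≤ ENNReal.ofReal ((m + 1).factorial : ℝ) * (volume (L j) * volume (pol (L j))) := by
          gcongr
          exact hvol j
      _ ≤ _ := h1.trans (hV j)
  obtain ⟨η, hη, hin⟩ := Pool.Agent.TH111.LOC_GAP.inradius (m + 1)
    (V / ((m + 1).factorial * v)) 2 two_pos
  obtain ⟨φ, K0, hφ, hK0, hsel⟩ := Pool.Agent.TH111.LOC_GAP.selection L hη
    (by norm_num : (0 : ℝ) ≤ 2) (fun j => (hLNB j).comp) (fun j => (hLNB j).conv)
    (fun j => hin (L j) (hLNB j) (hball j) (hpolV j)) hball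
  exact ⟨e, φ, K0, hφ, hK0, hsel⟩

/-- the inequality of Q1 with its case of equality, for the exponent `p` -/
def Good (n : ℕ) (p : ℝ) : Prop := ∀ K : Set (Fin n → ℝ), Body K →
  Mp p (Sn n) ≤ Mp p K ∧ (Mp p K = Mp p (Sn n) → Hull K)

/-- **the gap at a good exponent** -/
theorem gapM (hn : 1 ≤ n) (hp : 0 < p) (hg : Good n p) {δ : ℝ} (hδ : 0 < δ) :
    ∃ κ : ℝ, 0 < κ ∧ ∀ K : Set (Fin n → ℝ), Body K → ¬ Near δ K →
      ENNReal.ofReal (1 + κ) * Mp p (Sn n) ≤ infall p K := by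
  obtain ⟨m, rfl⟩ : ∃ m, n = m + 1 := ⟨n - 1, by omega⟩
  set N : ℕ := m + 1 with hN
  by_contra hcon
  push Not at hcon
  have hMt := MpS_top (n := N) hp
  have hex : ∀ j : ℕ, ∃ (K : Set (Fin N → ℝ)) (z : Fin N → ℝ), Body K ∧ ¬ Near δ K ∧
      Mp p (sh z K) < ENNReal.ofReal (1 + 1 / ((j : ℝ) + 1)) * Mp p (Sn N) := by
    intro j
    obtain ⟨K, hK, hno, hlt⟩ := hcon (1 / ((j : ℝ) + 1)) (by positivity)
    obtain ⟨z, hz⟩ := iInf_lt_iff.1 hlt
    exact ⟨K, z, hK, hno, hz⟩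
  choose K z hK hno hlt using hex
  set M : ℝ := (Mp p (Sn N)).toReal with hM
  have hMe : Mp p (Sn N) = ENNReal.ofReal M := (ENNReal.ofReal_toReal hMt).symm
  have hM0 : 0 ≤ M := ENNReal.toReal_nonneg
  have hV : ∀ j, Mp p (sh (z j) (K j)) ≤ ENNReal.ofReal (2 * M) := by
    intro j
    refine (hlt j).le.trans ?_
    rw [hMe, ← ENNReal.ofReal_mul (by positivity)]
    apply ENNReal.ofReal_le_ofReal
    have h1 : 1 / ((j : ℝ) + 1) ≤ 1 := by
      rw [div_le_one (by positivity)]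
      have : (0 : ℝ) ≤ j := Nat.cast_nonneg j
      linarith
    nlinarith
  obtain ⟨e, φ, K0, hφ, hK0, hsel⟩ := compact (fun j => sh (z j) (K j))
    (fun j => body_sh (hK j) (z j)) hp hV
  have hB0 := NB_body hK0
  have hle : Mp p K0 ≤ Mp p (Sn N) := by
    have h1 : ∀ η : ℝ, 0 < η → Mp p K0 ≤
        ENNReal.ofReal ((1 + η) ^ ((2 * N : ℝ) * (1 + 1 / p)) * (1 + η)) * Mp p (Sn N) := by
      intro η hη
      have h2 : ∀ᶠ j : ℕ in atTop, 1 / ((φ j : ℝ) + 1) < η := by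
        have h3 : Tendsto (fun j => 1 / (((φ j : ℕ) : ℝ) + 1)) atTop (𝓝 0) :=
          tendsto_one_div_add_atTop_nhds_zero_nat.comp hφ.tendsto_atTop
        exact h3.eventually_lt_const hη
      obtain ⟨j, ⟨hj1, hj2⟩, hj3⟩ := ((hsel (1 + η) (by linarith)).and h2).exists
      have hBL := body_img (body_sh (hK (φ j)) (z (φ j))) (e (φ j))
      have h4 := Mp_sand hB0 hBL hp (show 0 < 1 + η by linarith) hj1 hj2
      have h5 : Mp p (e (φ j) '' sh (z (φ j)) (K (φ j))) = Mp p (sh (z (φ j)) (K (φ j))) :=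
        Mv_img hp (body_sh (hK (φ j)) (z (φ j))) (e (φ j))
      rw [h5] at h4
      calc Mp p K0 ≤ ENNReal.ofReal ((1 + η) ^ ((2 * N : ℝ) * (1 + 1 / p))) *
            Mp p (sh (z (φ j)) (K (φ j))) := h4
        _ ≤ ENNReal.ofReal ((1 + η) ^ ((2 * N : ℝ) * (1 + 1 / p))) *
            (ENNReal.ofReal (1 + η) * Mp p (Sn N)) := by
            gcongr
            refine (hlt (φ j)).le.trans ?_
            gcongr
        _ = _ := by rw [← mul_assoc, ← ENNReal.ofReal_mul (by positivity)]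
    have h2 : Tendsto (fun η : ℝ => ENNReal.ofReal ((1 + η) ^ ((2 * N : ℝ) * (1 + 1 / p)) *
        (1 + η)) * Mp p (Sn N)) (𝓝[>] 0)
        (𝓝 (ENNReal.ofReal ((1 + 0) ^ ((2 * N : ℝ) * (1 + 1 / p)) * (1 + 0)) * Mp p (Sn N))) := by
      refine ENNReal.Tendsto.mul_const ?_ (Or.inr hMt)
      apply ENNReal.tendsto_ofReal
      apply Tendsto.mono_left _ nhdsWithin_le_nhds
      have h3 : ContinuousAt (fun η : ℝ => (1 + η) ^ ((2 * N : ℝ) * (1 + 1 / p)) * (1 + η)) 0 := by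
        have h4 : ContinuousAt (fun η : ℝ => 1 + η) 0 := by fun_prop
        exact (h4.rpow_const (Or.inl (by norm_num))).mul h4
      exact h3.tendsto
    rw [add_zero, Real.one_rpow, mul_one, ENNReal.ofReal_one, one_mul] at h2
    refine ge_of_tendsto h2 ?_
    filter_upwards [self_mem_nhdsWithin] with η hη
    exact h1 η hη
  have hH : Hull K0 := (hg K0 hB0).2 (le_antisymm hle (hg K0 hB0).1)
  obtain ⟨t, ht, htt⟩ := good_t hδ N
  obtain ⟨j, hj1, hj2⟩ := (hsel t ht).exists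
  exact hno (φ j) (near_of_limit (e (φ j)) (z (φ j)) hH ht htt hj1 hj2)

end Pool.Agent.N563.UL
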